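import Mathlib

/-! Zero-cycles on a projective hypersurface and the relations given by rational curves. -/

namespace Pool.Agent.CE

open scoped Classical LinearAlgebra.Projectivization Polynomial

noncomputable section

/-- zero-cycles on projective space over `Λ` -/
abbrev Cy (Λ : Type) [Field Λ] (n : ℕ) : Type := ℙ Λ (Fin n → Λ) →₀ ℤ

/-- the point with homogeneous coordinates `x` -/
def pt {Λ : Type} [Field Λ] {n : ℕ} (x : Fin n → Λ) : Cy Λ n :=
  if h : x = 0 then 0 else Finsupp.single (Projectivization.mk Λ x h) 1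

/-- the cycle over `Λ` of the point `x` with coordinates in the finite extension `E` of `L` -/
def cyc (L Λ : Type) {E : Type} [Field L] [Field Λ] [Field E] [Algebra L Λ] [Algebra L E]
    [FiniteDimensional L E] {n : ℕ} (x : Fin n → E) : Cy Λ n :=
  Field.finInsepDegree L E • ∑ σ : E →ₐ[L] Λ, pt fun a => σ (x a)

variable {L : Type} (Λ : Type) [Field L] [Field Λ] [Algebra L Λ] {n : ℕ}

/-- the zero-cycles of the hypersurface `f = 0` over `L` -/
def Z0 (f : MvPolynomial (Fin n) L) : AddSubgroup (Cy Λ n) :=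
  AddSubgroup.closure {D | ∃ (E : Type) (_ : Field E) (_ : Algebra L E) (_ : FiniteDimensional L E)
    (x : Fin n → E), x ≠ 0 ∧ MvPolynomial.aeval x f = 0 ∧ D = cyc L Λ x}

/-- the relations given by rational curves on the hypersurface over finite extensions of `L` -/
def REq (f : MvPolynomial (Fin n) L) : AddSubgroup (Cy Λ n) :=
  AddSubgroup.closure {D | ∃ (E : Type) (_ : Field E) (_ : Algebra L E) (_ : FiniteDimensional L E)
    (γ : Fin n → E[X]), MvPolynomial.aeval γ f = 0 ∧ (fun a => (γ a).eval 0) ≠ 0 ∧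
      (fun a => (γ a).eval 1) ≠ 0 ∧
        D = cyc L Λ (fun a => (γ a).eval 0) - cyc L Λ fun a => (γ a).eval 1}

/-- extension of the ground field -/
def res {Λ Λ' : Type} [Field Λ] [Field Λ'] (ι : Λ →+* Λ') (D : Cy Λ n) : Cy Λ' n :=
  D.sum fun y m => m • pt fun a => ι (y.rep a)

end

end Pool.Agent.CE
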