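import Pool.Agent.Lib.MP_72c364_ag.IDefs

/-! Normal forms modulo `t φ(s) - ε`. -/

namespace Pool.Agent.CE

open scoped Classical Polynomial

variable {B : Type} [CommRing B] {φ : B[X]} {ε : B} {n : ℕ}

/-- substitution of `ε / φ` for the outer variable, multiplied by `φ ^ D` -/
noncomputable def hm (φ : B[X]) (ε : B) (D : ℕ) (u : B[X][X]) : B[X] :=
  ∑ k ∈ Finset.range (D + 1), u.coeff k * Polynomial.C ε ^ k * φ ^ (D - k)

/-- the coefficients of positive order are reduced modulo `φ` -/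
def Rd (φ : B[X]) (u : B[X][X]) : Prop := ∀ k, (u.coeff (k + 1)).natDegree < φ.natDegree

theorem hm_add (D : ℕ) (u u' : B[X][X]) : hm φ ε D (u + u') = hm φ ε D u + hm φ ε D u' := by
  simp only [hm, Polynomial.coeff_add, add_mul, Finset.sum_add_distrib]

theorem hm_smul (D : ℕ) (c : B) (u : B[X][X]) : hm φ ε D (c • u) = c • hm φ ε D u := by
  simp only [hm, Polynomial.coeff_smul, smul_mul_assoc, Finset.smul_sum]

theorem hm_sum {ι : Type} (s : Finset ι) (D : ℕ) (u : ι → B[X][X]) :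
    hm φ ε D (∑ i ∈ s, u i) = ∑ i ∈ s, hm φ ε D (u i) := by
  simp only [hm, Polynomial.finsetSum_coeff, Finset.sum_mul]
  exact Finset.sum_comm

theorem hm_monomial {D k : ℕ} (hk : k ≤ D) (a : B[X]) :
    hm φ ε D (Polynomial.monomial k a) = a * Polynomial.C ε ^ k * φ ^ (D - k) := by
  rw [hm, Finset.sum_eq_single_of_mem k (Finset.mem_range.2 (Nat.lt_succ_of_le hk)),
    Polynomial.coeff_monomial_same]
  intro j _ hj
  rw [Polynomial.coeff_monomial_of_ne _ hj, zero_mul, zero_mul]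

theorem comba_eq (D : ℕ) (u : B[X][X]) :
    hm φ ε D u = MvPolynomial.eval ![Polynomial.C ε, φ] (u.homogenize D) := by
  rw [hm, Polynomial.homogenize, map_sum, Finset.Nat.sum_antidiagonal_eq_sum_range_succ_mk]
  refine Finset.sum_congr rfl fun k _ => ?_
  rw [MvPolynomial.eval_monomial, Finsupp.prod_fintype _ _ fun _ => pow_zero _, Fin.prod_univ_two,
    mul_assoc]
  simp

theorem hm_mul {D D' : ℕ} {u u' : B[X][X]} (h : u.natDegree ≤ D) (h' : u'.natDegree ≤ D') :
    hm φ ε (D + D') (u * u') = hm φ ε D u * hm φ ε D' u' := by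
  rw [comba_eq, comba_eq, comba_eq, Polynomial.homogenize_mul _ _ h h', map_mul]

theorem comba_pow {e : ℕ} {u : B[X][X]} (h : u.natDegree ≤ e) (k : ℕ) :
    hm φ ε (k * e) (u ^ k) = hm φ ε e u ^ k := by
  induction k with
  | zero => simp [hm]
  | succ k ih =>
    rw [Nat.succ_mul, pow_succ, pow_succ,
      hm_mul (Polynomial.natDegree_pow_le.trans (Nat.mul_le_mul_left _ h)) h, ih]

theorem hm_aeval {f : MvPolynomial (Fin n) B} {d e : ℕ} (hf : f.IsHomogeneous d)
    {x : Fin n → B[X][X]} (hx : ∀ a, (x a).natDegree ≤ e) :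
    hm φ ε (d * e) (MvPolynomial.aeval x f) = MvPolynomial.aeval (fun a => hm φ ε e (x a)) f := by
  conv_lhs => rw [f.as_sum]
  conv_rhs => rw [f.as_sum]
  rw [map_sum, map_sum, hm_sum]
  refine Finset.sum_congr rfl fun s hs => ?_
  have hd : d = ∑ a ∈ s.support, s a := by
    rw [← hf (MvPolynomial.mem_support_iff.1 hs), Finsupp.weight_apply, Finsupp.sum]
    simp
  rw [MvPolynomial.aeval_monomial, MvPolynomial.aeval_monomial, ← Algebra.smul_def,
    ← Algebra.smul_def, hm_smul, hd, Finset.sum_mul, Finsupp.prod, Finsupp.prod, comba_eq,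
    Polynomial.homogenize_finsetProd fun a _ => Polynomial.natDegree_pow_le.trans
      (Nat.mul_le_mul_left _ (hx a)), map_prod]
  congr 1
  exact Finset.prod_congr rfl fun a _ => by rw [← comba_eq, comba_pow (hx a)]

theorem comba_lt {a : B[X]} {r : ℕ} (h : ∀ i, r ≤ i → a.coeff i = 0) (k j : ℕ) {i : ℕ}
    (hi : r + φ.natDegree * j ≤ i) : (a * Polynomial.C ε ^ k * φ ^ j).coeff i = 0 := by
  rw [Polynomial.coeff_mul]
  refine Finset.sum_eq_zero fun p hp => ?_
  have e : p.1 + p.2 = i := by simpa using hp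
  rcases le_or_gt r p.1 with c | c
  · rw [← map_pow, Polynomial.coeff_mul_C, h _ c, zero_mul, zero_mul]
  · have h1 : (φ ^ j).natDegree ≤ φ.natDegree * j := mul_comm j _ ▸ Polynomial.natDegree_pow_le
    rw [Polynomial.coeff_eq_zero_of_natDegree_lt (p := φ ^ j) (by omega), mul_zero]

theorem comba_split (D : ℕ) (u : B[X][X]) : hm φ ε D u = ∑ k ∈ Finset.range D,
    u.coeff (k + 1) * Polynomial.C ε ^ (k + 1) * φ ^ (D - (k + 1)) + u.coeff 0 * φ ^ D := by
  rw [hm, Finset.sum_range_succ', pow_zero, mul_one, Nat.sub_zero]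

theorem comba_tail {D : ℕ} {u : B[X][X]} (hu : Rd φ u) {i : ℕ} (hi : φ.natDegree * D ≤ i) :
    (∑ k ∈ Finset.range D,
      u.coeff (k + 1) * Polynomial.C ε ^ (k + 1) * φ ^ (D - (k + 1))).coeff i = 0 := by
  rw [Polynomial.finsetSum_coeff]
  refine Finset.sum_eq_zero fun k hk => comba_lt (r := φ.natDegree)
    (fun j hj => Polynomial.coeff_eq_zero_of_natDegree_lt ((hu k).trans_le hj)) _ _
    (le_trans ?_ hi)
  have := Finset.mem_range.1 hk
  rw [add_comm, ← Nat.mul_succ]
  exact Nat.mul_le_mul_left _ (by omega)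

theorem comba_tail2 {D : ℕ} {u : B[X][X]} (hu : Rd φ u) {i : ℕ} (hi : φ.natDegree * D ≤ i) :
    (∑ k ∈ Finset.range D, u.coeff (k + 1 + 1) * Polynomial.C ε ^ (k + 1 + 1) *
      φ ^ (D + 1 - (k + 1 + 1))).coeff i = 0 := by
  rw [Polynomial.finsetSum_coeff]
  refine Finset.sum_eq_zero fun k hk => comba_lt (r := φ.natDegree)
    (fun j hj => Polynomial.coeff_eq_zero_of_natDegree_lt ((hu (k + 1)).trans_le hj)) _ _
    (le_trans ?_ hi)
  have := Finset.mem_range.1 hk
  rw [add_comm, ← Nat.mul_succ]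
  exact Nat.mul_le_mul_left _ (by omega)

/-- degree and leading coefficient -/
theorem hm_top (hφ : φ.Monic) {D : ℕ} {u : B[X][X]} (hu : Rd φ u) {c : B}
    (h0 : u.coeff 0 = Polynomial.C c) :
    (hm φ ε D u).natDegree ≤ φ.natDegree * D ∧ (hm φ ε D u).coeff (φ.natDegree * D) = c := by
  have hp : (φ ^ D).natDegree = φ.natDegree * D := by rw [hφ.natDegree_pow, mul_comm]
  rw [comba_split, h0]
  constructor
  · refine (Polynomial.natDegree_add_le _ _).trans (max_le ?_ ?_)
    · exact Polynomial.natDegree_le_iff_coeff_eq_zero.2 fun i hi => comba_tail hu hi.le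
    · exact (Polynomial.natDegree_C_mul_le _ _).trans hp.le
  · rw [Polynomial.coeff_add, comba_tail hu le_rfl, zero_add, Polynomial.coeff_C_mul, ← hp,
      (hφ.pow D).coeff_natDegree, mul_one]

/-- sections that vanish twice at infinity -/
theorem hm_two {D : ℕ} (hD : 2 ≤ D) {u : B[X][X]} (hu : Rd φ u) (h0 : u.coeff 0 = 0)
    (h1 : ∀ i, φ.natDegree ≤ i + 1 → (u.coeff 1).coeff i = 0) :
    (hm φ ε D u).natDegree + 2 ≤ φ.natDegree * D := by
  have hm0 : 0 < φ.natDegree := (Nat.zero_le _).trans_lt (hu 0)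
  obtain ⟨D, rfl⟩ : ∃ E, D = E + 1 := ⟨D - 1, by omega⟩
  have h2 : 2 ≤ φ.natDegree * (D + 1) := hD.trans (Nat.le_mul_of_pos_left _ hm0)
  have h3 : φ.natDegree * (D + 1) = φ.natDegree * D + φ.natDegree := Nat.mul_succ _ _
  refine Nat.add_le_of_le_sub h2 (Polynomial.natDegree_le_iff_coeff_eq_zero.2 fun i hi => ?_)
  rw [comba_split, h0, zero_mul, add_zero, Finset.sum_range_succ', Polynomial.coeff_add,
    comba_tail2 hu (by omega), zero_add, zero_add, Nat.add_sub_cancel]
  exact comba_lt (r := φ.natDegree - 1) (fun j hj => h1 j (by omega)) _ _ (by omega)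

theorem eq_zero_of_hm (hφ : φ.Monic) {D : ℕ} {u : B[X][X]} (hu : Rd φ u)
    (h : ∀ i, φ.natDegree * D ≤ i → (hm φ ε D u).coeff i = 0) : u.coeff 0 = 0 := by
  have hp : (φ ^ D).natDegree = φ.natDegree * D := by rw [hφ.natDegree_pow, mul_comm]
  have h1 := h ((u.coeff 0).natDegree + (φ ^ D).natDegree) (by omega)
  rwa [comba_split, Polynomial.coeff_add, comba_tail hu (by omega), zero_add,
    Polynomial.coeff_mul_degree_add_degree, (hφ.pow D).leadingCoeff, mul_one,
    Polynomial.leadingCoeff_eq_zero] at h1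

theorem eq_zero_of_hm_two [IsDomain B] (hφ : φ.Monic) (hε : ε ≠ 0) {D : ℕ} (hD : 1 ≤ D)
    {u : B[X][X]} (hu : Rd φ u) (h : (hm φ ε D u).natDegree + 2 ≤ φ.natDegree * D) :
    u.coeff 0 = 0 ∧ ∀ i, φ.natDegree ≤ i + 1 → (u.coeff 1).coeff i = 0 := by
  have hm0 : 0 < φ.natDegree := (Nat.zero_le _).trans_lt (hu 0)
  have h0 : u.coeff 0 = 0 := eq_zero_of_hm (ε := ε) (D := D) hφ hu fun i hi =>
    Polynomial.coeff_eq_zero_of_natDegree_lt (by omega)
  refine ⟨h0, fun i hi => ?_⟩
  have hu1 : (u.coeff 1).natDegree < φ.natDegree := hu 0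
  rcases lt_or_ge (u.coeff 1).natDegree i with k | k
  · exact Polynomial.coeff_eq_zero_of_natDegree_lt k
  obtain ⟨D, rfl⟩ : ∃ E, D = E + 1 := ⟨D - 1, by omega⟩
  have h3 : φ.natDegree * (D + 1) = φ.natDegree * D + φ.natDegree := Nat.mul_succ _ _
  have hp : (φ ^ D).natDegree = φ.natDegree * D := by rw [hφ.natDegree_pow, mul_comm]
  have h1 : (hm φ ε (D + 1) u).coeff (i + (φ ^ D).natDegree) = 0 :=
    Polynomial.coeff_eq_zero_of_natDegree_lt (by omega)
  rw [comba_split, h0, zero_mul, add_zero, Finset.sum_range_succ', Polynomial.coeff_add,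
    comba_tail2 hu (by omega), zero_add, zero_add, Nat.add_sub_cancel, pow_one,
    Polynomial.coeff_mul_add_eq_of_natDegree_le
      ((Polynomial.natDegree_mul_C_le _ _).trans (by omega)) le_rfl,
    (hφ.pow D).coeff_natDegree, mul_one, Polynomial.coeff_mul_C] at h1
  exact (mul_eq_zero.1 h1).resolve_right hε

theorem comba_div (hφ : φ.Monic) : ∃ dv : B[X] →ₗ[B] B[X], ∀ p, p %ₘ φ + φ * dv p = p := by
  refine ⟨⟨⟨fun p => p /ₘ φ, fun p q => hφ.isRegular.left ?_⟩, fun c p => hφ.isRegular.left ?_⟩,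
    fun p => Polynomial.modByMonic_add_div p φ⟩
  · have h1 := Polynomial.modByMonic_add_div (p + q) φ
    rw [Polynomial.add_modByMonic] at h1
    linear_combination h1 - Polynomial.modByMonic_add_div p φ - Polynomial.modByMonic_add_div q φ
  · have h1 := Polynomial.modByMonic_add_div (c • p) φ
    rw [Polynomial.smul_modByMonic] at h1
    simp only [Polynomial.smul_eq_C_mul, RingHom.id_apply] at h1 ⊢
    linear_combination h1 - Polynomial.C c * Polynomial.modByMonic_add_div p φ

theorem comba_lin (g : ℕ → B[X] →ₗ[B] B[X]) (s : ℕ) : ∃ L : B[X][X] →ₗ[B] B[X][X],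
    ∀ u k, (L u).coeff k = g k (u.coeff (k + s)) := by
  refine ⟨Polynomial.lsum fun j => if s ≤ j then
    (Polynomial.monomial (j - s)).restrictScalars B ∘ₗ g (j - s) else 0, fun u k => ?_⟩
  rw [Polynomial.lsum_apply, Polynomial.sum_def, Polynomial.finsetSum_coeff,
    Finset.sum_eq_single (k + s)]
  · simp
  · intro j _ hj
    split_ifs with h
    · exact Polynomial.coeff_monomial_of_ne _ (by omega)
    · simp
  · intro h
    rw [Polynomial.notMem_support_iff.1 h, map_zero, Polynomial.coeff_zero]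

/-- the normal form -/
theorem exists_nf (hφ : φ.Monic) (hm0 : 0 < φ.natDegree) (ε : B) (D : ℕ) :
    ∃ nf : B[X][X] →ₗ[B] B[X][X], (∀ u, Rd φ (nf u)) ∧
      (∀ u, u.natDegree ≤ D → (nf u).natDegree ≤ D ∧ hm φ ε D (nf u) = hm φ ε D u) ∧
      ∀ u k i, ((nf u).coeff (k + 1)).coeff i - (u.coeff (k + 1) %ₘ φ).coeff i ∈
        Ideal.span {ε} := by
  have hφ1 : φ ≠ 1 := fun h => by
    rw [h, Polynomial.natDegree_one] at hm0
    exact lt_irrefl _ hm0
  obtain ⟨dv, hdv⟩ := comba_div hφ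
  obtain ⟨ρ, hρ⟩ := comba_lin (B := B)
    (fun k => if k = 0 then LinearMap.id else Polynomial.modByMonicHom φ) 0
  obtain ⟨δ, hδ⟩ := comba_lin (fun _ => dv) 1
  have hρ0 : ∀ u, (ρ u).coeff 0 = u.coeff 0 := fun u => by simp [hρ]
  have hρ1 : ∀ u k, (ρ u).coeff (k + 1) = u.coeff (k + 1) %ₘ φ := fun u k => by simp [hρ]
  have hRd : ∀ u, Rd φ (ρ u) := fun u k => by
    rw [hρ1]
    exact Polynomial.natDegree_modByMonic_lt _ hφ hφ1
  have hρd : ∀ u E, u.natDegree ≤ E → (ρ u).natDegree ≤ E := fun u E h =>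
    Polynomial.natDegree_le_iff_coeff_eq_zero.2 fun k hk => by
      rw [hρ, add_zero, Polynomial.coeff_eq_zero_of_natDegree_lt (h.trans_lt hk), map_zero]
  have hδd : ∀ u E, u.natDegree ≤ E + 1 → (δ u).natDegree ≤ E := fun u E h =>
    Polynomial.natDegree_le_iff_coeff_eq_zero.2 fun k hk => by
      rw [hδ, Polynomial.coeff_eq_zero_of_natDegree_lt (by omega), map_zero]
  have key : ∀ u, u.natDegree ≤ D → hm φ ε D (ρ u) + ε • hm φ ε D (δ u) = hm φ ε D u := by
    intro u h
    rw [comba_split, comba_split D u, hρ0, hm, Finset.sum_range_succ, hδ u D,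
      Polynomial.coeff_eq_zero_of_natDegree_lt (Nat.lt_succ_of_le h), map_zero, zero_mul,
      zero_mul, add_zero, add_right_comm, Finset.smul_sum, ← Finset.sum_add_distrib]
    congr 1
    refine Finset.sum_congr rfl fun k hk => ?_
    have e : D - k = D - (k + 1) + 1 := by
      have := Finset.mem_range.1 hk
      omega
    rw [hρ1, hδ, e, Polynomial.smul_eq_C_mul]
    conv_rhs => rw [← hdv (u.coeff (k + 1))]
    ring
  have main : ∀ N : ℕ, ∃ nf : B[X][X] →ₗ[B] B[X][X], (∀ u, Rd φ (nf u)) ∧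
      (∀ u, u.natDegree ≤ N → u.natDegree ≤ D →
        (nf u).natDegree ≤ D ∧ hm φ ε D (nf u) = hm φ ε D u) ∧
      ∀ u k i, ((nf u).coeff (k + 1)).coeff i - (u.coeff (k + 1) %ₘ φ).coeff i ∈
        Ideal.span {ε} := by
    intro N
    induction N with
    | zero =>
      refine ⟨ρ, hRd, fun u h h' => ⟨hρd u D h', ?_⟩, fun u k i => ?_⟩
      · congr 1
        ext1 k
        rcases k with _ | k
        · exact hρ0 u
        · rw [hρ1, Polynomial.coeff_eq_zero_of_natDegree_lt (by omega),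
            Polynomial.zero_modByMonic]
      · rw [hρ1, sub_self]
        exact zero_mem _
    | succ N ih =>
      obtain ⟨nf, h1, h2, -⟩ := ih
      refine ⟨ρ + ε • nf ∘ₗ δ, fun u k => ?_, fun u h h' => ?_, fun u k i => ?_⟩
      · rw [LinearMap.add_apply, LinearMap.smul_apply, Polynomial.coeff_add, Polynomial.coeff_smul]
        exact (Polynomial.natDegree_add_le _ _).trans_lt (max_lt (hRd u k)
          ((Polynomial.natDegree_smul_le _ _).trans_lt (h1 _ k)))
      · obtain ⟨h3, h4⟩ := h2 (δ u) (hδd u N h) (hδd u D (by omega))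
        rw [LinearMap.add_apply, LinearMap.smul_apply, LinearMap.comp_apply, hm_add, hm_smul, h4]
        exact ⟨(Polynomial.natDegree_add_le _ _).trans (max_le (hρd u D h')
          ((Polynomial.natDegree_smul_le _ _).trans h3)), key u h'⟩
      · rw [LinearMap.add_apply, LinearMap.smul_apply, Polynomial.coeff_add, Polynomial.coeff_smul,
          Polynomial.coeff_add, Polynomial.coeff_smul, hρ1, add_sub_cancel_left, smul_eq_mul]
        exact Ideal.mul_mem_right _ _ (Ideal.mem_span_singleton_self ε)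
  obtain ⟨nf, h1, h2, h3⟩ := main D
  exact ⟨nf, h1, fun u h => h2 u h h, h3⟩

/-- expansions in powers of `φ` -/
theorem mem_of_expansion (hφ : φ.Monic) (hm0 : 0 < φ.natDegree) (T : Submodule B B[X]) {c : B}
    {A : ℕ} (h : ∀ i r, i < φ.natDegree → φ.natDegree * r + i < A →
      Polynomial.C c * Polynomial.X ^ i * φ ^ r ∈ T) {j : ℕ} (hj : j < A) :
    Polynomial.C c * Polynomial.X ^ j ∈ T := by
  rcases subsingleton_or_nontrivial B with hB | hB
  · rw [Subsingleton.elim (Polynomial.C c * Polynomial.X ^ j) 0]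
    exact zero_mem _
  induction j using Nat.strong_induction_on with
  | _ j ih =>
    have hj' : φ.natDegree * (j / φ.natDegree) + j % φ.natDegree = j := Nat.div_add_mod _ _
    have h1 := h (j % φ.natDegree) (j / φ.natDegree) (Nat.mod_lt _ hm0) (by omega)
    have hg : (Polynomial.X ^ (j % φ.natDegree) * φ ^ (j / φ.natDegree)).Monic :=
      (Polynomial.monic_X_pow _).mul (hφ.pow _)
    have hd : (Polynomial.X ^ (j % φ.natDegree) * φ ^ (j / φ.natDegree)).natDegree = j := by
      rw [(Polynomial.monic_X_pow _).natDegree_mul (hφ.pow _), Polynomial.natDegree_X_pow,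
        hφ.natDegree_pow, mul_comm, add_comm, hj']
    rw [mul_assoc, hg.as_sum, hd, mul_add, Finset.mul_sum] at h1
    refine (T.add_mem_iff_left (T.sum_mem fun k hk => ?_)).1 h1
    have hk' := Finset.mem_range.1 hk
    rw [mul_left_comm, ← Polynomial.smul_eq_C_mul]
    exact T.smul_mem _ (ih k hk' (hk'.trans hj))

end Pool.Agent.CE
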