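import Pool.Agent.Lib.MP_72c364_ag.IDefs
import Pool.Agent.Lib.MP_751085_ag.Newton

/-! The method of Newton over an adically complete ring. -/

namespace Pool.Agent.CE

open scoped Classical Polynomial

variable {B : Type} [CommRing B] (I : Ideal B) [IsAdicComplete I B] {n d : ℕ}

theorem newton_absI {ι : Type} [Fintype ι] (Ψ : (ι → B) → ι → B) (h0 : ∀ i, Ψ 0 i ∈ I)
    (h1 : ∀ w w' : ι → B, (∀ j, w j ∈ I) → (∀ j, w' j ∈ I) → ∀ K : Ideal B,
      (∀ j, w' j - w j ∈ K) → ∀ i, Ψ w' i - Ψ w i - (w' i - w i) ∈ I * K) :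
    ∃ w : ι → B, (∀ j, w j ∈ I) ∧ ∀ i, Ψ w i = 0 := by
  let u : ℕ → ι → B := fun N => Nat.rec 0 (fun _ v => v - Ψ v) N
  have hu : ∀ N j, u (N + 1) j = u N j - Ψ (u N) j := fun _ _ => rfl
  have h2 : ∀ N, (∀ j, u N j ∈ I) ∧ ∀ i, Ψ (u N) i ∈ I ^ (N + 1) := by
    intro N
    induction N with
    | zero => exact ⟨fun _ => zero_mem _, fun i => by rw [zero_add, pow_one]; exact h0 i⟩
    | succ N ih =>
      have h3 : ∀ j, u (N + 1) j ∈ I := fun j =>
        sub_mem (ih.1 j) (Ideal.pow_le_self (Nat.succ_ne_zero N) (ih.2 j))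
      refine ⟨h3, fun i => ?_⟩
      have h4 := h1 _ _ ih.1 h3 (I ^ (N + 1))
        (fun j => by rw [hu, sub_sub_cancel_left]; exact neg_mem (ih.2 j)) i
      rwa [hu, sub_sub_cancel_left, sub_neg_eq_add, sub_add_cancel, ← pow_succ'] at h4
  have h3 : ∀ j, ∃ L, ∀ N, u N j - L ∈ I ^ N := fun j => by
    obtain ⟨L, hL⟩ := IsPrecomplete.prec (I := I) (M := B) inferInstance (f := fun N => u N j)
      (fun {M N} hMN => by
        rw [SModEq.sub_mem, smul_eq_mul, Ideal.mul_top]
        induction N, hMN using Nat.le_induction with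
        | base => simp
        | succ N hMN ih =>
          rw [hu, ← sub_add]
          exact add_mem ih (Ideal.pow_le_pow_right (by omega) ((h2 N).2 j)))
    exact ⟨L, fun N => by simpa only [SModEq.sub_mem, smul_eq_mul, Ideal.mul_top] using hL N⟩
  choose w hw using h3
  have hwm : ∀ j, w j ∈ I := fun j => by
    have h := sub_mem ((h2 1).1 j) (pow_one I ▸ hw j 1)
    rwa [sub_sub_cancel] at h
  refine ⟨w, hwm, fun i => IsHausdorff.haus (I := I) (M := B) inferInstance _ fun N => ?_⟩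
  rw [SModEq.zero, smul_eq_mul, Ideal.mul_top]
  have h5 := Ideal.mul_le_right (h1 _ _ hwm (h2 N).1 _ (fun j => hw j N) i)
  have h6 := sub_mem (sub_mem (Ideal.pow_le_pow_right N.le_succ ((h2 N).2 i)) (hw i N)) h5
  refine HZ.newton_eq ?_ h6
  ring

theorem newtc_G {C : Type} [CommRing C] [Algebra B C] (F : MvPolynomial (Fin n) B) (x : Fin n → C)
    (c : C) : ∃ G ∈ (Ideal.span (Set.range MvPolynomial.X) : Ideal (MvPolynomial (Fin n) C)) ^ 2,
      ∀ z : Fin n → C, MvPolynomial.aeval (fun a => x a + c * z a) F = MvPolynomial.aeval x F +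
        c * ∑ a, MvPolynomial.aeval x (MvPolynomial.pderiv a F) * z a +
          c ^ 2 * MvPolynomial.eval z G := by
  have h1 := HZ.taylor₂ (algebraMap B (MvPolynomial (Fin n) C)) F (fun a => MvPolynomial.C (x a))
    fun a => MvPolynomial.C c * MvPolynomial.X a
  have h2 : Ideal.span (Set.range fun a : Fin n => MvPolynomial.C c * MvPolynomial.X a) ≤
      Ideal.span {MvPolynomial.C c} * Ideal.span (Set.range MvPolynomial.X) := by
    refine Ideal.span_le.2 ?_
    rintro _ ⟨a, rfl⟩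
    exact Ideal.mul_mem_mul (Ideal.mem_span_singleton_self _) (Ideal.subset_span ⟨a, rfl⟩)
  have h3 := Ideal.pow_right_mono h2 2 h1
  rw [mul_pow, Ideal.span_singleton_pow, Ideal.mem_span_singleton_mul] at h3
  obtain ⟨G, hG, e⟩ := h3
  refine ⟨G, hG, fun z => ?_⟩
  have e' := congrArg ((MvPolynomial.aeval z : _ →ₐ[C] C).restrictScalars B) e
  simp only [← MvPolynomial.aeval_def, map_sub, map_sum, map_mul, map_pow, map_add,
    MvPolynomial.comp_aeval_apply, AlgHom.restrictScalars_apply, MvPolynomial.aeval_C,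
    MvPolynomial.aeval_X, Algebra.algebraMap_self, RingHom.id_apply,
    MvPolynomial.aeval_eq_eval z] at e'
  rw [e', Finset.mul_sum]
  simp only [mul_left_comm c]
  ring

theorem newtc_ev {C : Type} [CommRing C] {p : MvPolynomial (Fin n) C} {z : Fin n → C} {J : Ideal C}
    (hp : p ∈ Ideal.span (Set.range MvPolynomial.X)) (hz : ∀ a, z a ∈ J) :
    MvPolynomial.eval z p ∈ J := by
  refine (Ideal.span_le.2 ?_ : _ ≤ J.comap (MvPolynomial.eval z)) hp
  rintro _ ⟨a, rfl⟩
  simpa using hz a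

theorem newtc_sq {C : Type} [CommRing C] {G : MvPolynomial (Fin n) C} {z z' : Fin n → C}
    {J K : Ideal C} (hG : G ∈ Ideal.span (Set.range MvPolynomial.X) ^ 2) (hz : ∀ a, z a ∈ J)
    (hz' : ∀ a, z' a ∈ J) (h : ∀ a, z' a - z a ∈ K) :
    MvPolynomial.eval z' G - MvPolynomial.eval z G ∈ J * K := by
  rw [sq] at hG
  refine Submodule.mul_induction_on hG (fun p hp q hq => ?_) fun p q hp hq => ?_
  · refine HZ.newton_eq ?_ (add_mem
      (Ideal.mul_mem_mul (newtc_ev hp hz') (HZ.eval₂_sub_mem (RingHom.id C) q h))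
      (Ideal.mul_mem_mul (newtc_ev hq hz) (HZ.eval₂_sub_mem (RingHom.id C) p h)))
    simp only [MvPolynomial.eval₂_id, map_mul]
    ring
  · refine HZ.newton_eq ?_ (add_mem hp hq)
    simp only [map_add]
    ring

theorem newtonC {C : Type} [CommRing C] [Algebra B C] (F : MvPolynomial (Fin n) B) (x : Fin n → C)
    {ι : Type} [Fintype ι] (y : ι → Fin n → C) (l : ι → C →ₗ[B] B) (c : B)
    (h0 : ∀ i, ∃ u ∈ I, l i (MvPolynomial.aeval x F) = c ^ 2 * u)
    (h1 : ∀ i j, ∃ u ∈ I, l i (∑ a, MvPolynomial.aeval x (MvPolynomial.pderiv a F) * y j a) =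
      c * ((if i = j then 1 else 0) + u)) :
    ∃ w : ι → B, (∀ j, w j ∈ I) ∧
      ∀ i, l i (MvPolynomial.aeval (fun a => x a + ∑ j, (c * w j) • y j a) F) = 0 := by
  choose u0 hu0 e0 using h0
  choose u1 hu1 e1 using h1
  obtain ⟨G, hG, eG⟩ := newtc_G F x (algebraMap B C c)
  have hY : ∀ (K : Ideal B) (d : ι → B), (∀ j, d j ∈ K) → ∀ a,
      ∑ j, d j • y j a ∈ K.map (algebraMap B C) := fun K d hd a =>
    Ideal.sum_mem _ fun j _ => by
      rw [Algebra.smul_def]
      exact Ideal.mul_mem_right _ _ (Ideal.mem_map_of_mem _ (hd j))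
  obtain ⟨w, hw, e⟩ := newton_absI I (fun w i => u0 i + w i + ∑ j, u1 i j * w j +
      l i (MvPolynomial.eval (fun a => ∑ j, w j • y j a) G))
    (fun i => add_mem (add_mem (add_mem (hu0 i) (zero_mem _))
      (Ideal.sum_mem _ fun j _ => Ideal.mul_mem_right _ _ (hu1 i j)))
      (HZ.newton_lin _ (newtc_ev (Ideal.pow_le_self two_ne_zero hG) (hY I 0 fun _ => zero_mem _))))
    (fun w w' hw hw' K hK i => by
      have a1 := newtc_sq hG (hY I w hw) (hY I w' hw') (K := K.map (algebraMap B C)) fun a => by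
        simpa only [sub_smul, Finset.sum_sub_distrib] using hY K _ hK a
      rw [← Ideal.map_mul] at a1
      refine HZ.newton_eq ?_ (add_mem (HZ.newton_lin (l i) a1)
        (Ideal.sum_mem _ (t := Finset.univ) fun j _ => Ideal.mul_mem_mul (hu1 i j) (hK j)))
      simp only [map_sub, mul_sub, Finset.sum_sub_distrib]
      ring)
  refine ⟨w, hw, fun i => ?_⟩
  have a1 : (fun a => x a + ∑ j, (c * w j) • y j a) =
      fun a => x a + algebraMap B C c * ∑ j, w j • y j a := by
    funext a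
    simp only [← Algebra.smul_def, Finset.smul_sum, mul_smul]
  have a2 : ∑ a, MvPolynomial.aeval x (MvPolynomial.pderiv a F) * ∑ j, w j • y j a =
      ∑ j, w j • ∑ a, MvPolynomial.aeval x (MvPolynomial.pderiv a F) * y j a := by
    simp only [Finset.mul_sum, Finset.smul_sum, mul_smul_comm]
    exact Finset.sum_comm
  have a3 : ∑ j, w j * (c * ((if i = j then 1 else 0) + u1 i j)) =
      c * (w i + ∑ j, u1 i j * w j) := by
    simp only [mul_add, add_mul, Finset.sum_add_distrib, mul_ite, ite_mul, mul_one, mul_zero,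
      zero_mul, Finset.sum_ite_eq, Finset.mem_univ, if_true, Finset.mul_sum, mul_comm (w _),
      mul_assoc]
  rw [a1, eG, a2, ← map_pow, ← Algebra.smul_def, ← Algebra.smul_def, map_add, map_add, map_smul,
    map_smul, map_sum, e0]
  simp only [map_smul, e1, smul_eq_mul, a3]
  linear_combination c ^ 2 * e i

theorem hensel_pt (g : MvPolynomial (Fin n) B) (x : Fin n → B) (i : Fin n)
    (h0 : MvPolynomial.eval x g ∈ I) (h1 : IsUnit (MvPolynomial.eval x (MvPolynomial.pderiv i g))) :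
    ∃ x' : Fin n → B, MvPolynomial.eval x' g = 0 ∧ ∀ a, x' a - x a ∈ I := by
  obtain ⟨v, hv⟩ := h1.exists_right_inv
  obtain ⟨w, hw, e⟩ := newtonC I g x (ι := Unit) (fun _ => Pi.single i v) (fun _ => LinearMap.id) 1
    (fun _ => ⟨_, h0, by simp⟩) fun _ _ => ⟨0, zero_mem _, by simp [Pi.single_apply, hv]⟩
  refine ⟨_, e (), fun a => ?_⟩
  rw [add_sub_cancel_left]
  exact Ideal.sum_mem _ fun j _ => Ideal.mul_mem_right _ _ (Ideal.mul_mem_left _ _ (hw j))

theorem newtc_lin {C C' : Type} [CommRing C] [Algebra B C] [CommRing C'] [Algebra B C']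
    (l : C →ₗ[B] C') {K : Ideal B} {z : C} (hz : z ∈ K.map (algebraMap B C)) :
    l z ∈ K.map (algebraMap B C') := by
  have h : z ∈ K • (⊤ : Submodule B C) := by rw [Ideal.smul_top_eq_map]; exact hz
  refine Submodule.smul_induction_on h (fun r hr c _ => ?_) fun a b ha hb => ?_
  · rw [map_smul, Algebra.smul_def]
    exact Ideal.mul_mem_right _ _ (Ideal.mem_map_of_mem _ hr)
  · rw [map_add]
    exact add_mem ha hb

theorem newtc_l (i : ℕ) : ∃ l : B[X] →ₗ[B] B, ∀ h : B[X],
    l (Polynomial.X * (Polynomial.X - 1) * h) = h.coeff i := by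
  refine ⟨-∑ k ∈ Finset.range (i + 1), Polynomial.lcoeff B (k + 1), fun h => ?_⟩
  have e : ∀ k, (Polynomial.X * (Polynomial.X - 1) * h).coeff (k + 1) =
      (Polynomial.X * h).coeff k - (Polynomial.X * h).coeff (k + 1) := fun k => by
    rw [mul_assoc, Polynomial.coeff_X_mul, Polynomial.coeff_X_mul, sub_mul, one_mul,
      Polynomial.coeff_sub]
  simp only [LinearMap.neg_apply, LinearMap.sum_apply, Polynomial.lcoeff_apply, e]
  refine (congrArg Neg.neg (Finset.sum_range_sub' (Polynomial.X * h).coeff (i + 1))).trans ?_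
  simp

theorem newtc_eval (g : MvPolynomial (Fin n) B) (γ : Fin n → B[X]) (t : B) :
    (MvPolynomial.aeval γ g).eval t = MvPolynomial.eval (fun a => (γ a).eval t) g :=
  MvPolynomial.comp_aeval_apply γ (Polynomial.aeval t) g

/-- a very free curve deforms with the equation and with its two end points -/
theorem VC.lift {g g0 : MvPolynomial (Fin n) B} (hg : g.IsHomogeneous d) {P Q P0 Q0 : Fin n → B}
    {c : B} (h : VC g0 d P0 Q0 c) (h1 : ∀ μ, g.coeff μ - g0.coeff μ ∈ Ideal.span {c ^ 2} * I)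
    (h2 : ∀ a, P a - P0 a ∈ Ideal.span {c ^ 2} * I) (h3 : ∀ a, Q a - Q0 a ∈ Ideal.span {c ^ 2} * I)
    (hP : MvPolynomial.eval P g = 0) (hQ : MvPolynomial.eval Q g = 0) : Jn g P Q := by
  obtain ⟨E, γ, hE, hγ, hz, e0, e1, hS⟩ := h
  choose y hy ey using fun j : Fin (d * E - 1) => hS j (by omega)
  choose l hl using newtc_l (B := B)
  obtain ⟨γ1, hγ1⟩ : ∃ γ1 : Fin n → B[X], ∀ a, γ1 a = γ a + ((1 - Polynomial.X) *
    Polynomial.C (P a - P0 a) + Polynomial.X * Polynomial.C (Q a - Q0 a)) := ⟨_, fun _ => rfl⟩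
  have k1 : ∀ a, γ1 a - γ a ∈ (Ideal.span {c ^ 2} * I).map (algebraMap B B[X]) := fun a => by
    rw [hγ1, add_sub_cancel_left]
    exact add_mem (Ideal.mul_mem_left _ _ (Ideal.mem_map_of_mem _ (h2 a)))
      (Ideal.mul_mem_left _ _ (Ideal.mem_map_of_mem _ (h3 a)))
  have k2 : ∀ D : MvPolynomial (Fin n) B →ₗ[B] MvPolynomial (Fin n) B,
      MvPolynomial.aeval γ1 (D g) - MvPolynomial.aeval γ (D g0) ∈
        (Ideal.span {c ^ 2} * I).map (algebraMap B B[X]) := fun D => by
    refine HZ.newton_eq ?_ (add_mem (HZ.eval₂_sub_mem (algebraMap B B[X]) (D g) k1)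
      (newtc_lin ((MvPolynomial.aeval γ).toLinearMap ∘ₗ D) (z := g - g0)
        (MvPolynomial.mem_map_C_iff.2 fun μ => by rw [MvPolynomial.coeff_sub]; exact h1 μ)))
    simp only [← MvPolynomial.aeval_def, map_sub, LinearMap.comp_apply, AlgHom.toLinearMap_apply]
    ring
  obtain ⟨w, -, e⟩ := newtonC I g γ1 (fun j a => Polynomial.X * (Polynomial.X - 1) * y j a)
    (fun i : Fin (d * E - 1) => l i) c (fun i => by
      have a1 := k2 LinearMap.id
      rw [LinearMap.id_apply, LinearMap.id_apply, hz, sub_zero] at a1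
      obtain ⟨u, hu, e⟩ := Ideal.mem_span_singleton_mul.1 (HZ.newton_lin (l i) a1)
      exact ⟨u, hu, e.symm⟩) fun i j => by
      obtain ⟨u, hu, e⟩ := Ideal.mem_span_singleton_mul.1 (HZ.newton_lin (l i)
        (Ideal.sum_mem _ (t := Finset.univ) fun a _ => Ideal.mul_mem_right
          (Polynomial.X * (Polynomial.X - 1) * y j a) _ (k2 (MvPolynomial.pderiv a).toLinearMap)))
      refine ⟨c * u, Ideal.mul_mem_left _ _ hu, ?_⟩
      have a1 := hl i (Dg g0 γ (y j))
      rw [ey, Polynomial.coeff_C_mul, Polynomial.coeff_X_pow, ← ey, Dg, Finset.mul_sum] at a1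
      simp only [sub_mul _ (MvPolynomial.aeval γ _), Finset.sum_sub_distrib, map_sub,
        Derivation.coeFn_coe, mul_left_comm (MvPolynomial.aeval γ _), Fin.val_inj] at a1 e
      simp only [mul_assoc] at a1 e ⊢
      split_ifs at a1 ⊢ <;> linear_combination a1 - e
  obtain ⟨γ2, hγ2⟩ : ∃ γ2 : Fin n → B[X], γ2 = fun a => γ1 a +
    ∑ j, (c * w j) • (Polynomial.X * (Polynomial.X - 1) * y j a) := ⟨_, rfl⟩
  rw [← hγ2] at e
  have v0 : ∀ a, (γ2 a).eval 0 = P a := fun a => by
    simp [hγ2, hγ1, e0, Polynomial.eval_finsetSum]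
  have v1 : ∀ a, (γ2 a).eval 1 = Q a := fun a => by
    simp [hγ2, hγ1, e1, Polynomial.eval_finsetSum]
  refine ⟨γ2, ?_, v0, v1⟩
  have hX : (Polynomial.X - 1 : B[X]).natDegree ≤ 1 := Polynomial.natDegree_X_sub_C_le 1
  have hd : ∀ a, (γ2 a).natDegree ≤ E := fun a => by
    rw [hγ2]
    refine Polynomial.natDegree_add_le_of_degree_le ?_
      (Polynomial.natDegree_sum_le_of_forall_le _ _ fun j _ =>
        (Polynomial.natDegree_smul_le _ _).trans (Polynomial.natDegree_mul_le.trans ?_))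
    · rw [hγ1]
      refine Polynomial.natDegree_add_le_of_degree_le (hγ a) (le_trans ?_ (by omega : 1 ≤ E))
      compute_degree
    · have a1 := hy j a
      have a2 := Polynomial.natDegree_mul_le.trans
        (add_le_add (Polynomial.natDegree_X_le (R := B)) hX)
      omega
  obtain ⟨u1, a1⟩ : Polynomial.X ∣ MvPolynomial.aeval γ2 g := by
    rw [Polynomial.X_dvd_iff, Polynomial.coeff_zero_eq_eval_zero, newtc_eval, funext v0, hP]
  obtain ⟨u, a2⟩ : Polynomial.X - Polynomial.C 1 ∣ u1 := by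
    have := newtc_eval g γ2 1
    rw [a1, funext v1, hQ] at this
    exact Polynomial.dvd_iff_isRoot.2 (by simpa using this)
  rw [a2, ← mul_assoc, Polynomial.C_1] at a1
  by_cases hu : u = 0
  · rw [a1, hu, mul_zero]
  have : Nontrivial B := Polynomial.Nontrivial.of_polynomial_ne hu
  have a3 := (aeval_top hg hd).1
  have hm : (Polynomial.X - 1 : B[X]).Monic := Polynomial.monic_X_sub_C 1
  have a4 : (Polynomial.X - 1 : B[X]).natDegree = 1 := Polynomial.natDegree_X_sub_C 1
  rw [a1, (Polynomial.monic_X.mul hm).natDegree_mul' hu, Polynomial.monic_X.natDegree_mul hm,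
    Polynomial.natDegree_X, a4] at a3
  have a5 := e ⟨u.natDegree, by omega⟩
  rw [a1, hl] at a5
  exact absurd (Polynomial.leadingCoeff_eq_zero.1 a5) hu

end Pool.Agent.CE
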