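import Pool.Agent.Lib.MP_72c364_ag.CombA
import Pool.Agent.Lib.MP_72c364_ag.NewtC

/-! Smoothing of a comb over a complete ring. -/

namespace Pool.Agent.CE

open scoped Classical Polynomial

section Aux

variable {B : Type} [CommRing B] {φ : B[X]} {n : ℕ}

theorem combb_deg {g : MvPolynomial (Fin n) B} {d e : ℕ} (hg : g.IsHomogeneous d)
    {x : Fin n → B[X][X]} (hx : ∀ a, (x a).natDegree ≤ e) :
    (MvPolynomial.aeval x g).natDegree ≤ d * e := by
  rw [← MvPolynomial.aeval_map_algebraMap B[X]]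
  exact (aeval_top (hg.map _) hx).1

theorem combb_lin {g : MvPolynomial (Fin n) B} {d e : ℕ} (hg : g.IsHomogeneous (d + 1))
    {x y : Fin n → B[X][X]} (hx : ∀ a, (x a).natDegree ≤ e) (hy : ∀ a, (y a).natDegree ≤ e) :
    (∑ a, MvPolynomial.aeval x (MvPolynomial.pderiv a g) * y a).natDegree ≤ (d + 1) * e :=
  Polynomial.natDegree_sum_le_of_forall_le _ _ fun a _ => Polynomial.natDegree_mul_le.trans
    ((add_le_add (combb_deg (d := d) hg.pderiv hx) (hy a)).trans_eq (Nat.succ_mul d e).symm)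

theorem combb_hm_lin {g : MvPolynomial (Fin n) B} {d e : ℕ} (hg : g.IsHomogeneous (d + 1)) (ε : B)
    {x y : Fin n → B[X][X]} (hx : ∀ a, (x a).natDegree ≤ e) (hy : ∀ a, (y a).natDegree ≤ e) :
    hm φ ε ((d + 1) * e) (∑ a, MvPolynomial.aeval x (MvPolynomial.pderiv a g) * y a) =
      Dg g (fun a => hm φ ε e (x a)) fun a => hm φ ε e (y a) := by
  rw [hm_sum, Dg]
  refine Finset.sum_congr rfl fun a _ => ?_
  rw [Nat.succ_mul, hm_mul (combb_deg (d := d) hg.pderiv hx) (hy a),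
    hm_aeval (d := d) hg.pderiv hx]

theorem combb_dg_deg {g : MvPolynomial (Fin n) B} {d E : ℕ} (hg : g.IsHomogeneous (d + 1))
    (hE : 2 ≤ E) {γ y : Fin n → B[X]} (hγ : ∀ a, (γ a).natDegree ≤ E)
    (hy : ∀ a, (y a).natDegree + 2 ≤ E) : (Dg g γ y).natDegree + 2 ≤ (d + 1) * E := by
  have h1 : (Dg g γ y).natDegree ≤ d * E + (E - 2) :=
    Polynomial.natDegree_sum_le_of_forall_le _ _ fun a _ => Polynomial.natDegree_mul_le.trans
      (add_le_add (aeval_top (d := d) hg.pderiv hγ).1 (Nat.le_sub_of_add_le (hy a)))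
  rw [Nat.succ_mul]
  omega

theorem combb_rd {ι : Type} [Fintype ι] {x : B[X][X]} {y : ι → B[X][X]}
    (hx : Rd φ x) (hy : ∀ j, Rd φ (y j)) (w : ι → B) : Rd φ (x + ∑ j, w j • y j) := by
  intro k
  have h0 := hx k
  have h1 : ((∑ j, w j • y j).coeff (k + 1)).natDegree ≤ φ.natDegree - 1 := by
    rw [Polynomial.finsetSum_coeff]
    refine Polynomial.natDegree_sum_le_of_forall_le _ _ fun j _ => ?_
    rw [Polynomial.coeff_smul]
    exact (Polynomial.natDegree_smul_le _ _).trans (Nat.le_sub_one_of_lt (hy j k))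
  rw [Polynomial.coeff_add]
  exact (Polynomial.natDegree_add_le _ _).trans_lt (max_lt h0 (by omega))

/-- a reduced polynomial without constant term is a sum of monomials -/
theorem combb_expand {D : ℕ} {v : B[X][X]} (h1 : Rd φ v) (h2 : v.natDegree ≤ D)
    (h3 : v.coeff 0 = 0) : v = ∑ q : Fin φ.natDegree × Fin D,
      (v.coeff (q.2 + 1)).coeff q.1 • Polynomial.monomial (q.2 + 1) (Polynomial.X ^ (q.1 : ℕ)) := by
  conv_lhs => rw [v.as_sum_range' (D + 1) (Nat.lt_succ_of_le h2), Finset.sum_range_succ', h3,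
    map_zero, add_zero, Finset.sum_range]
  rw [Fintype.sum_prod_type_right]
  refine Finset.sum_congr rfl fun k _ => ?_
  conv_lhs => rw [(v.coeff (k + 1)).as_sum_range' _ (h1 k), Finset.sum_range, map_sum]
  refine Finset.sum_congr rfl fun i _ => ?_
  rw [Polynomial.smul_monomial, Polynomial.smul_X_eq_monomial]

theorem combb_sub {C : Type} [CommRing C] [Algebra B C] (K : Ideal B) {x x' : Fin n → C}
    (h : ∀ a, x' a - x a ∈ K.map (algebraMap B C)) (g : MvPolynomial (Fin n) B) :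
    MvPolynomial.aeval x' g - MvPolynomial.aeval x g ∈ K.map (algebraMap B C) := by
  rw [← Ideal.Quotient.eq, ← Ideal.Quotient.mkₐ_eq_mk B, MvPolynomial.comp_aeval_apply,
    MvPolynomial.comp_aeval_apply]
  congr 2
  exact funext fun a => Ideal.Quotient.eq.2 (h a)

theorem combb_map {C : Type} [CommRing C] [Algebra B C] (K : Ideal B) (l : C →ₗ[B] B) {u : C}
    (h : u ∈ K.map (algebraMap B C)) : l u ∈ K := by
  have h1 : u ∈ K • (⊤ : Submodule B C) := by
    rw [Ideal.smul_top_eq_map]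
    exact h
  refine Submodule.smul_induction_on h1 (fun r hr v _ => ?_) fun u v hu hv => ?_
  · rw [map_smul, smul_eq_mul]
    exact K.mul_mem_right _ hr
  · rw [map_add]
    exact K.add_mem hu hv

theorem combb_mod (hφ : φ.Monic) {c : B} {i k k' : ℕ} (hi : i < φ.natDegree) {u : B[X][X]}
    (h : φ ∣ (u - Polynomial.monomial (k + 1) (Polynomial.C c * Polynomial.X ^ i)).coeff (k' + 1))
    (i' : ℕ) : (u.coeff (k' + 1) %ₘ φ).coeff i' = c * if (i', k') = (i, k) then 1 else 0 := by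
  nontriviality B
  rw [Polynomial.coeff_sub] at h
  rw [Polynomial.modByMonic_eq_of_dvd_sub hφ h, Polynomial.coeff_monomial]
  by_cases hk : k = k'
  · rw [if_pos (by rw [hk]), (Polynomial.modByMonic_eq_self_iff hφ).2
      ((Polynomial.degree_C_mul_X_pow_le i c).trans_lt
        (by rw [Polynomial.degree_eq_natDegree hφ.ne_zero]; exact_mod_cast hi)),
      Polynomial.coeff_C_mul, Polynomial.coeff_X_pow]
    simp [hk]
  · rw [if_neg (by omega), Polynomial.zero_modByMonic, Polynomial.coeff_zero,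
      if_neg fun e => hk (Prod.ext_iff.1 e).2.symm, mul_zero]

/-- the image of the linearised equation -/
def combb_T (f : MvPolynomial (Fin n) B) (γ : Fin n → B[X]) {E : ℕ} (hE : 2 ≤ E) :
    Submodule B B[X] where
  carrier := {p | ∃ y : Fin n → B[X], (∀ a, (y a).natDegree + 2 ≤ E) ∧ Dg f γ y = p}
  zero_mem' := ⟨0, fun _ => by simpa using hE, by simp [Dg]⟩
  add_mem' := by
    rintro _ _ ⟨y, h1, rfl⟩ ⟨y', h2, rfl⟩
    refine ⟨y + y', fun a => ?_, by simp [Dg, mul_add, Finset.sum_add_distrib]⟩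
    have h3 := Polynomial.natDegree_add_le (y a) (y' a)
    have h4 := h1 a
    have h5 := h2 a
    rw [Pi.add_apply]
    omega
  smul_mem' := by
    rintro c _ ⟨y, h1, rfl⟩
    exact ⟨c • y, fun a => le_trans (Nat.add_le_add_right (Polynomial.natDegree_smul_le _ _) 2)
      (h1 a), by simp [Dg, Finset.smul_sum]⟩

theorem combb_nak {M ι : Type} [AddCommGroup M] [Module B M] [Fintype ι] {I : Ideal B}
    (hI : I ≤ Ideal.jacobson ⊥) (T : Submodule B M) (g : ι → M)
    (h : ∀ q, ∃ U : ι → B, (∀ q', U q' ∈ I) ∧ g q + ∑ q', U q' • g q' ∈ T) (q : ι) : g q ∈ T := by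
  refine Submodule.le_of_le_smul_of_le_jacobson_bot (N' := Submodule.span B (Set.range g))
    (Submodule.fg_span (Set.finite_range g)) hI (Submodule.span_le.2 ?_)
    (Submodule.subset_span ⟨q, rfl⟩)
  rintro _ ⟨q, rfl⟩
  obtain ⟨U, h1, h2⟩ := h q
  rw [← add_sub_cancel_right (g q) (∑ q', U q' • g q')]
  exact sub_mem (Submodule.mem_sup_left h2) (Submodule.mem_sup_right (sum_mem fun q' _ =>
    Submodule.smul_mem_smul (h1 q') (Submodule.subset_span ⟨q', rfl⟩)))

end Aux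

theorem comb_ring {B : Type} [CommRing B] [IsDomain B] (I : Ideal B) [IsAdicComplete I B]
    {n d e : ℕ} {φ : B[X]} (hφ : φ.Monic) (hm0 : 0 < φ.natDegree) {f : MvPolynomial (Fin n) B}
    (hf : f.IsHomogeneous d) (hd : 1 ≤ d) (he : 2 ≤ e) {c η : B} (hc : c ≠ 0) (hη : η ∈ I)
    (hη0 : η ≠ 0) {P : Fin n → B} (hP : MvPolynomial.eval P f = 0) {x : Fin n → B[X][X]}
    (x1 : ∀ a, (x a).natDegree ≤ e) (x2 : ∀ a, (x a).coeff 0 = Polynomial.C (P a))
    (x3 : ∀ a, Rd φ (x a)) (x4 : ∀ k, φ ∣ (MvPolynomial.aeval x f).coeff (k + 1))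
    (hy : ∀ i k, i < φ.natDegree → k < d * e → ∃ y : Fin n → B[X][X],
      (∀ a, (y a).natDegree ≤ e) ∧ (∀ a, (y a).coeff 0 = 0) ∧ (∀ a, Rd φ (y a)) ∧
      ((i + 1 < φ.natDegree ∨ 1 ≤ k) → ∀ a i', φ.natDegree ≤ i' + 1 → ((y a).coeff 1).coeff i' = 0) ∧
      ∀ k', φ ∣ (∑ a, MvPolynomial.aeval x (MvPolynomial.pderiv a f) * y a -
        Polynomial.monomial (k + 1) (Polynomial.C c * Polynomial.X ^ i)).coeff (k' + 1)) :
    ∃ γ : Fin n → B[X], (∀ a, (γ a).natDegree ≤ φ.natDegree * e) ∧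
      (∀ a, (γ a).coeff (φ.natDegree * e) = P a) ∧ MvPolynomial.aeval γ f = 0 ∧
      ∃ c', c' ≠ 0 ∧ Sur f d (φ.natDegree * e) γ c' := by
  obtain ⟨d, rfl⟩ : ∃ d', d = d' + 1 := ⟨d - 1, by omega⟩
  obtain ⟨ε, hε⟩ : ∃ ε, ε = c ^ 2 * η := ⟨_, rfl⟩
  have hε0 : ε ≠ 0 := hε ▸ mul_ne_zero (pow_ne_zero 2 hc) hη0
  obtain ⟨nf, n1, n2, n3⟩ := exists_nf hφ hm0 ε ((d + 1) * e)
  choose y y1 y2 y3 y4 y5 using fun q : Fin φ.natDegree × Fin ((d + 1) * e) =>
    hy q.1 q.2 q.1.2 q.2.2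
  obtain ⟨l, hl⟩ : ∃ l : Fin φ.natDegree × Fin ((d + 1) * e) → B[X][X] →ₗ[B] B,
      ∀ q u, l q u = ((nf u).coeff (q.2 + 1)).coeff q.1 :=
    ⟨fun q => Polynomial.lcoeff B q.1 ∘ₗ (Polynomial.lcoeff B[X] (q.2 + 1)).restrictScalars B ∘ₗ nf,
      fun _ _ => rfl⟩
  have h1 : ∀ q' q, ∃ u ∈ I,
      l q' (∑ a, MvPolynomial.aeval x (MvPolynomial.pderiv a f) * y q a) =
        c * ((if q' = q then 1 else 0) + u) := fun q' q => by
    obtain ⟨r, hr⟩ := Ideal.mem_span_singleton'.1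
      (n3 (∑ a, MvPolynomial.aeval x (MvPolynomial.pderiv a f) * y q a) q'.2 q'.1)
    rw [combb_mod hφ q.1.2 (y5 q q'.2), ← hl, hε] at hr
    refine ⟨r * c * η, I.mul_mem_left _ hη, ?_⟩
    have e : (((q'.1 : ℕ), (q'.2 : ℕ)) = ((q.1 : ℕ), (q.2 : ℕ))) ↔ q' = q := by
      simp [Prod.ext_iff, Fin.ext_iff]
    rw [if_congr e rfl rfl] at hr
    linear_combination -hr
  obtain ⟨w, w1, w2⟩ := newtonC I f x y l c (fun q => by
    obtain ⟨r, hr⟩ := Ideal.mem_span_singleton'.1 (n3 (MvPolynomial.aeval x f) q.2 q.1)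
    rw [(Polynomial.modByMonic_eq_zero_iff_dvd hφ).2 (x4 q.2), Polynomial.coeff_zero, sub_zero,
      ← hl, hε] at hr
    exact ⟨r * η, I.mul_mem_left _ hη, by linear_combination -hr⟩) fun q' q => by
      obtain ⟨u, u1, u2⟩ := h1 q' q
      refine ⟨u, u1, u2.trans ?_⟩
      by_cases h : q' = q
      · rw [if_pos h, if_pos h]
      · rw [if_neg h, if_neg h]
  obtain ⟨x', hx'⟩ : ∃ x' : Fin n → B[X][X], x' = fun a => x a + ∑ j, (c * w j) • y j a :=
    ⟨_, rfl⟩
  rw [← hx'] at w2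
  have z1 : ∀ a, (x' a).natDegree ≤ e := fun a => by
    rw [hx']
    exact (Polynomial.natDegree_add_le _ _).trans (max_le (x1 a)
      (Polynomial.natDegree_sum_le_of_forall_le _ _ fun j _ =>
        (Polynomial.natDegree_smul_le _ _).trans (y1 j a)))
  have z2 : ∀ a, (x' a).coeff 0 = Polynomial.C (P a) := fun a => by
    rw [hx']
    simp [x2, y2]
  have z3 : ∀ a, Rd φ (x' a) := fun a => by
    rw [hx']
    exact combb_rd (x3 a) (fun j => y3 j a) _
  have z4 : ∀ a, x' a - x a ∈ (Ideal.span {c} * I).map (algebraMap B B[X][X]) := fun a => by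
    rw [hx', add_sub_cancel_left]
    refine sum_mem fun j _ => ?_
    rw [Algebra.smul_def]
    exact Ideal.mul_mem_right _ _ (Ideal.mem_map_of_mem _
      (Ideal.mul_mem_mul (Ideal.mem_span_singleton_self c) (w1 j)))
  have g1 := fun a => (hm_top (ε := ε) (D := e) hφ (z3 a) (z2 a)).1
  have g2 := fun a => (hm_top (ε := ε) (D := e) hφ (z3 a) (z2 a)).2
  have hE : 2 ≤ φ.natDegree * e := he.trans (Nat.le_mul_of_pos_left e hm0)
  have hD : 1 ≤ (d + 1) * e := Nat.mul_pos (Nat.succ_pos d) (by omega)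
  have hmm : φ.natDegree * ((d + 1) * e) = (d + 1) * (φ.natDegree * e) := by ring
  refine ⟨fun a => hm φ ε e (x' a), g1, g2, ?_, c * ε ^ ((d + 1) * e),
    mul_ne_zero hc (pow_ne_zero _ hε0), fun j hj => ?_⟩
  · obtain ⟨k1, k2⟩ := n2 _ (combb_deg hf z1)
    rw [hm_aeval hf z1] at k2
    obtain ⟨t1, t2⟩ := aeval_top hf g1
    have k3 : (nf (MvPolynomial.aeval x' f)).coeff 0 = 0 :=
      eq_zero_of_hm (ε := ε) (D := (d + 1) * e) hφ (n1 _) fun i hi => by
        rw [k2]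
        rw [hmm] at hi
        rcases hi.eq_or_lt with rfl | hi
        · rw [t2, funext g2, hP]
        · exact Polynomial.coeff_eq_zero_of_natDegree_lt (t1.trans_lt hi)
    rw [← k2, combb_expand (n1 _) k1 k3, hm_sum]
    refine Finset.sum_eq_zero fun q _ => ?_
    rw [hm_smul, ← hl, w2, zero_smul]
  · obtain ⟨G, hG⟩ : ∃ G : Fin φ.natDegree × Fin ((d + 1) * e) → B[X], ∀ q, G q =
        if (q.1 : ℕ) + 1 < φ.natDegree ∨ 1 ≤ (q.2 : ℕ) then c • (Polynomial.X ^ (q.1 : ℕ) *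
          Polynomial.C ε ^ ((q.2 : ℕ) + 1) * φ ^ ((d + 1) * e - (q.2 + 1))) else 0 :=
      ⟨_, fun _ => rfl⟩
    have key : ∀ q, G q ∈ combb_T f (fun a => hm φ ε e (x' a)) hE := by
      refine combb_nak (IsAdicComplete.le_jacobson_bot I) _ G fun q => ?_
      by_cases hq : (q.1 : ℕ) + 1 < φ.natDegree ∨ 1 ≤ (q.2 : ℕ)
      swap
      · exact ⟨0, fun _ => I.zero_mem, by simp [hG q, if_neg hq]⟩
      have m1 : ∀ q', ∃ u ∈ I,
          l q' (∑ a, MvPolynomial.aeval x' (MvPolynomial.pderiv a f) * y q a) =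
            c * ((if q' = q then 1 else 0) + u) := fun q' => by
        obtain ⟨u, u1, u2⟩ := h1 q' q
        obtain ⟨v, v1, v2⟩ := Ideal.mem_span_singleton_mul.1 (combb_map _ (l q')
          (sum_mem fun a (_ : a ∈ Finset.univ) => Ideal.mul_mem_right (y q a) _
            (combb_sub _ z4 (MvPolynomial.pderiv a f))))
        simp only [sub_mul, Finset.sum_sub_distrib, map_sub] at v2
        exact ⟨u + v, I.add_mem u1 v1, by linear_combination u2 - v2⟩
      choose U U1 U2 using m1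
      have Y1 := fun a => hm_two (ε := ε) he (y3 q a) (y2 q a) (y4 q hq a)
      obtain ⟨k1, k2⟩ := n2 _ (combb_lin hf z1 (y1 q))
      rw [combb_hm_lin hf ε z1 (y1 q)] at k2
      obtain ⟨k3, k4⟩ := eq_zero_of_hm_two hφ hε0 hD (n1 _)
        (by rw [k2, hmm]; exact combb_dg_deg hf hE g1 Y1)
      refine ⟨U, U1, _, Y1, ?_⟩
      have e : G q = ∑ q', (if q' = q then (1 : B) else 0) • G q' := by simp
      rw [← k2, combb_expand (n1 _) k1 k3, hm_sum, e, ← Finset.sum_add_distrib]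
      refine Finset.sum_congr rfl fun q' _ => ?_
      rw [hm_smul, hm_monomial (Nat.succ_le_of_lt q'.2.2), ← add_smul, hG q']
      split_ifs with h2 h3 h3
      · rw [← hl, U2, if_pos h2, smul_smul, mul_comm c]
      · exact absurd (h2 ▸ hq) h3
      · rw [← hl, U2, if_neg h2, smul_smul, mul_comm c]
      · have h4 : (q'.2 : ℕ) = 0 := by omega
        rw [h4, zero_add, k4 _ (by omega), zero_smul, smul_zero]
    refine mem_of_expansion hφ hm0 (combb_T f (fun a => hm φ ε e (x' a)) hE)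
      (A := φ.natDegree * ((d + 1) * e) - 1) (fun i r hi hr => ?_) (by rw [hmm]; omega)
    have hr1 : r < (d + 1) * e := Nat.lt_of_mul_lt_mul_left (a := φ.natDegree) (by omega)
    obtain ⟨k, hk⟩ : ∃ k, (d + 1) * e = k + 1 + r := ⟨(d + 1) * e - 1 - r, by omega⟩
    have h2 := Submodule.smul_mem _ (ε ^ r) (key (⟨i, hi⟩, ⟨k, by omega⟩))
    rw [hG, if_pos (by
      rw [hk, mul_add, mul_add, mul_one] at hr
      rcases Nat.eq_zero_or_pos k with rfl | h0
      · exact Or.inl (by simp only [mul_zero] at hr ⊢; omega)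
      · exact Or.inr h0)] at h2
    have e : (d + 1) * e - (k + 1) = r := by omega
    simp only [e] at h2
    convert h2 using 1
    rw [hk, smul_smul, Polynomial.smul_eq_C_mul]
    simp only [map_mul, map_pow]
    ring

end Pool.Agent.CE
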