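import Pool.Agent.Lib.MP_72c364_ag.IDefs
import Pool.Agent.Lib.MP_751085_ag.P4
import Pool.Agent.Lib.MP_751085_ag.Vf2

/-! Elementary operations on very free curves. -/

namespace Pool.Agent.CE

open scoped Classical Polynomial

variable {B B' : Type} [CommRing B] [CommRing B'] {n d : ℕ} {f : MvPolynomial (Fin n) B}
  {P Q : Fin n → B} {c : B}

theorem vcb_map (φ : B →+* B') (γ : Fin n → B[X]) (g : MvPolynomial (Fin n) B) :
    MvPolynomial.aeval (fun a => (γ a).map φ) (MvPolynomial.map φ g) =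
      (MvPolynomial.aeval γ g).map φ := by
  induction g using MvPolynomial.induction_on with
  | C r => simp
  | add p q hp hq => rw [map_add, map_add, map_add, Polynomial.map_add, hp, hq]
  | mul_X p i hp => simp only [map_mul, hp, MvPolynomial.map_X, MvPolynomial.aeval_X,
      Polynomial.map_mul]

theorem vcb_eval (r : B) (γ : Fin n → B[X]) (g : MvPolynomial (Fin n) B) :
    (MvPolynomial.aeval γ g).eval r = MvPolynomial.eval (fun a => (γ a).eval r) g := by
  induction g using MvPolynomial.induction_on with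
  | C r => simp
  | add p q hp hq => rw [map_add, map_add, Polynomial.eval_add, hp, hq]
  | mul_X p i hp => simp only [map_mul, MvPolynomial.aeval_X, Polynomial.eval_mul, hp,
      MvPolynomial.eval_X]

theorem vcb_smul {g : MvPolynomial (Fin n) B} {k : ℕ} (hg : g.IsHomogeneous k) (t : B)
    (γ : Fin n → B[X]) : MvPolynomial.aeval (fun a => Polynomial.C t * γ a) g =
      Polynomial.C (t ^ k) * MvPolynomial.aeval γ g := by
  rw [MvPolynomial.aeval_def, MvPolynomial.aeval_def, MvPolynomial.eval₂_eq_eval_map,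
    MvPolynomial.eval₂_eq_eval_map, HZ.p4_smul (hg.map _), map_pow]

theorem vcb_C (s : B) (γ : Fin n → B[X]) (g : MvPolynomial (Fin n) B) :
    MvPolynomial.aeval γ (MvPolynomial.C s * g) = Polynomial.C s * MvPolynomial.aeval γ g := by
  rw [map_mul, MvPolynomial.aeval_C, Polynomial.algebraMap_apply]
  rfl

theorem vcb_dg_map (φ : B →+* B') (γ y : Fin n → B[X]) (g : MvPolynomial (Fin n) B) :
    Dg (MvPolynomial.map φ g) (fun a => (γ a).map φ) (fun a => (y a).map φ) =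
      (Dg g γ y).map φ := by
  unfold Dg
  rw [Polynomial.map_sum]
  refine Finset.sum_congr rfl fun a _ => ?_
  rw [MvPolynomial.pderiv_map, vcb_map, Polynomial.map_mul]

theorem vcb_dg_smul (hf : f.IsHomogeneous d) (t : B) (γ y : Fin n → B[X]) :
    Dg f (fun a => Polynomial.C t * γ a) y = Polynomial.C (t ^ (d - 1)) * Dg f γ y := by
  unfold Dg
  rw [Finset.mul_sum]
  refine Finset.sum_congr rfl fun a _ => ?_
  rw [vcb_smul hf.pderiv, mul_assoc]

theorem vcb_dg_C (s : B) (γ y : Fin n → B[X]) :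
    Dg (MvPolynomial.C s * f) γ y = Polynomial.C s * Dg f γ y := by
  unfold Dg
  rw [Finset.mul_sum]
  refine Finset.sum_congr rfl fun a _ => ?_
  rw [MvPolynomial.pderiv_C_mul, vcb_C, mul_assoc]

theorem vcb_dg_y (u : B) (γ y : Fin n → B[X]) :
    Dg f γ (fun a => Polynomial.C u * y a) = Polynomial.C u * Dg f γ y := by
  unfold Dg
  rw [Finset.mul_sum]
  refine Finset.sum_congr rfl fun a _ => ?_
  ring

theorem vcb_dg_eval (r : B) (γ y : Fin n → B[X]) : (Dg f γ y).eval r =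
    ∑ a, MvPolynomial.eval (fun b => (γ b).eval r) (MvPolynomial.pderiv a f) * (y a).eval r := by
  unfold Dg
  rw [Polynomial.eval_finsetSum]
  refine Finset.sum_congr rfl fun a _ => ?_
  rw [Polynomial.eval_mul, vcb_eval]

theorem vcb_rsum {ι : Type} (s : Finset ι) (N : ℕ) (p : ι → B[X]) :
    (∑ i ∈ s, p i).reflect N = ∑ i ∈ s, (p i).reflect N := by
  induction s using Finset.induction_on with
  | empty => simp
  | insert a s ha ih => rw [Finset.sum_insert ha, Finset.sum_insert ha, Polynomial.reflect_add, ih]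

theorem vcb_rpow {p : B[X]} {E : ℕ} (h : p.natDegree ≤ E) (m : ℕ) :
    (p ^ m).reflect (m * E) = p.reflect E ^ m := by
  induction m with
  | zero => simp
  | succ m ih =>
    rw [pow_succ, pow_succ, add_mul, one_mul,
      Polynomial.reflect_mul _ _ (Polynomial.natDegree_pow_le_of_le _ h) h, ih]

theorem vcb_reflect {g : MvPolynomial (Fin n) B} {k E : ℕ} (hg : g.IsHomogeneous k)
    {γ : Fin n → B[X]} (h : ∀ a, (γ a).natDegree ≤ E) :
    MvPolynomial.aeval (fun a => (γ a).reflect E) g = (MvPolynomial.aeval γ g).reflect (k * E) := by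
  have key : ∀ (s : Finset (Fin n)) (μ : Fin n → ℕ),
      (∏ a ∈ s, γ a ^ μ a).natDegree ≤ (∑ a ∈ s, μ a) * E ∧
      (∏ a ∈ s, γ a ^ μ a).reflect ((∑ a ∈ s, μ a) * E) = ∏ a ∈ s, (γ a).reflect E ^ μ a := by
    intro s μ
    induction s using Finset.induction_on with
    | empty => simp
    | insert a s ha ih =>
      rw [Finset.prod_insert ha, Finset.sum_insert ha, Finset.prod_insert ha, add_mul]
      have h1 : (γ a ^ μ a).natDegree ≤ μ a * E := Polynomial.natDegree_pow_le_of_le _ (h a)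
      refine ⟨Polynomial.natDegree_mul_le.trans (add_le_add h1 ih.1), ?_⟩
      rw [Polynomial.reflect_mul _ _ h1 ih.1, ih.2, vcb_rpow (h a)]
  have hd : ∀ μ ∈ g.support, ∑ a, μ a = k := fun μ hμ => by
    rw [← Finsupp.degree_eq_sum, Finsupp.degree_eq_weight_one]
    exact hg (MvPolynomial.mem_support_iff.1 hμ)
  rw [MvPolynomial.aeval_def, MvPolynomial.aeval_def, MvPolynomial.eval₂_eq',
    MvPolynomial.eval₂_eq', vcb_rsum]
  refine Finset.sum_congr rfl fun μ hμ => ?_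
  rw [Polynomial.algebraMap_apply, Polynomial.reflect_C_mul, ← hd μ hμ, (key _ _).2]

/-- descent along an injective map -/
theorem vcb_desc (φ : B →+* B') (hφ : Function.Injective φ) {g : MvPolynomial (Fin n) B} {E : ℕ}
    {γ : Fin n → B'[X]} (hE : 2 ≤ E) (h1 : ∀ a, (γ a).natDegree ≤ E)
    (h2 : MvPolynomial.aeval γ (MvPolynomial.map φ g) = 0) (h3 : ∀ a, γ a ∈ Polynomial.lifts φ)
    (h4 : ∀ j, j + 2 ≤ d * E → ∃ y : Fin n → B'[X], (∀ a, (y a).natDegree + 2 ≤ E) ∧
      (∀ a, y a ∈ Polynomial.lifts φ) ∧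
        Dg (MvPolynomial.map φ g) γ y = Polynomial.C (φ c) * Polynomial.X ^ j) :
    ∃ P' Q' : Fin n → B, (∀ a, φ (P' a) = (γ a).eval 0) ∧ (∀ a, φ (Q' a) = (γ a).eval 1) ∧
      VC g d P' Q' c := by
  choose γ0 hγ using fun a => (Polynomial.mem_lifts _).1 (h3 a)
  obtain rfl : γ = fun a => (γ0 a).map φ := funext fun a => (hγ a).symm
  refine ⟨fun a => (γ0 a).eval 0, fun a => (γ0 a).eval 1,
    fun a => (Polynomial.eval_zero_map _ _).symm, fun a => (Polynomial.eval_one_map _ _).symm,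
    E, γ0, hE, fun a => ?_, ?_, fun _ => rfl, fun _ => rfl, fun j hj => ?_⟩
  · exact (Polynomial.natDegree_map_eq_of_injective hφ _).symm.le.trans (h1 a)
  · rw [vcb_map] at h2
    exact Polynomial.map_injective φ hφ (by rw [h2, Polynomial.map_zero])
  · obtain ⟨y, a1, a2, a3⟩ := h4 j hj
    choose y0 hy using fun a => (Polynomial.mem_lifts _).1 (a2 a)
    obtain rfl : y = fun a => (y0 a).map φ := funext fun a => (hy a).symm
    refine ⟨y0, fun a => ?_, Polynomial.map_injective φ hφ ?_⟩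
    · have := a1 a
      rwa [Polynomial.natDegree_map_eq_of_injective hφ] at this
    · rw [← vcb_dg_map, a3, Polynomial.map_mul, Polynomial.map_C, Polynomial.map_pow,
        Polynomial.map_X]

/-- all coefficients of a curve and of the chosen directions -/
theorem vcb_coeffs (γ : Fin n → B[X]) (y : ℕ → Fin n → B[X]) (m : ℕ) :
    ∃ S : Finset B, (∀ a, (γ a).coeffs ⊆ S) ∧ ∀ j < m, ∀ a, (y j a).coeffs ⊆ S := by
  refine ⟨(Finset.univ.biUnion fun a => (γ a).coeffs) ∪
    (Finset.range m).biUnion fun j => Finset.univ.biUnion fun a => (y j a).coeffs,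
    fun a z hz => ?_, fun j hj a z hz => ?_⟩
  · exact Finset.mem_union_left _ (Finset.mem_biUnion.2 ⟨a, Finset.mem_univ _, hz⟩)
  · exact Finset.mem_union_right _ (Finset.mem_biUnion.2 ⟨j, Finset.mem_range.2 hj,
      Finset.mem_biUnion.2 ⟨a, Finset.mem_univ _, hz⟩⟩)

theorem vcb_pow {M : Type} [Field M] (R : Subring M) {π : R}
    (h1 : ∀ z : M, ∃ N : ℕ, (π : M) ^ N * z ∈ R) (S : Finset M) :
    ∃ N : ℕ, ∀ z ∈ S, (π : M) ^ N * z ∈ R := by
  choose N hN using h1
  refine ⟨S.sup N, fun z hz => ?_⟩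
  obtain ⟨k, hk⟩ := Nat.exists_eq_add_of_le' (Finset.le_sup (f := N) hz)
  rw [hk, pow_add, mul_assoc]
  exact mul_mem (pow_mem π.2 k) (hN z)

theorem vcb_lifts {M : Type} [Field M] (R : Subring M) (w : M) (p : M[X])
    (h : ∀ z ∈ p.coeffs, w * z ∈ R) : Polynomial.C w * p ∈ Polynomial.lifts R.subtype := by
  refine (Polynomial.lifts_iff_coeff_lifts _).2 fun i => ?_
  rw [Polynomial.coeff_C_mul]
  by_cases e : p.coeff i = 0
  · exact ⟨0, by rw [e, mul_zero, map_zero]⟩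
  · exact ⟨⟨_, h _ (Polynomial.coeff_mem_coeffs e)⟩, rfl⟩

theorem Jn.map (h : Jn f P Q) (φ : B →+* B') :
    Jn (MvPolynomial.map φ f) (fun a => φ (P a)) fun a => φ (Q a) := by
  obtain ⟨γ, h1, h2, h3⟩ := h
  exact ⟨fun a => (γ a).map φ, by rw [vcb_map, h1, Polynomial.map_zero],
    fun a => by rw [Polynomial.eval_zero_map, h2], fun a => by rw [Polynomial.eval_one_map, h3]⟩

theorem Jn.smul (hf : f.IsHomogeneous d) (h : Jn f P Q) (t : B) :
    Jn f (fun a => t * P a) fun a => t * Q a := by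
  obtain ⟨γ, h1, h2, h3⟩ := h
  exact ⟨fun a => Polynomial.C t * γ a, by rw [vcb_smul hf, h1, mul_zero],
    fun a => by rw [Polynomial.eval_C_mul, h2], fun a => by rw [Polynomial.eval_C_mul, h3]⟩

theorem Jn.of_C_mul [IsDomain B] {s : B} (hs : s ≠ 0) (h : Jn (MvPolynomial.C s * f) P Q) :
    Jn f P Q := by
  obtain ⟨γ, h1, h2, h3⟩ := h
  rw [vcb_C] at h1
  exact ⟨γ, (mul_eq_zero.1 h1).resolve_left (Polynomial.C_ne_zero.2 hs), h2, h3⟩

theorem VC.jn (h : VC f d P Q c) : Jn f P Q := by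
  obtain ⟨E, γ, -, -, h1, h2, h3, -⟩ := h
  exact ⟨γ, h1, h2, h3⟩

theorem VC.zero_left (h : VC f d P Q c) : MvPolynomial.eval P f = 0 := by
  obtain ⟨E, γ, -, -, h1, h2, -, -⟩ := h
  have e := vcb_eval 0 γ f
  rw [h1, Polynomial.eval_zero, funext h2] at e
  exact e.symm

theorem VC.zero_right (h : VC f d P Q c) : MvPolynomial.eval Q f = 0 := by
  obtain ⟨E, γ, -, -, h1, -, h3, -⟩ := h
  have e := vcb_eval 1 γ f
  rw [h1, Polynomial.eval_zero, funext h3] at e
  exact e.symm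

theorem VC.map (h : VC f d P Q c) (φ : B →+* B') :
    VC (MvPolynomial.map φ f) d (fun a => φ (P a)) (fun a => φ (Q a)) (φ c) := by
  obtain ⟨E, γ, hE, h0, h1, h2, h3, h4⟩ := h
  refine ⟨E, fun a => (γ a).map φ, hE, fun a => Polynomial.natDegree_map_le.trans (h0 a),
    by rw [vcb_map, h1, Polynomial.map_zero], fun a => by rw [Polynomial.eval_zero_map, h2],
    fun a => by rw [Polynomial.eval_one_map, h3], fun j hj => ?_⟩
  obtain ⟨y, a1, a2⟩ := h4 j hj
  refine ⟨fun a => (y a).map φ, fun a =>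
    (Nat.add_le_add_right Polynomial.natDegree_map_le 2).trans (a1 a), ?_⟩
  rw [vcb_dg_map, a2, Polynomial.map_mul, Polynomial.map_C, Polynomial.map_pow, Polynomial.map_X]

theorem VC.smul (hf : f.IsHomogeneous d) (h : VC f d P Q c) (t : B) :
    VC f d (fun a => t * P a) (fun a => t * Q a) (t ^ (d - 1) * c) := by
  obtain ⟨E, γ, hE, h0, h1, h2, h3, h4⟩ := h
  refine ⟨E, fun a => Polynomial.C t * γ a, hE,
    fun a => (Polynomial.natDegree_C_mul_le _ _).trans (h0 a), by rw [vcb_smul hf, h1, mul_zero],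
    fun a => by rw [Polynomial.eval_C_mul, h2], fun a => by rw [Polynomial.eval_C_mul, h3],
    fun j hj => ?_⟩
  obtain ⟨y, a1, a2⟩ := h4 j hj
  exact ⟨y, a1, by rw [vcb_dg_smul hf, a2, Polynomial.C_mul, mul_assoc]⟩

theorem VC.C_mul (h : VC f d P Q c) (s : B) : VC (MvPolynomial.C s * f) d P Q (s * c) := by
  obtain ⟨E, γ, hE, h0, h1, h2, h3, h4⟩ := h
  refine ⟨E, γ, hE, h0, by rw [vcb_C, h1, mul_zero], h2, h3, fun j hj => ?_⟩
  obtain ⟨y, a1, a2⟩ := h4 j hj
  exact ⟨y, a1, by rw [vcb_dg_C, a2, Polynomial.C_mul, mul_assoc]⟩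

theorem VC.mul_const (h : VC f d P Q c) (u : B) : VC f d P Q (u * c) := by
  obtain ⟨E, γ, hE, h0, h1, h2, h3, h4⟩ := h
  refine ⟨E, γ, hE, h0, h1, h2, h3, fun j hj => ?_⟩
  obtain ⟨y, a1, a2⟩ := h4 j hj
  exact ⟨fun a => Polynomial.C u * y a, fun a =>
    (Nat.add_le_add_right (Polynomial.natDegree_C_mul_le _ _) 2).trans (a1 a),
    by rw [vcb_dg_y, a2, Polynomial.C_mul, mul_assoc]⟩

theorem VC.ne_right (hf : f.IsHomogeneous d) (hd : 2 ≤ d) (h : VC f d P Q c) (hc : c ≠ 0) :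
    Q ≠ 0 := by
  rintro rfl
  obtain ⟨E, γ, hE, -, -, -, h3, h4⟩ := h
  obtain ⟨y, -, a2⟩ := h4 0 (by nlinarith)
  have e := vcb_dg_eval (f := f) 1 γ y
  rw [a2, pow_zero, mul_one, Polynomial.eval_C, funext h3] at e
  refine hc (e.trans (Finset.sum_eq_zero fun a _ => ?_))
  have e2 := HZ.p4_smul (hf.pderiv (i := a)) (0 : B) (0 : Fin n → B)
  rw [zero_pow (by omega), zero_mul] at e2
  have e3 : (fun b => 0 * (0 : Fin n → B) b) = (0 : Fin n → B) := funext fun b => by simp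
  rw [e3] at e2
  rw [e2, zero_mul]

theorem VC.grad (hd : 1 ≤ d) (h : VC f d P Q c) (hc : c ≠ 0) :
    ∃ i, MvPolynomial.eval P (MvPolynomial.pderiv i f) ≠ 0 := by
  obtain ⟨E, γ, hE, -, -, h2, -, h4⟩ := h
  obtain ⟨y, -, a2⟩ := h4 0 (by nlinarith)
  have e := vcb_dg_eval (f := f) 0 γ y
  rw [a2, pow_zero, mul_one, Polynomial.eval_C, funext h2] at e
  by_contra hn
  push Not at hn
  exact hc (e.trans (Finset.sum_eq_zero fun a _ => by rw [hn a, zero_mul]))

/-- the point at infinity of the curve is moved to the origin -/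
theorem vc_of_top (hf : f.IsHomogeneous d) (hd : 1 ≤ d) {E : ℕ} (hE : 2 ≤ E) {γ : Fin n → B[X]}
    (h1 : ∀ a, (γ a).natDegree ≤ E) (h2 : MvPolynomial.aeval γ f = 0)
    (h3 : ∀ a, (γ a).coeff E = P a) (h4 : Sur f d E γ c) : ∃ Q, VC f d P Q c := by
  refine ⟨fun a => ((γ a).reflect E).eval 1, E, fun a => (γ a).reflect E, hE,
    fun a => Polynomial.natDegree_reflect_le.trans (max_le le_rfl (h1 a)),
    by rw [vcb_reflect hf h1, h2, Polynomial.reflect_zero], fun a => ?_, fun _ => rfl,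
    fun j hj => ?_⟩
  · rw [← Polynomial.coeff_zero_eq_eval_zero, Polynomial.coeff_reflect, Polynomial.revAt_zero, h3]
  · obtain ⟨y, a1, a2⟩ := h4 (d * E - 2 - j) (by omega)
    have a3 : ∀ a, (y a).natDegree ≤ E - 2 := fun a => by
      have := a1 a
      omega
    refine ⟨fun a => (y a).reflect (E - 2), fun a => ?_, ?_⟩
    · have : ((y a).reflect (E - 2)).natDegree ≤ E - 2 :=
        Polynomial.natDegree_reflect_le.trans (max_le le_rfl (a3 a))
      show ((y a).reflect (E - 2)).natDegree + 2 ≤ E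
      omega
    · have e : (d - 1) * E + (E - 2) = d * E - 2 := by
        obtain ⟨d', rfl⟩ := Nat.exists_eq_add_of_le' hd
        rw [Nat.add_sub_cancel, add_mul, one_mul]
        omega
      have e2 : Dg f (fun a => (γ a).reflect E) (fun a => (y a).reflect (E - 2)) =
          (Dg f γ y).reflect (d * E - 2) := by
        unfold Dg
        rw [vcb_rsum]
        refine Finset.sum_congr rfl fun a _ => ?_
        rw [vcb_reflect hf.pderiv h1, ← e,
          Polynomial.reflect_mul _ _ (aeval_top hf.pderiv h1).1 (a3 a)]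
      rw [e2, a2, Polynomial.reflect_C_mul_X_pow, Polynomial.revAt_le (by omega)]
      congr 2
      omega

/-- a curve over a field is defined over a finitely generated subfield -/
theorem VC.exists_finset {L Λ : Type} [Field L] [Field Λ] [Algebra L Λ]
    {f : MvPolynomial (Fin n) L} {P Q : Fin n → Λ}
    (h : VC (MvPolynomial.map (algebraMap L Λ) f) d P Q 1) :
    ∃ S : Finset Λ, ∀ (M : Type) [Field M] [Algebra L M] [Algebra M Λ] [IsScalarTower L M Λ],
      (∀ s ∈ S, s ∈ (algebraMap M Λ).range) → ∃ P' Q' : Fin n → M,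
        (∀ a, algebraMap M Λ (P' a) = P a) ∧ (∀ a, algebraMap M Λ (Q' a) = Q a) ∧
          VC (MvPolynomial.map (algebraMap L M) f) d P' Q' 1 := by
  obtain ⟨E, γ, hE, h0, h1, h2, h3, h4⟩ := h
  choose! y a1 a2 using h4
  obtain ⟨S, s1, s2⟩ := vcb_coeffs γ y (d * E)
  refine ⟨S, fun M _ _ _ _ hS => ?_⟩
  have e : MvPolynomial.map (algebraMap L Λ) f =
      MvPolynomial.map (algebraMap M Λ) (MvPolynomial.map (algebraMap L M) f) := by
    rw [MvPolynomial.map_map, ← IsScalarTower.algebraMap_eq]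
  have hl : ∀ p : Λ[X], p.coeffs ⊆ S → p ∈ Polynomial.lifts (algebraMap M Λ) := fun p hp =>
    (Polynomial.lifts_iff_coeffs_subset_range p).2 fun z hz => hS z (hp hz)
  rw [e] at h1 a2
  obtain ⟨P', Q', b1, b2, b3⟩ := vcb_desc (d := d) (c := 1) (algebraMap M Λ)
    (algebraMap M Λ).injective hE h0 h1 (fun a => hl _ (s1 a)) fun j hj =>
      ⟨y j, a1 j hj, fun a => hl _ (s2 j (by omega) a), by rw [a2 j hj, map_one (algebraMap M Λ)]⟩
  exact ⟨P', Q', fun a => (b1 a).trans (h2 a), fun a => (b2 a).trans (h3 a), b3⟩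

/-- clearing denominators -/
theorem VC.clear {M : Type} [Field M] (R : Subring M) {π : R} (h0 : π ≠ 0)
    (h1 : ∀ z : M, ∃ N : ℕ, (π : M) ^ N * z ∈ R) {f : MvPolynomial (Fin n) M}
    (hf : f.IsHomogeneous d) {P Q : Fin n → M} (h : VC f d P Q 1) :
    ∃ (s t c : R) (g : MvPolynomial (Fin n) R) (P' Q' : Fin n → R), s ≠ 0 ∧ t ≠ 0 ∧ c ≠ 0 ∧
      MvPolynomial.map R.subtype g = MvPolynomial.C (s : M) * f ∧
      (∀ a, (P' a : M) = t * P a) ∧ (∀ a, (Q' a : M) = t * Q a) ∧ VC g d P' Q' c := by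
  obtain ⟨E, γ, hE, a0, a1, a2, a3, a4⟩ := h
  choose! y b1 b2 using a4
  obtain ⟨S, s1, s2⟩ := vcb_coeffs γ y (d * E)
  obtain ⟨N, hN⟩ := vcb_pow R h1 (S ∪ f.coeffs)
  have hw : π ^ N ≠ 0 := pow_ne_zero N h0
  have ew : ((π ^ N : R) : M) = (π : M) ^ N := SubmonoidClass.coe_pow π N
  obtain ⟨w, hw1, hw2⟩ : ∃ w : R, w ≠ 0 ∧ ∀ z ∈ S ∪ f.coeffs, (w : M) * z ∈ R :=
    ⟨π ^ N, hw, fun z hz => ew ▸ hN z hz⟩
  obtain ⟨g, hg⟩ := HZ.p4_lift R (MvPolynomial.C (w : M) * f) fun μ => by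
    rw [MvPolynomial.coeff_C_mul]
    by_cases e : f.coeff μ = 0
    · rw [e, mul_zero]
      exact zero_mem _
    · exact hw2 _ (Finset.mem_union_right _
        (MvPolynomial.mem_coeffs_iff.2 ⟨μ, MvPolynomial.mem_support_iff.2 e, rfl⟩))
  have hl : ∀ p : M[X], p.coeffs ⊆ S → Polynomial.C (w : M) * p ∈ Polynomial.lifts R.subtype :=
    fun p hp => vcb_lifts R _ p fun z hz => hw2 z (Finset.mem_union_left _ (hp hz))
  obtain ⟨P', Q', c1, c2, c3⟩ := vcb_desc (d := d) (c := w * w ^ (d - 1) * w) (g := g)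
    (γ := fun a => Polynomial.C (w : M) * γ a) R.subtype R.subtype_injective hE
    (fun a => (Polynomial.natDegree_C_mul_le _ _).trans (a0 a))
    (by rw [hg, vcb_C, vcb_smul hf, a1, mul_zero, mul_zero]) (fun a => hl _ (s1 a)) fun j hj =>
      ⟨fun a => Polynomial.C (w : M) * y j a, fun a =>
        (Nat.add_le_add_right (Polynomial.natDegree_C_mul_le _ _) 2).trans (b1 j hj a),
        fun a => hl _ (s2 j (by omega) a), by
          rw [hg, vcb_dg_C, vcb_dg_smul hf, vcb_dg_y, b2 j hj]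
          simp only [map_mul, map_pow, map_one, Subring.coe_subtype]
          ring⟩
  refine ⟨w, w, _, g, P', Q', hw1, hw1, mul_ne_zero (mul_ne_zero hw1 (pow_ne_zero _ hw1)) hw1, hg,
    fun a => (c1 a).trans ?_, fun a => (c2 a).trans ?_, c3⟩
  · rw [Polynomial.eval_C_mul, a2]
  · rw [Polynomial.eval_C_mul, a3]

theorem vc_of_vf {k : Type} [Field k] {f : MvPolynomial (Fin n) k} (hd : 1 ≤ d) {x z : Fin n → k}
    {e : ℕ} {γ : Fin n → k[X]} (h : HZ.VF f d x z e γ) :
    ∃ s t : k, s ≠ 0 ∧ t ≠ 0 ∧ VC f d (fun a => s * x a) (fun a => t * z a) 1 := by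
  obtain ⟨s, hs, h0⟩ := h.at0
  obtain ⟨t, ht, h1⟩ := h.at1
  refine ⟨s, t, hs, ht, e + 2, γ, by omega, h.deg, h.zero, h0, h1, fun j hj => ?_⟩
  obtain ⟨y, a1, a2⟩ := h.onto (Polynomial.X ^ j) ((Polynomial.natDegree_X_pow_le j).trans (by
    obtain ⟨d', rfl⟩ := Nat.exists_eq_add_of_le' hd
    rw [add_mul, one_mul] at hj
    rw [Nat.add_sub_cancel]
    omega))
  exact ⟨y, fun a => Nat.add_le_add_right (a1 a) 2, by rw [map_one, one_mul]; exact a2⟩

theorem VC.vt {k : Type} [Field k] {f : MvPolynomial (Fin n) k} (hf : f.IsHomogeneous d)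
    {P Q : Fin n → k} {s t c : k} (hs : s ≠ 0) (ht : t ≠ 0) (hc : c ≠ 0)
    (h : VC (MvPolynomial.C s * f) d (fun a => t * P a) Q c) : VT f d P := by
  have h1 := h.C_mul s⁻¹
  rw [← mul_assoc, ← map_mul, inv_mul_cancel₀ hs, map_one, one_mul] at h1
  have h2 := (h1.smul hf t⁻¹).mul_const (t⁻¹ ^ (d - 1) * (s⁻¹ * c))⁻¹
  rw [inv_mul_cancel₀ (mul_ne_zero (pow_ne_zero _ (inv_ne_zero ht))
    (mul_ne_zero (inv_ne_zero hs) hc))] at h2
  simp only [inv_mul_cancel_left₀ ht] at h2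
  exact ⟨_, h2⟩

theorem vt_closed {k : Type} [Field k] [IsAlgClosed k] {f : MvPolynomial (Fin n) k}
    (hf : HZ.Hyp f d) {x : Fin n → k} (h0 : x ≠ 0) (h1 : MvPolynomial.aeval x f = 0) :
    VT f d x := by
  obtain ⟨e, γ, h⟩ := HZ.vf_closed hf h0 h0 h1 h1
  obtain ⟨s, t, hs, -, h2⟩ := vc_of_vf (le_trans one_le_two hf.hd) h
  refine VC.vt hf.hom one_ne_zero hs one_ne_zero (Q := fun a => t * x a) ?_
  rwa [map_one, one_mul]

end Pool.Agent.CE
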