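import Pool.Agent.Lib.MP_72c364_ag.CombB
import Pool.Agent.Lib.MP_72c364_ag.VcB
import Pool.Agent.Lib.MP_751085_ag.P2

/-! Very free curves descend along simple extensions of a complete field. -/

namespace Pool.Agent.CE

open scoped Classical Polynomial IntermediateField

theorem combc_hom {B A : Type} [CommRing B] [CommRing A] [Algebra B A] {n d : ℕ}
    {f : MvPolynomial (Fin n) B} (hf : f.IsHomogeneous d) (t : A) (x : Fin n → A) :
    MvPolynomial.aeval (fun a => t * x a) f = t ^ d * MvPolynomial.aeval x f := by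
  rw [MvPolynomial.aeval_def, MvPolynomial.aeval_def, ← MvPolynomial.eval_map,
    ← MvPolynomial.eval_map]
  exact HZ.p4_smul (hf.map _) t x

theorem combc_map {B K : Type} [CommRing B] [CommRing K] (ev : B[X] →+* K) {n : ℕ}
    (x : Fin n → B[X][X]) (g : MvPolynomial (Fin n) B) :
    (MvPolynomial.aeval x g).map ev = MvPolynomial.aeval (fun a => (x a).map ev)
      (MvPolynomial.map (ev.comp Polynomial.C) g) := by
  induction g using MvPolynomial.induction_on with
  | C c => simp
  | add g g' h1 h2 => simp only [map_add, Polynomial.map_add, h1, h2]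
  | mul_X g j h1 =>
    simp only [map_mul, Polynomial.map_mul, h1, MvPolynomial.map_X, MvPolynomial.aeval_X]

theorem combc_coeff {K : Type} [CommRing K] {n : ℕ} (γ : Fin n → K[X])
    (g : MvPolynomial (Fin n) K) :
    (MvPolynomial.aeval γ g).coeff 0 = MvPolynomial.eval (fun a => (γ a).eval 0) g := by
  rw [Polynomial.coeff_zero_eq_eval_zero]
  induction g using MvPolynomial.induction_on with
  | C c => simp
  | add g g' h1 h2 => simp only [map_add, Polynomial.eval_add, h1, h2]
  | mul_X g j h1 =>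
    simp only [map_mul, Polynomial.eval_mul, h1, MvPolynomial.eval_X, MvPolynomial.aeval_X]

theorem combc_sur {K : Type} [CommRing K] {n d e : ℕ} {F : MvPolynomial (Fin n) K}
    {γ : Fin n → K[X]} (he : 2 ≤ e) (hS : Sur F d e γ 1) {h : K[X]}
    (hh : h.natDegree + 2 ≤ d * e) :
    ∃ z : Fin n → K[X], (∀ a, (z a).natDegree + 2 ≤ e) ∧ Dg F γ z = h := by
  choose! y hy hy' using hS
  refine ⟨fun a => ∑ j ∈ Finset.range (h.natDegree + 1), Polynomial.C (h.coeff j) * y j a,
    fun a => ?_, ?_⟩
  · have : (∑ j ∈ Finset.range (h.natDegree + 1),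
        Polynomial.C (h.coeff j) * y j a).natDegree ≤ e - 2 :=
      Polynomial.natDegree_sum_le_of_forall_le _ _ fun j hj => by
        have h1 := hy j (by have := Finset.mem_range.1 hj; omega) a
        exact (Polynomial.natDegree_C_mul_le _ _).trans (by omega)
    exact (Nat.add_le_add_right this 2).trans (by omega)
  · conv_rhs => rw [h.as_sum_range_C_mul_X_pow]
    unfold Dg
    simp only [Finset.mul_sum]
    rw [Finset.sum_comm]
    refine Finset.sum_congr rfl fun j hj => ?_
    have h1 := hy' j (by have := Finset.mem_range.1 hj; omega)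
    rw [map_one, one_mul] at h1
    rw [← h1, Dg, Finset.mul_sum]
    exact Finset.sum_congr rfl fun a _ => by ring

theorem combc_dir {M K : Type} [Field M] [Field K] [Algebra M K] {n d e : ℕ}
    {f : MvPolynomial (Fin n) M} (hf : f.IsHomogeneous d) (hd : 1 ≤ d) {P : Fin n → M}
    {γ : Fin n → K[X]} (he : 2 ≤ e) (h1 : ∀ a, (γ a).natDegree ≤ e)
    (h2 : ∀ a, (γ a).eval 0 = algebraMap M K (P a))
    (hS : Sur (MvPolynomial.map (algebraMap M K) f) d e γ 1) {i : Fin n}
    (hi : MvPolynomial.eval P (MvPolynomial.pderiv i f) ≠ 0) (k : Fin (d * e)) :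
    ∃ (V : Fin n → M) (z : Fin n → K[X]), (1 ≤ (k : ℕ) → V = 0) ∧
      (∀ a, (z a).natDegree + 2 ≤ e) ∧ Dg (MvPolynomial.map (algebraMap M K) f) γ (fun a =>
        Polynomial.X * (Polynomial.C (algebraMap M K (V a)) + Polynomial.X * z a)) =
          Polynomial.X ^ ((k : ℕ) + 1) := by
  obtain ⟨k, hk⟩ := k
  have lin : ∀ v z : Fin n → K[X], Dg (MvPolynomial.map (algebraMap M K) f) γ
      (fun a => Polynomial.X * (v a + Polynomial.X * z a)) = Polynomial.X *
        (Dg (MvPolynomial.map (algebraMap M K) f) γ v +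
          Polynomial.X * Dg (MvPolynomial.map (algebraMap M K) f) γ z) := fun v z => by
    simp only [Dg, Finset.mul_sum, ← Finset.sum_add_distrib]
    exact Finset.sum_congr rfl fun a _ => by ring
  rcases k with _ | k
  · set G := Dg (MvPolynomial.map (algebraMap M K) f) γ fun a => Polynomial.C (algebraMap M K
      ((Pi.single i (MvPolynomial.eval P (MvPolynomial.pderiv i f))⁻¹ : Fin n → M) a)) with hG
    have g1 : G.natDegree ≤ (d - 1) * e :=
      Polynomial.natDegree_sum_le_of_forall_le _ _ fun a _ =>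
        (Polynomial.natDegree_mul_C_le _ _).trans (aeval_top (hf.map _).pderiv h1).1
    have g2 : G.coeff 0 = 1 := by
      rw [hG, Dg, Finset.sum_eq_single i (fun a _ ha => by simp [ha]) (by simp),
        Polynomial.coeff_mul_C, combc_coeff, MvPolynomial.pderiv_map]
      simp only [h2]
      rw [HZ.p4_eval, Pi.single_eq_same, ← map_mul, mul_inv_cancel₀ hi, map_one]
    obtain ⟨z, hz, hz'⟩ := combc_sur he hS (h := -G.divX) (by
      rw [Polynomial.natDegree_neg, Polynomial.natDegree_divX_eq_natDegree_tsub_one]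
      obtain ⟨d', rfl⟩ : ∃ d', d = d' + 1 := ⟨d - 1, by omega⟩
      rw [Nat.add_sub_cancel] at g1
      rw [add_mul]
      omega)
    refine ⟨Pi.single i (MvPolynomial.eval P (MvPolynomial.pderiv i f))⁻¹, z,
      fun h => absurd h (by simp), hz, ?_⟩
    have g3 := G.X_mul_divX_add
    rw [g2, map_one] at g3
    rw [lin, ← hG, hz']
    simp only [zero_add, pow_one]
    linear_combination (-Polynomial.X) * g3
  · obtain ⟨z, hz, hz'⟩ := hS k (by omega)
    refine ⟨0, z, fun _ => rfl, hz, ?_⟩
    rw [lin, hz']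
    simp only [Dg, Pi.zero_apply, map_zero, mul_zero, Finset.sum_const_zero, map_one]
    ring

theorem combc_lift {B K ι : Type} [CommRing B] [CommRing K] [Fintype ι] (ev : B[X] →+* K) {m : ℕ}
    (hm : 0 < m) {w : K} (h : ∀ z : K, ∃ N : ℕ, ∀ N', N ≤ N' → ∃ g : B[X], g.natDegree < m ∧
      ev g = w ^ N' * z) (u : ι → K[X]) : ∃ N : ℕ, ∀ N', N ≤ N' → ∃ x : ι → B[X][X],
      ∀ a, (x a).natDegree ≤ (u a).natDegree ∧ (∀ k, ((x a).coeff k).natDegree < m) ∧
        (x a).map ev = Polynomial.C (w ^ N') * u a := by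
  choose N hN using h
  refine ⟨Finset.univ.sup fun a => (Finset.range ((u a).natDegree + 1)).sup fun k =>
    N ((u a).coeff k), fun N' hN' => ?_⟩
  have key : ∀ a k, ∃ g : B[X], k < (u a).natDegree + 1 → g.natDegree < m ∧
      ev g = w ^ N' * (u a).coeff k := fun a k => by
    by_cases hk : k < (u a).natDegree + 1
    · obtain ⟨g, hg⟩ := hN ((u a).coeff k) N' (le_trans (le_trans
        (Finset.le_sup (f := fun k => N ((u a).coeff k)) (Finset.mem_range.2 hk))
        (Finset.le_sup (f := fun a => (Finset.range ((u a).natDegree + 1)).sup fun k =>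
          N ((u a).coeff k)) (Finset.mem_univ a))) hN')
      exact ⟨g, fun _ => hg⟩
    · exact ⟨0, fun h => absurd h hk⟩
  choose g hg using key
  have co : ∀ a k, (∑ j ∈ Finset.range ((u a).natDegree + 1),
      Polynomial.monomial j (g a j)).coeff k = if k < (u a).natDegree + 1 then g a k else 0 :=
    fun a k => by
      simp only [Polynomial.finsetSum_coeff, Polynomial.coeff_monomial, Finset.sum_ite_eq',
        Finset.mem_range]
  refine ⟨fun a => ∑ j ∈ Finset.range ((u a).natDegree + 1), Polynomial.monomial j (g a j),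
    fun a => ⟨?_, fun k => ?_, ?_⟩⟩
  · refine Polynomial.natDegree_le_iff_coeff_eq_zero.2 fun k hk => ?_
    rw [co, if_neg (by omega)]
  · rw [co]
    split_ifs with hk
    · exact (hg a k hk).1
    · simpa using hm
  · ext k
    rw [Polynomial.coeff_map, co, Polynomial.coeff_C_mul]
    split_ifs with hk
    · exact (hg a k hk).2
    · rw [map_zero, Polynomial.coeff_eq_zero_of_natDegree_lt (by omega), mul_zero]

theorem combc_clear {M ι : Type} [Field M] (R : Subring M) {π : R}
    (h1 : ∀ z : M, ∃ N : ℕ, (π : M) ^ N * z ∈ R) (s : Finset ι) (v : ι → M) :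
    ∃ N : ℕ, ∀ N', N ≤ N' → ∀ i ∈ s, (π : M) ^ N' * v i ∈ R := by
  choose N hN using h1
  exact ⟨s.sup fun i => N (v i), fun N' h i hi =>
    HZ.p2_mono R (hN _) ((Finset.le_sup (f := fun i => N (v i)) hi).trans h)⟩

theorem comb {M M' : Type} [Field M] [Field M'] [Algebra M M'] [FiniteDimensional M M']
    (R : Subring M) {π : R} (h0 : π ≠ 0) (h1 : ∀ z : M, ∃ N : ℕ, (π : M) ^ N * z ∈ R)
    [IsAdicComplete (Ideal.span {π}) R] {θ : M'} (hθ : M⟮θ⟯ = ⊤) {n d : ℕ}
    {f : MvPolynomial (Fin n) M} (hf : f.IsHomogeneous d) (hd : 1 ≤ d) {P : Fin n → M}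
    (h : VT (MvPolynomial.map (algebraMap M M') f) d fun a => algebraMap M M' (P a)) :
    VT f d P := by
  obtain ⟨Q, hvc⟩ := h
  have hP : MvPolynomial.eval P f = 0 := by
    have := hvc.zero_left
    rwa [HZ.p4_eval, map_eq_zero] at this
  obtain ⟨i0, hi0⟩ := hvc.grad hd one_ne_zero
  rw [MvPolynomial.pderiv_map, HZ.p4_eval, map_ne_zero] at hi0
  obtain ⟨e, γ, he, g1, g2, g3, -, hS⟩ := hvc
  obtain ⟨θ', φ, hφ, hφ', hle⟩ := HZ.p2_scale R h0 h1 θ
  rw [hθ] at hle
  obtain ⟨ev, hev⟩ : ∃ ev : R[X] →+* M', ∀ g, ev g = Polynomial.aeval θ' (g.map R.subtype) :=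
    ⟨(Polynomial.aeval θ').toRingHom.comp (Polynomial.mapRingHom R.subtype), fun _ => rfl⟩
  have evC : ∀ r : R, ev (Polynomial.C r) = algebraMap M M' r := fun r => by simp [hev]
  have evX : ev Polynomial.X = θ' := by simp [hev]
  have hm : 0 < φ.natDegree := by
    rw [← hφ.natDegree_map R.subtype, hφ']
    exact minpoly.natDegree_pos (IsIntegral.of_finite M θ')
  have hker : ∀ g, ev g = 0 → φ ∣ g := fun g hg => HZ.p2_dvd R hφ hφ' (hev g ▸ hg)
  have huniq : ∀ g g' : R[X], g.natDegree < φ.natDegree → g'.natDegree < φ.natDegree →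
      ev g = ev g' → g = g' := fun g g' h2 h3 h4 =>
    sub_eq_zero.1 (Polynomial.eq_zero_of_dvd_of_natDegree_lt
      (hker _ (by rw [map_sub, h4, sub_self]))
      ((Polynomial.natDegree_sub_le _ _).trans_lt (max_lt h2 h3)))
  have hrep : ∀ z : M', ∃ N : ℕ, ∀ N', N ≤ N' → ∃ g : R[X], g.natDegree < φ.natDegree ∧
      ev g = algebraMap M M' π ^ N' * z := fun z => by
    obtain ⟨N, hN⟩ := HZ.p2_rep R h1 (hle (IntermediateField.mem_top (x := z)))
    refine ⟨N, fun N' h => ?_⟩
    obtain ⟨g, hg⟩ := hN N' h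
    refine ⟨g %ₘ φ, Polynomial.natDegree_modByMonic_lt g hφ (fun e => ?_), ?_⟩
    · rw [e, Polynomial.natDegree_one] at hm
      exact lt_irrefl _ hm
    · have h2 : ev φ = 0 := by rw [hev, hφ', minpoly.aeval]
      rw [← hg, ← hev]
      conv_rhs => rw [← Polynomial.modByMonic_add_div g φ, map_add, map_mul, h2, zero_mul, add_zero]
  have hπ : ∀ N : ℕ, (π : M) ^ N ≠ 0 := fun N => pow_ne_zero _ fun e => h0 (Subtype.ext e)
  obtain ⟨N1, hN1⟩ := combc_clear R h1 f.support fun μ => f.coeff μ
  obtain ⟨g, hg⟩ := HZ.p4_lift R (MvPolynomial.C ((π : M) ^ N1) * f) fun μ => by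
    rw [MvPolynomial.coeff_C_mul]
    by_cases hμ : μ ∈ f.support
    · exact hN1 N1 le_rfl μ hμ
    · rw [MvPolynomial.notMem_support_iff.1 hμ, mul_zero]
      exact zero_mem _
  have hgh : g.IsHomogeneous d :=
    MvPolynomial.IsHomogeneous.of_map R.subtype_injective (hg ▸ hf.C_mul _)
  have hg' : MvPolynomial.map (ev.comp Polynomial.C) g =
      MvPolynomial.C (algebraMap M M' π ^ N1) * MvPolynomial.map (algebraMap M M') f := by
    rw [show ev.comp Polynomial.C = (algebraMap M M').comp R.subtype from RingHom.ext evC,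
      ← MvPolynomial.map_map, hg, map_mul, MvPolynomial.map_C, map_pow]
  obtain ⟨Na, hNa⟩ := combc_clear R h1 Finset.univ P
  obtain ⟨Nb, hNb⟩ := combc_lift ev hm hrep γ
  obtain ⟨x, hx⟩ := hNb (max Na Nb) (le_max_right _ _)
  have hP0 := fun a => hNa (max Na Nb) (le_max_left _ _) a (Finset.mem_univ a)
  generalize max Na Nb = N2 at hx hP0
  choose V z hV hz hD using combc_dir hf hd he g1 g3 hS hi0
  obtain ⟨Nc, hNc⟩ := combc_clear R h1 Finset.univ fun q : Fin (d * e) × Fin n => V q.1 q.2
  obtain ⟨Nd, hNd⟩ := combc_lift ev hm hrep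
    fun q : Fin φ.natDegree × Fin (d * e) × Fin n => Polynomial.C (θ' ^ (q.1 : ℕ)) * (Polynomial.X *
      (Polynomial.C (algebraMap M M' (V q.2.1 q.2.2)) + Polynomial.X * z q.2.1 q.2.2))
  obtain ⟨y, hy⟩ := hNd (max Nc Nd) (le_max_right _ _)
  have hV0 := fun k a => hNc (max Nc Nd) (le_max_left _ _) (k, a) (Finset.mem_univ _)
  generalize max Nc Nd = N3 at hy hV0
  obtain ⟨γ₁, k1, k2, k3, c', hc', k4⟩ := comb_ring (Ideal.span {π}) hφ hm hgh hd he
    (c := π ^ N1 * (π ^ N2) ^ (d - 1) * π ^ N3) (η := π) (x := x)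
    (P := fun a => ⟨(π : M) ^ N2 * P a, hP0 a⟩) (by simp [h0]) (Ideal.mem_span_singleton_self π) h0
    (by
      refine R.subtype_injective ?_
      rw [← HZ.p4_eval, hg, map_mul, map_zero]
      exact mul_eq_zero_of_right _ ((HZ.p4_smul hf _ P).trans (by rw [hP, mul_zero])))
    (fun a => (hx a).1.trans (g1 a))
    (fun a => huniq _ _ ((hx a).2.1 0) (by simpa using hm) (by
      rw [← Polynomial.coeff_map, (hx a).2.2, Polynomial.coeff_C_mul, evC,
        Polynomial.coeff_zero_eq_eval_zero, g3, map_mul, map_pow]))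
    (fun a k => (hx a).2.1 _)
    (fun k => hker _ (by
      rw [← Polynomial.coeff_map, combc_map, hg', map_mul]
      simp only [fun a => (hx a).2.2]
      rw [combc_hom (hf.map _), g2, mul_zero, mul_zero, Polynomial.coeff_zero]))
    (fun i k hi hk => by
      refine ⟨fun a => y (⟨i, hi⟩, ⟨k, hk⟩, a), fun a => (hy _).1.trans ?_, fun a => ?_,
        fun a k' => (hy _).2.1 _, fun hik a i' hi' => ?_, fun k' => hker _ ?_⟩
      · have := hz ⟨k, hk⟩ a
        refine (Polynomial.natDegree_C_mul_le _ _).trans (Polynomial.natDegree_mul_le.trans ?_)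
        have h2 : (Polynomial.C (algebraMap M M' (V ⟨k, hk⟩ a)) +
            Polynomial.X * z ⟨k, hk⟩ a).natDegree ≤ e - 1 := by
          refine Polynomial.natDegree_add_le_of_degree_le (by simp)
            (Polynomial.natDegree_mul_le.trans ?_)
          rw [Polynomial.natDegree_X]
          omega
        rw [Polynomial.natDegree_X]
        exact (Nat.add_le_add_left h2 1).trans (by omega)
      · refine huniq _ _ ((hy _).2.1 0) (by simpa using hm) ?_
        rw [← Polynomial.coeff_map, (hy _).2.2]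
        simp
      · have h2 : (y (⟨i, hi⟩, ⟨k, hk⟩, a)).coeff 1 =
            Polynomial.C ⟨_, hV0 ⟨k, hk⟩ a⟩ * Polynomial.X ^ i := by
          refine huniq _ _ ((hy _).2.1 1)
            ((Polynomial.natDegree_C_mul_X_pow_le _ _).trans_lt hi) ?_
          rw [← Polynomial.coeff_map, (hy _).2.2, map_mul ev, map_pow ev, evC, evX,
            Polynomial.coeff_C_mul, Polynomial.coeff_C_mul, Polynomial.coeff_X_mul]
          simp
          ring
        rw [h2, Polynomial.coeff_C_mul_X_pow]
        split_ifs with h3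
        · rcases hik with h4 | h4
          · omega
          · exact Subtype.ext (by simp [hV ⟨k, hk⟩ h4])
        · rfl
      · have h2 := hD ⟨k, hk⟩
        rw [← Polynomial.coeff_map, Polynomial.map_sub, Polynomial.map_sum,
          Polynomial.map_monomial, ← Polynomial.C_mul_X_pow_eq_monomial, ← h2, Dg, Finset.mul_sum,
          ← Finset.sum_sub_distrib, Finset.sum_eq_zero fun a _ => ?_, Polynomial.coeff_zero]
        rw [Polynomial.map_mul, combc_map, ← MvPolynomial.pderiv_map, hg',
          MvPolynomial.pderiv_C_mul, map_mul, (hy _).2.2]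
        simp only [fun a => (hx a).2.2]
        rw [combc_hom (hf.map _).pderiv, map_mul ev, map_pow ev, evC, evX]
        simp only [MvPolynomial.aeval_C, Polynomial.algebraMap_apply, Algebra.algebraMap_self,
          RingHom.id_apply, Subring.coe_mul, SubmonoidClass.coe_pow, map_mul, map_pow]
        ring)
  obtain ⟨Q', hQ'⟩ := vc_of_top hgh hd (he.trans (Nat.le_mul_of_pos_left _ hm)) k1 k3 k2 k4
  have h2 := hQ'.map R.subtype
  rw [hg] at h2
  exact VC.vt hf (hπ N1) (hπ N2) (fun e => hc' (Subtype.ext e)) h2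

end Pool.Agent.CE
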