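import Pool.Agent.Lib.MP_72c364_ag.Spec
import Pool.Agent.Lib.MP_751085_ag.P1
import Pool.Agent.Lib.MP_751085_ag.P2

/-! The completion of a function field at a place. -/

namespace Pool.Agent.CE

open scoped Classical WithZero NNReal Polynomial
open HZ

theorem loc_indep {F K ι : Type} [Field F] [Finite F] [Field K] [Algebra F K] [Fintype ι]
    {v : Valuation K ℤᵐ⁰} {t : K} (h0 : t ≠ 0) (h1 : v t < 1) {a : ι → K} (ha : ∀ i, v (a i) ≤ 1)
    (h : ∀ c : ι → F, v (∑ i, algebraMap F K (c i) * a i) < 1 → c = 0) (f : ι → F[X])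
    (hf : ∑ i, Polynomial.aeval t (f i) * a i = 0) : f = 0 := by
  have key : ∀ f : ι → F[X], ∑ i, Polynomial.aeval t (f i) * a i =
      t * ∑ i, Polynomial.aeval t (f i).divX * a i + ∑ i, algebraMap F K ((f i).coeff 0) * a i := by
    intro f
    rw [Finset.mul_sum, ← Finset.sum_add_distrib]
    refine Finset.sum_congr rfl fun i _ => ?_
    conv_lhs => rw [← Polynomial.X_mul_divX_add (f i)]
    simp only [map_add, map_mul, Polynomial.aeval_X, Polynomial.aeval_C]
    ring
  have k0 : ∀ f : ι → F[X], ∑ i, Polynomial.aeval t (f i) * a i = 0 → ∀ i, (f i).coeff 0 = 0 := by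
    intro f hf
    rw [key, add_eq_zero_iff_neg_eq] at hf
    refine congrFun (h (fun i => (f i).coeff 0) ?_)
    rw [← hf, v.map_neg, map_mul]
    refine (mul_le_of_le_one_right' (v.map_sum_le fun i _ => ?_)).trans_lt h1
    rw [map_mul]
    exact mul_le_one' (p1_aeval_mem (V := v.valuationSubring) (p1_const _) h1.le _) (ha i)
  have k1 : ∀ (n : ℕ) (f : ι → F[X]), ∑ i, Polynomial.aeval t (f i) * a i = 0 →
      ∀ i, (f i).coeff n = 0 := by
    intro n
    induction n with
    | zero => exact k0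
    | succ n ih =>
      intro f hf i
      have h2 := k0 f hf
      rw [key] at hf
      simp only [h2, map_zero, zero_mul, Finset.sum_const_zero, add_zero] at hf
      rw [← Polynomial.coeff_divX]
      exact ih (fun i => (f i).divX) ((mul_eq_zero.1 hf).resolve_left h0) i
  funext i
  ext n
  exact k1 n f hf i

theorem loc_unif {K : Type} [Field K] {v : Valuation K ℤᵐ⁰} (hv : Function.Surjective v) :
    ∃ t : K, t ≠ 0 ∧ v t < 1 := by
  obtain ⟨w, -, h0, h1, -⟩ := exists_hat v hv
  exact ⟨w, h0, h1⟩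

/-- the residue field of a place is finite -/
theorem res_finite {F K : Type} [Field F] [Finite F] [Field K] [Algebra F K] (hK : FF F K)
    {v : Valuation K ℤᵐ⁰} (hv : Function.Surjective v) {p : ℕ} [Fact p.Prime] [CharP K p] :
    ∃ r, 0 < r ∧ ∀ a : K, v a ≤ 1 → v (a ^ p ^ r - a) < 1 := by
  open IntermediateField IntermediateField.algebraAdjoinAdjoin in
  obtain ⟨t, h0, h1⟩ := loc_unif hv
  let V := v.valuationSubring
  let φ : F →+* V := (algebraMap F K).codRestrict V (p1_const V)
  let : Algebra F (IsLocalRing.ResidueField V) := ((IsLocalRing.residue V).comp φ).toAlgebra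
  have hres : ∀ x : V, IsLocalRing.residue V x = 0 ↔ v x < 1 := fun x => by
    rw [IsLocalRing.residue_eq_zero_iff, Valuation.mem_maximalIdeal_iff]
  have hli : ∀ {ι : Type} [Fintype ι] (a : ι → V),
      LinearIndependent F (fun i => IsLocalRing.residue V (a i)) →
      ∀ f : ι → F[X], ∑ i, Polynomial.aeval t (f i) * (a i : K) = 0 → f = 0 := by
    intro ι _ a ha
    refine loc_indep h0 h1 (fun i => (a i).2) fun c hc => funext ?_
    refine Fintype.linearIndependent_iff.1 ha c ?_
    have e : ((∑ i, φ (c i) * a i : V) : K) = ∑ i, algebraMap F K (c i) * a i := by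
      rw [AddSubmonoidClass.coe_finsetSum]
      rfl
    have := (hres (∑ i, φ (c i) * a i)).2 (e ▸ hc)
    rw [map_sum] at this
    rw [← this]
    exact Finset.sum_congr rfl fun i _ => by rw [map_mul, Algebra.smul_def]; rfl
  have ht : Transcendental F t := by
    rintro ⟨f, hf, hft⟩
    refine hf (congrFun (hli (fun _ : Unit => 1) ?_ (fun _ => f) (by simp [hft])) ())
    rw [map_one]
    exact linearIndependent_unique_iff.2 one_ne_zero
  have := p1_fin hK ht
  have hfin : Module.Finite F (IsLocalRing.ResidueField V) := by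
    refine Module.rank_lt_aleph0_iff.1 ((rank_le (n := Module.finrank F⟮t⟯ K) fun s hs => ?_).trans_lt
      Cardinal.natCast_lt_aleph0)
    choose a ha using fun i : s => IsLocalRing.residue_surjective (R := V) i
    have h3 : LinearIndependent (Algebra.adjoin F {t}) fun i => (a i : K) := by
      refine Fintype.linearIndependent_iff.2 fun g hg i => ?_
      choose f hf using fun i => Algebra.adjoin_mem_exists_aeval F t (g i).2
      have := hli a (by simpa only [ha] using hs) f (by simp only [hf]; exact hg)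
      refine Subtype.ext ?_
      rw [← hf, this]
      simp
    rw [← Fintype.card_coe]
    exact ((LinearIndependent.iff_fractionRing _ F⟮t⟯).1 h3).fintype_card_le_finrank
  have : Finite (IsLocalRing.ResidueField V) := Module.finite_of_finite F
  have := Fintype.ofFinite (IsLocalRing.ResidueField V)
  have : CharP F p := (Algebra.charP_iff F K p).2 inferInstance
  have : CharP (IsLocalRing.ResidueField V) p := (Algebra.charP_iff F _ p).1 inferInstance
  obtain ⟨r, -, hr⟩ := FiniteField.card (IsLocalRing.ResidueField V) p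
  refine ⟨r, r.2, fun a ha => (hres ((⟨a, ha⟩ : V) ^ p ^ (r : ℕ) - ⟨a, ha⟩)).1 ?_⟩
  rw [map_sub, map_pow, ← hr, FiniteField.pow_card, sub_self]

theorem exists_cm {F K : Type} [Field F] [Finite F] [Field K] [Algebra F K] (hK : FF F K)
    {v : Valuation K ℤᵐ⁰} (hv : Function.Surjective v) {p : ℕ} [Fact p.Prime] [CharP K p]
    [Algebra K v.Completion] (h : ∀ a, algebraMap K v.Completion a = toHat v a) :
    Nonempty (Cm v v.Completion (AlgebraicClosure v.Completion) p) := by
  obtain ⟨val, h1, h2, h3⟩ := exists_spec hv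
  obtain ⟨w, w0, w1⟩ := loc_unif hv
  obtain ⟨r, hr, hres⟩ := res_finite hK hv (p := p)
  have hK' : ∀ a, algebraMap K (AlgebraicClosure v.Completion) a =
      algebraMap v.Completion _ (toHat v a) := fun a => by
    rw [IsScalarTower.algebraMap_apply K v.Completion, h]
  have cmp : (val.comap (algebraMap K (AlgebraicClosure v.Completion))).IsEquiv v := fun a b => by
    rw [← p2_val v a, ← p2_val v b, ← h2, Valuation.comap_apply, Valuation.comap_apply, hK', hK']
    rfl
  have w2 : val (algebraMap v.Completion _ (toHat v w)) < 1 := by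
    rw [← hK']
    exact cmp.lt_one_iff_lt_one.2 w1
  have dns : ∀ (z : v.Completion) (ε : ℝ≥0), 0 < ε → ∃ a : K,
      val (algebraMap v.Completion _ z - algebraMap K (AlgebraicClosure v.Completion) a) ≤ ε := by
    intro z ε hε
    obtain ⟨M, hM⟩ := NNReal.exists_pow_lt_of_lt_one hε w2
    have hu : toHat v w ^ M ≠ 0 := pow_ne_zero _ ((map_ne_zero _).mpr w0)
    have hc : Continuous fun y : v.Completion => (toHat v w ^ M)⁻¹ * (z - y) := by fun_prop
    have ho : IsOpen ((fun y : v.Completion => (toHat v w ^ M)⁻¹ * (z - y)) ⁻¹'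
        ((Valued.v : Valuation v.Completion ℤᵐ⁰).integer : Set v.Completion)) :=
      (Valued.isOpen_integer _).preimage hc
    obtain ⟨a, ha⟩ := (p2_dense v).exists_mem_open ho ⟨z, by
      simp only [Set.mem_preimage, sub_self, mul_zero]
      exact zero_mem _⟩
    have h4 := h2.le_one_iff_le_one.2 ha
    refine ⟨a, le_trans ?_ hM.le⟩
    rw [hK', ← map_sub, ← mul_inv_cancel_left₀ hu (z - toHat v a), map_mul, map_mul, map_pow,
      map_pow]
    exact mul_le_of_le_one_right' h4
  refine ⟨⟨⟨val, h1, h3, toHat v w, (map_ne_zero _).mpr w0, w2, r, hr, fun z hz => ?_⟩, cmp, dns⟩⟩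
  obtain ⟨a, ha⟩ := dns z (1 / 2) (by norm_num)
  have ha1 := ha.trans_lt (show (1 / 2 : ℝ≥0) < 1 by norm_num)
  have : CharP (AlgebraicClosure v.Completion) p := (Algebra.charP_iff K _ p).1 inferInstance
  have h5 : val (algebraMap K (AlgebraicClosure v.Completion) a) ≤ 1 := by
    rw [← sub_sub_cancel (algebraMap v.Completion _ z) (algebraMap K _ a)]
    exact val.map_sub_le hz ha1.le
  have h6 := cmp.lt_one_iff_lt_one.2 (hres a (cmp.le_one_iff_le_one.1 h5))
  rw [Valuation.comap_apply, map_sub, map_pow] at h6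
  rw [map_sub, map_pow]
  generalize algebraMap v.Completion (AlgebraicClosure v.Completion) z = Z at ha1
  generalize algebraMap K (AlgebraicClosure v.Completion) a = A at ha1 h6
  have e : Z ^ p ^ r - Z = (Z - A) ^ p ^ r + (A ^ p ^ r - A) - (Z - A) := by
    rw [sub_pow_char_pow]
    ring
  rw [e]
  refine val.map_sub_lt (val.map_add_lt ?_ h6) ha1
  rw [map_pow]
  exact pow_lt_one₀ zero_le ha1 (pow_ne_zero _ (Fact.out : p.Prime).ne_zero)

variable {K L Λ : Type} [Field K] [Field L] [Field Λ] [Algebra K L] [Algebra L Λ] [Algebra K Λ]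
  [IsScalarTower K L Λ] {v : Valuation K ℤᵐ⁰} {p : ℕ}

theorem Cm.le_iff (D : Cm v L Λ p) (a b : K) :
    D.val (algebraMap K Λ a) ≤ D.val (algebraMap K Λ b) ↔ v a ≤ v b := D.cmp a b

theorem Cm.comap (D : Cm v L Λ p) :
    D.val.valuationSubring.comap (algebraMap K Λ) = v.valuationSubring := by
  ext a
  exact D.cmp.le_one_iff_le_one

theorem Cm.small (D : Cm v L Λ p) {ε : ℝ≥0} (hε : 0 < ε) :
    ∃ c : K, c ≠ 0 ∧ D.val (algebraMap K Λ c) ≤ ε := by
  have h0 : 0 < D.val (algebraMap L Λ D.π) :=
    D.val.pos_iff.2 ((map_ne_zero _).mpr D.π0)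
  obtain ⟨a, ha⟩ := D.dns D.π _ (half_pos h0)
  have h1 := ha.trans_lt (half_lt_self h0)
  have h2 : D.val (algebraMap K Λ a) = D.val (algebraMap L Λ D.π) := by
    rw [← sub_sub_cancel (algebraMap L Λ D.π) (algebraMap K Λ a)]
    exact D.val.map_sub_eq_of_lt_left h1
  obtain ⟨M, hM⟩ := NNReal.exists_pow_lt_of_lt_one hε D.π1
  refine ⟨a ^ M, pow_ne_zero _ ?_, by rw [map_pow, map_pow, h2]; exact hM.le⟩
  rintro rfl
  rw [map_zero, map_zero] at h2
  exact h0.ne h2

theorem loc_approx (D : Cm v L Λ p) (g : L[X]) {δ : ℝ≥0} (hδ : 0 < δ) (m : ℕ) : ∃ g0 : K[X],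
    g0.degree < m ∧ ∀ i < m,
      D.val (algebraMap L Λ ((g0.map (algebraMap K L)).coeff i - g.coeff i)) ≤ δ := by
  choose a ha using fun i => D.dns (g.coeff i) δ hδ
  refine ⟨∑ i ∈ Finset.range m, Polynomial.monomial i (a i), ?_, fun i hi => ?_⟩
  · refine (Polynomial.degree_sum_le _ _).trans_lt ((Finset.sup_lt_iff (WithBot.bot_lt_coe _)).2
      fun i hi => (Polynomial.degree_monomial_le _ _).trans_lt ?_)
    exact_mod_cast Finset.mem_range.1 hi
  · rw [Polynomial.coeff_map, Polynomial.finsetSum_coeff, map_sub, ← IsScalarTower.algebraMap_apply,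
      Valuation.map_sub_swap]
    simpa [Polynomial.coeff_monomial, hi] using ha i

theorem Cm.approx_poly (D : Cm v L Λ p) (g : L[X]) {δ : ℝ≥0} (hδ : 0 < δ) : ∃ g0 : K[X], ∀ i,
    D.val (algebraMap L Λ ((g0.map (algebraMap K L)).coeff i - g.coeff i)) ≤ δ := by
  obtain ⟨g0, h1, h2⟩ := loc_approx D g hδ (g.natDegree + 1)
  refine ⟨g0, fun i => (lt_or_ge i (g.natDegree + 1)).elim (h2 i) fun hi => ?_⟩
  rw [Polynomial.coeff_map, Polynomial.coeff_eq_zero_of_natDegree_lt hi,
    Polynomial.coeff_eq_zero_of_degree_lt (h1.trans_le (by exact_mod_cast hi))]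
  simp

theorem Cm.approx_monic (D : Cm v L Λ p) {g : L[X]} (hg : g.Monic) {δ : ℝ≥0} (hδ : 0 < δ) :
    ∃ g0 : K[X], g0.Monic ∧ g0.natDegree = g.natDegree ∧ ∀ i,
      D.val (algebraMap L Λ ((g0.map (algebraMap K L)).coeff i - g.coeff i)) ≤ δ := by
  obtain ⟨g0, h1, h2⟩ := loc_approx D g hδ g.natDegree
  refine ⟨Polynomial.X ^ g.natDegree + g0, Polynomial.monic_X_pow_add h1, ?_, fun i => ?_⟩
  · rw [Polynomial.natDegree_add_eq_left_of_degree_lt (by rwa [Polynomial.degree_X_pow]),
      Polynomial.natDegree_X_pow]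
  · rw [Polynomial.coeff_map, Polynomial.coeff_add, Polynomial.coeff_X_pow]
    rcases lt_trichotomy i g.natDegree with hi | rfl | hi
    · rw [if_neg hi.ne, zero_add, ← Polynomial.coeff_map]
      exact h2 i hi
    · rw [Polynomial.coeff_eq_zero_of_degree_lt h1, hg.coeff_natDegree]
      simp
    · rw [Polynomial.coeff_eq_zero_of_natDegree_lt hi, if_neg hi.ne',
        Polynomial.coeff_eq_zero_of_degree_lt (h1.trans (by exact_mod_cast hi))]
      simp

end Pool.Agent.CE
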