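import Pool.Agent.Lib.MP_72c364_ag.IDefs

/-! Estimates for real valuations and the matching of roots. -/

namespace Pool.Agent.CE

open scoped Classical Polynomial NNReal

variable {Λ : Type} [Field Λ] {val : Valuation Λ ℝ≥0} {M : Type} [Field M] [Algebra M Λ]

theorem mem_Og {z : M} : z ∈ Og val M ↔ val (algebraMap M Λ z) ≤ 1 := Iff.rfl

theorem og_mem_span {η z : Og val M} :
    z ∈ Ideal.span {η} ↔ val (algebraMap M Λ z) ≤ val (algebraMap M Λ η) :=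
  Ideal.mem_span_singleton.trans
    (Valuation.integer.integers (val.comap (algebraMap M Λ))).dvd_iff_le

theorem og_unit {z : Og val M} : IsUnit z ↔ val (algebraMap M Λ z) = 1 :=
  (Valuation.integer.integers (val.comap (algebraMap M Λ))).isUnit_iff_valuation_eq_one

theorem og_arch {π : M} (h : val (algebraMap M Λ π) < 1) (z : M) :
    ∃ N : ℕ, π ^ N * z ∈ Og val M := by
  have h0 : 0 < val (algebraMap M Λ z) + 1 := by positivity
  obtain ⟨N, hN⟩ := NNReal.exists_pow_lt_of_lt_one (inv_pos.2 h0) h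
  refine ⟨N, mem_Og.2 ?_⟩
  rw [map_mul, map_mul, map_pow, map_pow, ← inv_mul_cancel₀ h0.ne']
  exact mul_le_mul' hN.le le_self_add

theorem val_eval_le {σ : Type} {g : MvPolynomial σ Λ} {δ : ℝ≥0} (hg : ∀ μ, val (g.coeff μ) ≤ δ)
    {x : σ → Λ} (hx : ∀ a, val (x a) ≤ 1) : val (MvPolynomial.eval x g) ≤ δ := by
  rw [MvPolynomial.eval_eq]
  refine val.map_sum_le fun μ _ => ?_
  rw [map_mul, map_prod, ← mul_one δ]
  refine mul_le_mul' (hg μ) (Finset.prod_le_one' fun a _ => ?_)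
  rw [map_pow]
  exact pow_le_one' (hx a) _

theorem valb_prod_sub {ι : Type} {s : Finset ι} {f g : ι → Λ} {ε : ℝ≥0} (hf : ∀ i, val (f i) ≤ 1)
    (hg : ∀ i, val (g i) ≤ 1) (h : ∀ i, val (f i - g i) ≤ ε) :
    val (∏ i ∈ s, f i - ∏ i ∈ s, g i) ≤ ε := by
  induction s using Finset.induction_on with
  | empty => simp
  | insert a s ha ih =>
    have h1 : ∏ i ∈ insert a s, f i - ∏ i ∈ insert a s, g i =
        f a * (∏ i ∈ s, f i - ∏ i ∈ s, g i) + (f a - g a) * ∏ i ∈ s, g i := by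
      rw [Finset.prod_insert ha, Finset.prod_insert ha]
      ring
    rw [h1]
    refine val.map_add_le ?_ ?_
    · rw [map_mul, ← one_mul ε]
      exact mul_le_mul' (hf a) ih
    · rw [map_mul, map_prod, ← mul_one ε]
      exact mul_le_mul' (h a) (Finset.prod_le_one' fun i _ => hg i)

theorem valb_pow_sub {x y : Λ} {ε : ℝ≥0} (hx : val x ≤ 1) (hy : val y ≤ 1) (h : val (x - y) ≤ ε)
    (k : ℕ) : val (x ^ k - y ^ k) ≤ ε := by
  have h1 := valb_prod_sub (s := Finset.range k) (f := fun _ => x) (g := fun _ => y)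
    (fun _ => hx) (fun _ => hy) (fun _ => h)
  rwa [Finset.prod_const, Finset.prod_const, Finset.card_range] at h1

theorem valb_eval_sub {σ : Type} {g : MvPolynomial σ Λ} {c : ℝ≥0} (hg : ∀ μ, val (g.coeff μ) ≤ c)
    {x y : σ → Λ} (hx : ∀ a, val (x a) ≤ 1) (hy : ∀ a, val (y a) ≤ 1) {ε : ℝ≥0}
    (h : ∀ a, val (x a - y a) ≤ ε) :
    val (MvPolynomial.eval x g - MvPolynomial.eval y g) ≤ c * ε := by
  rw [MvPolynomial.eval_eq, MvPolynomial.eval_eq, ← Finset.sum_sub_distrib]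
  refine val.map_sum_le fun μ _ => ?_
  rw [← mul_sub, map_mul]
  refine mul_le_mul' (hg μ) (valb_prod_sub (fun a => ?_) (fun a => ?_)
    fun a => valb_pow_sub (hx a) (hy a) (h a) _)
  · rw [map_pow]
    exact pow_le_one' (hx a) _
  · rw [map_pow]
    exact pow_le_one' (hy a) _

theorem valb_bound {ι : Type} (s : Finset ι) (f : ι → ℝ≥0) (h : ∀ i, i ∉ s → f i = 0) :
    ∃ c : ℝ≥0, 1 ≤ c ∧ ∀ i, f i ≤ c := by
  refine ⟨max 1 (s.sup f), le_max_left _ _, fun i => ?_⟩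
  by_cases hi : i ∈ s
  · exact (Finset.le_sup hi).trans (le_max_right _ _)
  · rw [h i hi]
    exact zero_le

theorem val_eval_sub_le {σ : Type} {g : MvPolynomial σ Λ} (hg : ∀ μ, val (g.coeff μ) ≤ 1)
    {x y : σ → Λ} (hx : ∀ a, val (x a) ≤ 1) (hy : ∀ a, val (y a) ≤ 1) {ε : ℝ≥0}
    (h : ∀ a, val (x a - y a) ≤ ε) :
    val (MvPolynomial.eval x g - MvPolynomial.eval y g) ≤ ε := by
  simpa using valb_eval_sub hg hx hy h

theorem val_aeval_le {g : M[X]} {δ : ℝ≥0} (hg : ∀ i, val (algebraMap M Λ (g.coeff i)) ≤ δ)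
    {z : Λ} (hz : val z ≤ 1) : val (Polynomial.aeval z g) ≤ δ := by
  rw [Polynomial.aeval_eq_sum_range]
  refine val.map_sum_le fun i _ => ?_
  rw [Algebra.smul_def, map_mul, map_pow, ← mul_one δ]
  exact mul_le_mul' (hg i) (pow_le_one' hz _)

/-- continuity of the evaluation of polynomials -/
theorem val_aeval_near (g : M[X]) {ε : ℝ≥0} (hε : 0 < ε) : ∃ δ : ℝ≥0, 0 < δ ∧
    ∀ (g' : M[X]) (z z' : Λ), (∀ i, val (algebraMap M Λ (g'.coeff i - g.coeff i)) ≤ δ) →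
      val z ≤ 1 → val z' ≤ 1 → val (z' - z) ≤ δ →
        val (Polynomial.aeval z' g' - Polynomial.aeval z g) ≤ ε := by
  obtain ⟨c, h1, hc⟩ := valb_bound g.support (fun i => val (algebraMap M Λ (g.coeff i)))
    (fun i hi => by rw [Polynomial.notMem_support_iff.1 hi, map_zero, map_zero])
  have h0 : 0 < c := one_pos.trans_le h1
  refine ⟨ε / c, div_pos hε h0, fun g' z z' h2 h3 h4 h5 => ?_⟩
  have h6 : Polynomial.aeval z' g' - Polynomial.aeval z g =
      Polynomial.aeval z' (g' - g) + (Polynomial.aeval z' g - Polynomial.aeval z g) := by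
    rw [map_sub]
    ring
  rw [h6]
  refine val.map_add_le ?_ ?_
  · exact (val_aeval_le (fun i => by rw [Polynomial.coeff_sub]; exact h2 i) h4).trans
      (div_le_self zero_le h1)
  · rw [Polynomial.aeval_eq_sum_range, Polynomial.aeval_eq_sum_range, ← Finset.sum_sub_distrib]
    refine val.map_sum_le fun i _ => ?_
    rw [← smul_sub, Algebra.smul_def, map_mul, ← mul_div_cancel₀ ε h0.ne']
    exact mul_le_mul' (hc i) (valb_pow_sub h4 h3 h5 i)

theorem val_eval_near {σ : Type} (g : MvPolynomial σ Λ) {ε : ℝ≥0} (hε : 0 < ε) :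
    ∃ δ : ℝ≥0, 0 < δ ∧ ∀ x y : σ → Λ, (∀ a, val (x a) ≤ 1) → (∀ a, val (y a) ≤ 1) →
      (∀ a, val (x a - y a) ≤ δ) → val (MvPolynomial.eval x g - MvPolynomial.eval y g) ≤ ε := by
  obtain ⟨c, h1, hc⟩ := valb_bound g.support (fun μ => val (g.coeff μ))
    (fun μ hi => by rw [MvPolynomial.notMem_support_iff.1 hi, map_zero])
  have h0 : 0 < c := one_pos.trans_le h1
  refine ⟨ε / c, div_pos hε h0, fun x y hx hy h => ?_⟩
  have h2 := valb_eval_sub hc hx hy h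
  rwa [mul_div_cancel₀ ε h0.ne'] at h2

/-- a positive lower bound for finitely many positive numbers -/
theorem exists_lb {α : Type} {s : Set α} (hs : s.Finite) {P : α → ℝ≥0 → Prop}
    (h1 : ∀ a ∈ s, ∃ ε, 0 < ε ∧ P a ε) (h2 : ∀ a ε ε', ε' ≤ ε → P a ε → P a ε') :
    ∃ ε, 0 < ε ∧ ε < 1 ∧ ∀ a ∈ s, P a ε := by
  induction s, hs using Set.Finite.induction_on with
  | empty => exact ⟨2⁻¹, by norm_num, by norm_num, fun a ha => absurd ha (Set.notMem_empty a)⟩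
  | @insert a s _ _ ih =>
    obtain ⟨ε, h3, h4, h5⟩ := ih fun b hb => h1 b (Set.mem_insert_of_mem _ hb)
    obtain ⟨ε', h6, h7⟩ := h1 a (Set.mem_insert _ _)
    refine ⟨min ε ε', lt_min h3 h6, (min_le_left _ _).trans_lt h4, ?_⟩
    rintro b (rfl | hb)
    · exact h2 _ _ _ (min_le_right _ _) h7
    · exact h2 _ _ _ (min_le_left _ _) (h5 b hb)

/-- a non-zero vector has a primitive multiple -/
theorem exists_primitive {σ : Type} [Fintype σ] {x : σ → M} (hx : x ≠ 0) : ∃ t : M, t ≠ 0 ∧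
    (∀ a, val (algebraMap M Λ (t * x a)) ≤ 1) ∧ ∃ a, t * x a = 1 := by
  obtain ⟨b, hb⟩ := Function.ne_iff.1 hx
  obtain ⟨a, -, ha⟩ := Finset.exists_max_image Finset.univ (fun a => val (algebraMap M Λ (x a)))
    ⟨b, Finset.mem_univ b⟩
  have h1 : 0 < val (algebraMap M Λ (x b)) :=
    val.pos_iff.2 ((map_ne_zero (algebraMap M Λ)).2 hb)
  have h2 : 0 < val (algebraMap M Λ (x a)) := h1.trans_le (ha b (Finset.mem_univ b))
  have h3 : x a ≠ 0 := (map_ne_zero (algebraMap M Λ)).1 (val.pos_iff.1 h2)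
  refine ⟨(x a)⁻¹, inv_ne_zero h3, fun c => ?_, a, inv_mul_cancel₀ h3⟩
  rw [map_mul, map_mul, map_inv₀, map_inv₀, inv_mul_le_iff₀ h2, mul_one]
  exact ha c (Finset.mem_univ c)

theorem valb_big {g : M[X]} {δ : ℝ≥0} {D : ℕ} (hD : g.natDegree ≤ D)
    (hg : ∀ i, val (algebraMap M Λ (g.coeff i)) ≤ δ) {z : Λ} (hz : 1 ≤ val z) :
    val (Polynomial.aeval z g) ≤ δ * val z ^ D := by
  rw [Polynomial.aeval_eq_sum_range]
  refine val.map_sum_le fun i hi => ?_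
  rw [Algebra.smul_def, map_mul, map_pow]
  exact mul_le_mul' (hg i)
    (pow_le_pow_right₀ hz ((Nat.lt_succ_iff.1 (Finset.mem_range.1 hi)).trans hD))

theorem valb_prod [IsAlgClosed Λ] {ψ : M[X]} (hm : ψ.Monic) (θ : Λ) :
    val (Polynomial.aeval θ ψ) = ((ψ.aroots Λ).map fun ρ => val (θ - ρ)).prod := by
  rw [← Polynomial.eval_map_algebraMap, (IsAlgClosed.splits _).eval_eq_prod_roots,
    (hm.map _).leadingCoeff, one_mul, map_multiset_prod, Multiset.map_map]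
  rfl

theorem valb_near [IsAlgClosed Λ] {ψ : M[X]} (hm : ψ.Monic) {e : ℝ≥0} (h0 : 0 < e) (h1 : e < 1)
    {θ : Λ} (h : val (Polynomial.aeval θ ψ) ≤ e ^ (ψ.natDegree + 1)) :
    ∃ ρ ∈ ψ.aroots Λ, val (θ - ρ) ≤ e := by
  by_contra h2
  push Not at h2
  have h3 : e ^ ψ.natDegree ≤ val (Polynomial.aeval θ ψ) := by
    have h4 := Multiset.pow_card_le_prod (s := (ψ.aroots Λ).map fun ρ => val (θ - ρ)) (a := e)
      fun x hx => by
        obtain ⟨ρ, h5, rfl⟩ := Multiset.mem_map.1 hx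
        exact (h2 ρ h5).le
    rwa [Multiset.card_map, IsAlgClosed.card_aroots_eq_natDegree, ← valb_prod hm] at h4
  exact absurd (h3.trans h) (not_le.2 (pow_lt_pow_right_of_lt_one₀ h0 h1 (Nat.lt_succ_self _)))

/-- the roots of a polynomial close to a separable one -/
theorem exists_match [IsAlgClosed Λ] (inv : ∀ (γ : Λ ≃ₐ[M] Λ) (z : Λ), val (γ z) = val z)
    {ψ : M[X]} (hm : ψ.Monic) (hs : ψ.Separable) (hi : ∀ ρ ∈ ψ.aroots Λ, val ρ ≤ 1)
    {ε : ℝ≥0} (hε : 0 < ε) : ∃ δ : ℝ≥0, 0 < δ ∧ ∀ φ : M[X], φ.Monic → φ.natDegree = ψ.natDegree →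
      (∀ i, val (algebraMap M Λ (φ.coeff i - ψ.coeff i)) ≤ δ) →
      φ.Separable ∧ ∃ r : Λ → Λ, (φ.aroots Λ).map r = ψ.aroots Λ ∧
        (∀ θ ∈ φ.aroots Λ, val θ ≤ 1 ∧ val (θ - r θ) ≤ ε) ∧
        ∀ (γ : Λ ≃ₐ[M] Λ), ∀ θ ∈ φ.aroots Λ, r (γ θ) = γ (r θ) := by
  obtain ⟨e0, h1, h2, h3⟩ := exists_lb (α := Λ × Λ)
    (P := fun a e => a.1 ≠ a.2 → e < val (a.1 - a.2))
    (Finset.finite_toSet ((ψ.aroots Λ).toFinset ×ˢ (ψ.aroots Λ).toFinset))
    (fun a _ => by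
      by_cases h : a.1 = a.2
      · exact ⟨1, one_pos, fun h' => absurd h h'⟩
      · have h0 : 0 < val (a.1 - a.2) := val.pos_iff.2 (sub_ne_zero.2 h)
        exact ⟨val (a.1 - a.2) / 2, half_pos h0, fun _ => half_lt_self h0⟩)
    (fun a e e' h h' h'' => h.trans_lt (h' h''))
  obtain ⟨e, he0, he1, he2, he3⟩ : ∃ e : ℝ≥0, 0 < e ∧ e < 1 ∧ e ≤ ε ∧ e ≤ e0 :=
    ⟨min ε e0, lt_min hε h1, (min_le_right _ _).trans_lt h2, min_le_left _ _, min_le_right _ _⟩
  have huniq : ∀ θ, ∀ ρ ∈ ψ.aroots Λ, ∀ ρ' ∈ ψ.aroots Λ, val (θ - ρ) ≤ e → val (θ - ρ') ≤ e →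
      ρ = ρ' := by
    intro θ ρ hρ ρ' hρ' h4 h5
    by_contra h6
    have h7 := h3 (ρ, ρ') (by simp only [Finset.coe_product, Set.mem_prod, Finset.mem_coe,
      Multiset.mem_toFinset]; exact ⟨hρ, hρ'⟩) h6
    have h8 := val.map_sub_le h5 h4
    rw [sub_sub_sub_cancel_left] at h8
    exact absurd (h8.trans he3) (not_le.2 h7)
  refine ⟨e ^ (ψ.natDegree + 1), pow_pos he0 _, fun φ hφ hd hc => ?_⟩
  have hc1 : ∀ i, val (algebraMap M Λ ((φ - ψ).coeff i)) ≤ e ^ (ψ.natDegree + 1) := fun i => by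
    rw [Polynomial.coeff_sub]
    exact hc i
  have hroot : ∀ θ ∈ φ.aroots Λ,
      val (Polynomial.aeval θ ψ) = val (Polynomial.aeval θ (φ - ψ)) := by
    intro θ hθ
    rw [map_sub, (Polynomial.mem_aroots.1 hθ).2, zero_sub, val.map_neg]
  have hint : ∀ θ ∈ φ.aroots Λ, val θ ≤ 1 := by
    intro θ hθ
    by_contra h4
    rw [not_le] at h4
    have h5 : val (Polynomial.aeval θ ψ) = val θ ^ ψ.natDegree := by
      rw [valb_prod hm, Multiset.map_congr rfl fun ρ hρ =>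
        val.map_sub_eq_of_lt_left ((hi ρ hρ).trans_lt h4), Multiset.map_const',
        Multiset.prod_replicate, IsAlgClosed.card_aroots_eq_natDegree]
    have h6 := valb_big (D := ψ.natDegree)
      ((Polynomial.natDegree_sub_le φ ψ).trans (by rw [hd, max_self])) hc1 h4.le
    rw [← hroot θ hθ, h5] at h6
    exact absurd h6 (not_le.2 (mul_lt_of_lt_one_left (pow_pos (one_pos.trans h4) _)
      (pow_lt_one₀ zero_le he1 (Nat.succ_ne_zero _))))
  have hex : ∀ θ ∈ φ.aroots Λ, ∃ ρ ∈ ψ.aroots Λ, val (θ - ρ) ≤ e := fun θ hθ =>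
    valb_near hm he0 he1 (by rw [hroot θ hθ]; exact val_aeval_le hc1 (hint θ hθ))
  choose! r hr1 hr2 using hex
  have hle : ψ.aroots Λ ≤ (φ.aroots Λ).map r := by
    rw [Multiset.le_iff_subset
      ((Polynomial.nodup_aroots_iff_of_splits hm.ne_zero (IsAlgClosed.splits _)).2 hs)]
    intro ρ hρ
    obtain ⟨θ, h4, h5⟩ := valb_near (θ := ρ) hφ he0 he1 (by
      have h6 := val_aeval_le hc1 (hi ρ hρ)
      rwa [map_sub, (Polynomial.mem_aroots.1 hρ).2, sub_zero, ← hd] at h6)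
    rw [val.map_sub_swap] at h5
    exact Multiset.mem_map.2 ⟨θ, h4, huniq θ _ (hr1 θ h4) _ hρ (hr2 θ h4) h5⟩
  have heq : ψ.aroots Λ = (φ.aroots Λ).map r := Multiset.eq_of_le_of_card_le hle (by
    rw [Multiset.card_map, IsAlgClosed.card_aroots_eq_natDegree,
      IsAlgClosed.card_aroots_eq_natDegree, hd])
  have hγ : ∀ (γ : Λ ≃ₐ[M] Λ) (f : M[X]), ∀ θ ∈ f.aroots Λ, γ θ ∈ f.aroots Λ := by
    intro γ f θ hθ
    rw [Polynomial.mem_aroots] at hθ ⊢
    exact ⟨hθ.1, by rw [Polynomial.aeval_algHom_apply, hθ.2, map_zero]⟩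
  refine ⟨?_, r, heq.symm, fun θ hθ => ⟨hint θ hθ, (hr2 θ hθ).trans he2⟩, fun γ θ hθ => ?_⟩
  · refine (Polynomial.nodup_aroots_iff_of_splits (K := Λ) hφ.ne_zero (IsAlgClosed.splits _)).1
      (Multiset.Nodup.of_map r ?_)
    rw [← heq]
    exact (Polynomial.nodup_aroots_iff_of_splits hm.ne_zero (IsAlgClosed.splits _)).2 hs
  · refine huniq (γ θ) _ (hr1 _ (hγ γ φ θ hθ)) _ (hγ γ ψ _ (hr1 θ hθ)) (hr2 _ (hγ γ φ θ hθ)) ?_
    rw [← map_sub, inv]
    exact hr2 θ hθ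

end Pool.Agent.CE
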