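import Pool.Agent.Lib.MP_72c364_ag.OrbA
import Pool.Agent.Lib.MP_72c364_ag.ValB
import Pool.Agent.Lib.MP_751085_ag.P2

/-! Effective cycles as sums over the roots of a separable polynomial. -/

namespace Pool.Agent.CE

open scoped Classical Polynomial NNReal

variable {L Λ : Type} [Field L] [Field Λ] [Algebra L Λ] [IsAlgClosed Λ] {n : ℕ}
  {f : MvPolynomial (Fin n) L}

theorem qr_pow {q : ℕ} (hq : 0 < q) (z : Λ) : qr q z ^ q = z :=
  Function.invFun_eq (f := fun w : Λ => w ^ q) (IsAlgClosed.exists_pow_nat_eq z hq)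

theorem qr_eq {p : ℕ} [Fact p.Prime] [CharP Λ p] {a : ℕ} {w z : Λ} (h : w ^ p ^ a = z) :
    qr (p ^ a) z = w := by
  have hi : Function.Injective fun w : Λ => w ^ p ^ a := (iterateFrobenius Λ p a).injective
  rw [← h]
  exact Function.leftInverse_invFun hi w

theorem yv_map {p : ℕ} [Fact p.Prime] [CharP Λ p] (a : ℕ) (Y : Fin n → L[X]) (γ : Λ ≃ₐ[L] Λ)
    (ρ : Λ) (i : Fin n) : yv (p ^ a) Y (γ ρ) i = γ (yv (p ^ a) Y ρ i) := by
  refine qr_eq ?_
  rw [← map_pow, yv, qr_pow (pow_pos (Fact.out : p.Prime).pos a)]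
  exact (Polynomial.aeval_algHom_apply γ ρ (Y i)).symm

theorem Rep.ne {val : Valuation Λ ℝ≥0} {q : ℕ} {φ : L[X]} {Y : Fin n → L[X]} {Z : Cy Λ n}
    (h : Rep val f q φ Y Z) {ρ : Λ} (hρ : ρ ∈ φ.aroots Λ) : yv q Y ρ ≠ 0 := by
  intro e
  obtain ⟨a, ha⟩ := h.pr ρ hρ
  rw [e, Pi.zero_apply, map_zero] at ha
  exact zero_ne_one ha

theorem Rep.degree {val : Valuation Λ ℝ≥0} {q : ℕ} {φ : L[X]} {Y : Fin n → L[X]} {Z : Cy Λ n}
    (h : Rep val f q φ Y Z) : Finsupp.degree Z = φ.natDegree := by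
  rw [h.sum, map_multiset_sum, Multiset.map_map, Function.comp_def,
    Multiset.map_congr rfl (g := fun _ => 1) fun ρ hρ => degree_pt (h.ne hρ),
    Multiset.map_const', Multiset.sum_replicate, IsAlgClosed.card_aroots_eq_natDegree,
    nsmul_one]

omit [IsAlgClosed Λ] in
theorem rep_aroots (φ : L[X]) (c : L) : (φ.comp (Polynomial.X - Polynomial.C c)).aroots Λ =
    (φ.aroots Λ).map fun ρ => ρ + algebraMap L Λ c := by
  have h := Polynomial.roots_comp_C_mul_X_add_C (φ.map (algebraMap L Λ)) 1 (-algebraMap L Λ c)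
    isUnit_one
  simp only [map_one, one_mul, Ring.inverse_one, sub_neg_eq_add, map_neg] at h
  rw [Polynomial.aroots_def, Polynomial.map_comp, Polynomial.map_sub, Polynomial.map_X,
    Polynomial.map_C, sub_eq_add_neg, h]

theorem rep_shift {val : Valuation Λ ℝ≥0} {q : ℕ} {φ : L[X]} {Y : Fin n → L[X]} {Z : Cy Λ n}
    (h : Rep val f q φ Y Z) {c : L} (hc : val (algebraMap L Λ c) ≤ 1) :
    Rep val f q (φ.comp (Polynomial.X - Polynomial.C c))
      (fun j => (Y j).comp (Polynomial.X - Polynomial.C c)) Z := by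
  have h1 : ∀ ρ : Λ, yv q (fun j => (Y j).comp (Polynomial.X - Polynomial.C c))
      (ρ + algebraMap L Λ c) = yv q Y ρ := by
    intro ρ
    funext j
    rw [yv, yv, Polynomial.aeval_comp, map_sub, Polynomial.aeval_X, Polynomial.aeval_C,
      add_sub_cancel_right]
  have hm := h.mon.comp_X_sub_C c
  refine ⟨hm, ?_, ?_, ?_, ?_, ?_, ?_⟩
  · rw [← Polynomial.nodup_aroots_iff_of_splits (K := Λ) hm.ne_zero (IsAlgClosed.splits _),
      rep_aroots]
    exact ((Polynomial.nodup_aroots_iff_of_splits h.mon.ne_zero (IsAlgClosed.splits _)).2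
      h.sep).map (add_left_injective _)
  · rw [rep_aroots, Multiset.forall_mem_map_iff]
    exact fun ρ hρ => val.map_add_le (h.int ρ hρ) hc
  · rw [rep_aroots, Multiset.forall_mem_map_iff]
    simpa only [h1] using h.le
  · rw [rep_aroots, Multiset.forall_mem_map_iff]
    simpa only [h1] using h.pr
  · rw [rep_aroots, Multiset.forall_mem_map_iff]
    simpa only [h1] using h.zero
  · rw [rep_aroots, Multiset.map_map]
    simpa only [Function.comp_def, h1] using h.sum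

theorem rep_add {val : Valuation Λ ℝ≥0} {q : ℕ} {φ φ' : L[X]} {Y Y' : Fin n → L[X]}
    {Z Z' : Cy Λ n} (h : Rep val f q φ Y Z) (h' : Rep val f q φ' Y' Z')
    (hd : ∀ ρ ∈ φ.aroots Λ, ρ ∉ φ'.aroots Λ) :
    ∃ (ψ : L[X]) (W : Fin n → L[X]), Rep val f q ψ W (Z + Z') := by
  have hc : IsCoprime φ φ' := by
    rw [Polynomial.isCoprime_iff_aeval_ne_zero_of_isAlgClosed L Λ]
    intro a
    by_contra e
    rw [not_or, not_not, not_not] at e
    exact hd a (Polynomial.mem_aroots.2 ⟨h.mon.ne_zero, e.1⟩)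
      (Polynomial.mem_aroots.2 ⟨h'.mon.ne_zero, e.2⟩)
  have hs := h.sep.mul h'.sep hc
  obtain ⟨u, w, huw⟩ := hc
  have hr := Polynomial.aroots_mul (S := Λ) (h.mon.mul h'.mon).ne_zero
  let W : Fin n → L[X] := fun j => Y j * (w * φ') + Y' j * (u * φ)
  have h1 : ∀ ρ ∈ φ.aroots Λ, yv q W ρ = yv q Y ρ := by
    intro ρ hρ
    have e := congrArg (Polynomial.aeval ρ) huw
    funext j
    simp only [map_add, map_mul, (Polynomial.mem_aroots.1 hρ).2, mul_zero, zero_add, map_one] at e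
    simp only [yv, W, map_add, map_mul, (Polynomial.mem_aroots.1 hρ).2, e, mul_zero, add_zero,
      mul_one]
  have h2 : ∀ ρ ∈ φ'.aroots Λ, yv q W ρ = yv q Y' ρ := by
    intro ρ hρ
    have e := congrArg (Polynomial.aeval ρ) huw
    funext j
    simp only [map_add, map_mul, (Polynomial.mem_aroots.1 hρ).2, mul_zero, add_zero, map_one] at e
    simp only [yv, W, map_add, map_mul, (Polynomial.mem_aroots.1 hρ).2, e, mul_zero, zero_add,
      mul_one]
  refine ⟨φ * φ', W, h.mon.mul h'.mon, hs, ?_, ?_, ?_, ?_, ?_⟩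
  · intro ρ hρ
    rw [hr, Multiset.mem_add] at hρ
    exact hρ.elim (h.int ρ) (h'.int ρ)
  · intro ρ hρ
    rw [hr, Multiset.mem_add] at hρ
    exact hρ.elim (fun e => h1 ρ e ▸ h.le ρ e) fun e => h2 ρ e ▸ h'.le ρ e
  · intro ρ hρ
    rw [hr, Multiset.mem_add] at hρ
    exact hρ.elim (fun e => h1 ρ e ▸ h.pr ρ e) fun e => h2 ρ e ▸ h'.pr ρ e
  · intro ρ hρ
    rw [hr, Multiset.mem_add] at hρ
    exact hρ.elim (fun e => h1 ρ e ▸ h.zero ρ e) fun e => h2 ρ e ▸ h'.zero ρ e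
  · rw [hr, Multiset.map_add, Multiset.sum_add, h.sum, h'.sum,
      Multiset.map_congr rfl fun ρ e => congrArg pt (h1 ρ e),
      Multiset.map_congr rfl fun ρ e => congrArg pt (h2 ρ e)]

open scoped IntermediateField in
theorem rep_prim {E : Type} [Field E] [Algebra L E] [FiniteDimensional L E] {p : ℕ} (D : Lf L Λ p)
    (σ : E →ₐ[L] Λ) : ∃ θ : E, L⟮θ⟯ = separableClosure L E ∧ D.val (σ θ) ≤ 1 := by
  obtain ⟨α, hα⟩ := Field.exists_primitive_element L (separableClosure L E)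
  have h1 : L⟮(α : E)⟯ = separableClosure L E := by
    rw [← IntermediateField.lift_adjoin_simple, hα, IntermediateField.lift_top]
  obtain ⟨N, hN⟩ := og_arch (val := D.val) (M := Λ) (π := algebraMap L Λ D.π) D.π1 (σ α)
  have h0 : D.π ^ N ≠ 0 := pow_ne_zero _ D.π0
  refine ⟨D.π ^ N • (α : E), le_antisymm ?_ ?_, ?_⟩
  · rw [IntermediateField.adjoin_simple_le_iff]
    exact IntermediateField.smul_mem _ α.2
  · refine h1.symm.le.trans (IntermediateField.adjoin_simple_le_iff.2 ?_)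
    have h2 := IntermediateField.smul_mem _
      (IntermediateField.mem_adjoin_simple_self L (D.π ^ N • (α : E))) (x := (D.π ^ N)⁻¹)
    rwa [inv_smul_smul₀ h0] at h2
  · rw [map_smul, Algebra.smul_def, map_pow]
    exact hN

theorem rep_pow {E : Type} [Field E] [Algebra L E] [FiniteDimensional L E] {p : ℕ} [Fact p.Prime]
    [CharP L p] (x : Fin n → E) :
    ∃ a0 : ℕ, ∀ a, a0 ≤ a → ∀ j, x j ^ p ^ a ∈ separableClosure L E := by
  have : ExpChar (separableClosure L E) p :=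
    expChar_of_injective_algebraMap (algebraMap L _).injective p
  have h2 := fun j => IsPurelyInseparable.pow_mem (separableClosure L E) p (x j)
  choose a ha using h2
  refine ⟨∑ j, a j, fun a' h j => ?_⟩
  obtain ⟨b, hb⟩ := Nat.exists_eq_add_of_le
    ((Finset.single_le_sum (f := a) (fun _ _ => Nat.zero_le _) (Finset.mem_univ j)).trans h)
  obtain ⟨y, hy⟩ := ha j
  rw [hb, pow_add, pow_mul, ← hy]
  exact pow_mem y.2 _

theorem rep_orb [Algebra.IsAlgebraic L Λ] {p d : ℕ} [Fact p.Prime] [CharP L p] (D : Lf L Λ p)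
    (hf : f.IsHomogeneous d) {E : Type} [Field E] [Algebra L E] [FiniteDimensional L E]
    {x : Fin n → E} (hx : x ≠ 0) (h0 : MvPolynomial.aeval x f = 0) :
    ∃ a0 : ℕ, ∀ a, a0 ≤ a → ∃ (φ : L[X]) (Y : Fin n → L[X]),
      Rep D.val f (p ^ a) φ Y (orb L Λ x) := by
  have : CharP Λ p := charP_of_injective_algebraMap (algebraMap L Λ).injective p
  have : IsAlgClosure L Λ := ⟨inferInstance, inferInstance⟩
  let σ0 : E →ₐ[L] Λ := IsAlgClosed.lift
  obtain ⟨t, ht, h1, h2⟩ : ∃ t : E, t ≠ 0 ∧ (∀ a, D.val (σ0 (t * x a)) ≤ 1) ∧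
      ∃ a, t * x a = 1 := by
    let _ : Algebra E Λ := σ0.toRingHom.toAlgebra
    exact exists_primitive (val := D.val) hx
  obtain ⟨θ, hθ, hv⟩ := rep_prim D σ0
  obtain ⟨a0, ha0⟩ := rep_pow (L := L) (p := p) fun j => t * x j
  refine ⟨a0, fun a ha => ?_⟩
  have hi : IsIntegral L θ := IsIntegral.of_finite L θ
  have h3 : ∀ j, ∃ g : L[X], Polynomial.aeval θ g = (t * x j) ^ p ^ a := by
    intro j
    have h4 : (t * x j) ^ p ^ a ∈ Algebra.adjoin L {θ} := by
      rw [← IntermediateField.adjoin_simple_toSubalgebra_of_isAlgebraic hi.isAlgebraic, hθ]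
      exact ha0 a ha j
    rw [Algebra.adjoin_singleton_eq_range_aeval] at h4
    exact h4
  choose Y hY using h3
  have h4 : ∀ σ : E →ₐ[L] Λ, yv (p ^ a) Y (σ θ) = fun j => σ (t * x j) := by
    intro σ
    funext j
    refine qr_eq ?_
    rw [Polynomial.aeval_algHom_apply, hY, map_pow]
  have h5 : ∀ ρ ∈ (minpoly L θ).aroots Λ, ∃ γ : Λ ≃ₐ[L] Λ, ρ = γ (σ0 θ) ∧
      yv (p ^ a) Y ρ = fun j => γ (σ0 (t * x j)) := by
    intro ρ hρ
    have e : minpoly L ρ = minpoly L (σ0 θ) := by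
      rw [minpoly.algHom_eq σ0 σ0.injective]
      exact (minpoly.eq_of_irreducible_of_monic (minpoly.irreducible hi)
        (Polynomial.mem_aroots.1 hρ).2 (minpoly.monic hi)).symm
    obtain ⟨γ, rfl⟩ := (Normal.minpoly_eq_iff_mem_orbit Λ).1 e
    exact ⟨γ, rfl, h4 ((γ : Λ →ₐ[L] Λ).comp σ0)⟩
  have hs : (minpoly L θ).Separable := by
    refine (mem_separableClosure_iff (F := L)).1 ?_
    rw [← hθ]
    exact IntermediateField.mem_adjoin_simple_self L θ
  refine ⟨minpoly L θ, Y, minpoly.monic hi, hs, fun ρ hρ => ?_, fun ρ hρ j => ?_, fun ρ hρ => ?_,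
    fun ρ hρ => ?_, ?_⟩
  · obtain ⟨γ, e, -⟩ := h5 ρ hρ
    rwa [e, D.inv]
  · obtain ⟨γ, -, e⟩ := h5 ρ hρ
    rw [e, D.inv]
    exact h1 j
  · obtain ⟨γ, -, e⟩ := h5 ρ hρ
    obtain ⟨j, hj⟩ := h2
    exact ⟨j, by rw [e, D.inv, hj, map_one, map_one]⟩
  · obtain ⟨γ, -, e⟩ := h5 ρ hρ
    have h6 := MvPolynomial.comp_aeval_apply (fun j => t * x j) ((γ : Λ →ₐ[L] Λ).comp σ0) f
    rw [HZ.p2_hom hf, h0, mul_zero, map_zero] at h6
    rw [e]
    exact h6.symm
  · have hm : Module.finrank L E = Field.finInsepDegree L E * (minpoly L θ).natDegree := by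
      rw [← IntermediateField.adjoin.finrank hi, hθ, Field.finInsepDegree, mul_comm,
        Module.finrank_mul_finrank]
    have h6 := sum_fibre (minpoly.irreducible hi) hs (minpoly.aeval L θ) hm
      fun ρ : Λ => pt (yv (p ^ a) Y ρ)
    simp only [h4] at h6
    rw [← orb_smul ht]
    exact nsmul_right_injective (NeZero.ne (Field.finInsepDegree L E)) h6

theorem Lf.exists_rep [Algebra.IsAlgebraic L Λ] {p d : ℕ} [Fact p.Prime] [CharP L p]
    (D : Lf L Λ p) (hf : f.IsHomogeneous d) {Z : Cy Λ n} (h : Z ∈ Ef Λ f) :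
    ∃ a0 : ℕ, ∀ a, a0 ≤ a → ∃ (φ : L[X]) (Y : Fin n → L[X]), Rep D.val f (p ^ a) φ Y Z := by
  induction h using AddSubmonoid.closure_induction with
  | mem Z hZ =>
    obtain ⟨E, _, _, _, x, hx, h0, rfl⟩ := hZ
    exact rep_orb D hf hx h0
  | zero =>
    refine ⟨0, fun a _ => ⟨1, 0, Polynomial.monic_one, Polynomial.separable_one, ?_, ?_, ?_, ?_,
      ?_⟩⟩ <;> simp
  | add Z Z' _ _ h1 h2 =>
    obtain ⟨a1, h1⟩ := h1
    obtain ⟨a2, h2⟩ := h2
    refine ⟨max a1 a2, fun a ha => ?_⟩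
    obtain ⟨φ, Y, h1⟩ := h1 a (le_of_max_le_left ha)
    obtain ⟨φ', Y', h2⟩ := h2 a (le_of_max_le_right ha)
    have hπ : 0 < D.val (algebraMap L Λ D.π) :=
      pos_iff_ne_zero.2 (D.val.ne_zero_iff.2 ((map_ne_zero _).2 D.π0))
    have hi : Function.Injective fun k : ℕ => algebraMap L Λ (D.π ^ k) := by
      intro k l e
      refine pow_right_injective₀ hπ D.π1.ne ?_
      simpa only [map_pow] using congrArg D.val e
    obtain ⟨_, ⟨k, rfl⟩, hk⟩ := (Set.infinite_range_of_injective hi).exists_notMem_finite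
      (Set.Finite.image2 (fun ρ ρ' : Λ => ρ - ρ') (φ.aroots Λ).finite_toSet
        (φ'.aroots Λ).finite_toSet)
    have h3 := rep_shift h2 (c := D.π ^ k) (by
      rw [map_pow, map_pow]
      exact pow_le_one₀ zero_le D.π1.le)
    refine rep_add h1 h3 fun ρ hρ hρ' => ?_
    rw [rep_aroots] at hρ'
    obtain ⟨ρ', h4, h5⟩ := Multiset.mem_map.1 hρ'
    exact hk ⟨ρ, hρ, ρ', h4, (eq_sub_of_add_eq' h5).symm⟩

end Pool.Agent.CE
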