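import Pool.Agent.Lib.MP_72c364_ag.OrbC
import Pool.Agent.Lib.MP_72c364_ag.Loc
import Pool.Agent.Lib.MP_72c364_ag.Rep
import Pool.Agent.Lib.MP_751085_ag.Wa1
import Pool.Agent.Lib.MP_751085_ag.Emb

/-! One irreducible factor of the global polynomial, seen from one place. -/

namespace Pool.Agent.CE

open scoped Classical NNReal WithZero Polynomial
open HZ

theorem fac_root {K Λ E : Type} [Field K] [Field Λ] [Field E] [Algebra K Λ] [Algebra K E]
    {ψ g : K[X]} (hψ : ψ.Separable) (hd : g ∣ ψ) {θ : E} (h : Polynomial.aeval θ g = 0)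
    (σ : E →ₐ[K] Λ) : σ θ ∈ ψ.aroots Λ := by
  refine Polynomial.mem_aroots.2 ⟨hψ.ne_zero, ?_⟩
  rw [Polynomial.aeval_algHom_apply, Polynomial.aeval_eq_zero_of_dvd_aeval_eq_zero hd h, map_zero]

theorem fac_yv {K Λ E : Type} [Field K] [Field Λ] [Field E] [Algebra K Λ] [Algebra K E]
    [IsAlgClosed Λ] {p : ℕ} [Fact p.Prime] [CharP K p] {n a : ℕ} {Y : Fin n → K[X]} {θ : E}
    {x : Fin n → E} (h : ∀ b, x b ^ p ^ a = Polynomial.aeval θ (Y b)) (σ : E →ₐ[K] Λ) (b : Fin n) :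
    yv (p ^ a) Y (σ θ) b = σ (x b) := by
  have := charP_of_injective_algebraMap (algebraMap K Λ).injective p
  exact qr_eq (by rw [← map_pow, h, Polynomial.aeval_algHom_apply])

variable {K L Λ : Type} [Field K] [Field L] [Field Λ] [Algebra K L] [Algebra L Λ] [Algebra K Λ]
  [IsScalarTower K L Λ] [IsAlgClosed Λ] [Algebra.IsAlgebraic L Λ] {p : ℕ} [Fact p.Prime]
  [CharP K p] {n N a : ℕ} {f : MvPolynomial (Fin n) K} {ψ g : K[X]} {Y : Fin n → K[X]} {c : K}
  {Φ : Λ → Fin n → Λ}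

theorem Pk.mem_Z1 {val : Valuation Λ ℝ≥0} {q : ℕ} (h : Pk L val f N q ψ Y c Φ)
    (hg : Irreducible g) (hd : g ∣ ψ) : ((g.aroots Λ).map fun θ => pt (Φ θ)).sum ∈
      Z1 Λ (MvPolynomial.map (algebraMap K L) f) := by
  have := Fact.mk hg
  have := (AdjoinRoot.powerBasis hg.ne_zero).finite
  have hr := fac_root (Λ := Λ) h.sep hd (θ := AdjoinRoot.root g) (by
    rw [AdjoinRoot.aeval_eq, AdjoinRoot.mk_self])
  rw [← sum_root (h.sep.of_dvd hd) fun θ => pt (Φ θ)]
  exact sum_mem_Z1 (a := fun σ : AdjoinRoot g →ₐ[K] Λ => Φ (σ (AdjoinRoot.root g)))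
    (fun γ σ i => h.eqv γ _ (hr σ) i) (fun σ => h.ne _ (hr σ)) fun σ => h.zero _ (hr σ)

theorem Pk.factor {val : Valuation Λ ℝ≥0} (h : Pk L val f N (p ^ a) ψ Y c Φ) (hg : Irreducible g)
    (hd : g ∣ ψ) {E : Type} [Field E] [Algebra K E] [FiniteDimensional K E] {m : ℕ}
    (hm : Module.finrank K E = m * g.natDegree) {θ : E} {x y : Fin n → E}
    (h1 : Polynomial.aeval θ g = 0) (h2 : ∀ b, x b ^ p ^ a = Polynomial.aeval θ (Y b))
    (h3 : y ≠ 0) (h4 : MvPolynomial.aeval y f = 0) (h5 : ∀ σ : E →ₐ[K] Λ, ∃ t, ∀ b,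
      val (t * σ (y b) - σ (x b)) ≤ val (algebraMap K Λ c)) :
    cyc K Λ y - m • ((g.aroots Λ).map fun θ => pt (Φ θ)).sum ∈
      Sat Λ (MvPolynomial.map (algebraMap K L) f) N := by
  have hr := fac_root (Λ := Λ) h.sep hd h1
  rw [cyc_eq, ← sum_fibre hg (h.sep.of_dvd hd) h1 hm fun θ => pt (Φ θ), ← smul_sub]
  refine nsmul_mem (orbit_sum (L := L) (a := fun (σ : E →ₐ[K] Λ) b => σ (y b))
    (b := fun σ => Φ (σ θ)) (fun _ _ _ => rfl) (fun γ σ i => h.eqv γ _ (hr σ) i) _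
    fun σ M _ _ x' z hx hz => ?_) _
  obtain ⟨t, ht⟩ := h5 σ
  refine h.near _ (hr σ) M x' z t hz (fun e => h3 (funext fun b => ?_)) ?_ fun b => ?_
  · have := hx b
    rw [e] at this
    exact (map_eq_zero σ).1 this.symm
  · apply M.val.injective
    have e : (fun b => M.val (x' b)) = fun b => σ (y b) := funext hx
    change M.val _ = M.val 0
    rw [map_zero, ← AlgHom.comp_apply, MvPolynomial.comp_aeval, e,
      MvPolynomial.aeval_map_algebraMap, ← MvPolynomial.comp_aeval, AlgHom.comp_apply, h4, map_zero]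
  · rw [hx b, fac_yv h2]
    exact ht b

theorem Pk.nc_of {F : Type} [Field F] [Finite F] [Algebra F K] (hK : FF F K)
    {v : Valuation K ℤᵐ⁰} (hv : Function.Surjective v) (D : Cm v L Λ p)
    (h : Pk L D.val f N (p ^ a) ψ Y c Φ) (hd : g ∣ ψ) (K' : Type) [Field K'] [Algebra K K']
    [FiniteDimensional K K'] (θ : K') (x : Fin n → K') (h1 : Polynomial.aeval θ g = 0)
    (h2 : ∀ b, x b ^ p ^ a = Polynomial.aeval θ (Y b)) (V : ValuationSubring K')
    (hV : V.comap (algebraMap K K') = v.valuationSubring) :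
    NC V.valuation (MvPolynomial.map (algebraMap K K') f) x (algebraMap K K' c) := by
  obtain ⟨σ, hσ⟩ := exists_emb hK D.val.valuationSubring (by
    rw [D.comap]
    intro e
    obtain ⟨u, hu⟩ := hv (WithZero.exp 1)
    have h3 : u ∈ v.valuationSubring := e ▸ ValuationSubring.mem_top u
    rw [Valuation.mem_valuationSubring_iff, hu, ← WithZero.exp_zero, WithZero.exp_le_exp] at h3
    omega) K' V (hV.trans D.comap.symm)
  refine (NC.iff (σ : K' →+* Λ) (le_iff_of_comap' hσ)).2 ?_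
  have e : (fun b => (σ : K' →+* Λ) (x b)) = yv (p ^ a) Y (σ θ) :=
    funext fun b => (fac_yv h2 σ b).symm
  rw [e, MvPolynomial.map_map, AlgHom.comp_algebraMap, AlgHom.coe_toRingHom, AlgHom.commutes]
  exact h.nc _ (fac_root h.sep hd h1 σ)

end Pool.Agent.CE
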