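import Pool.Agent.Lib.MP_72c364_ag.OrbA

/-! Relations modulo `N` and effective cycles. -/

namespace Pool.Agent.CE

open scoped Classical Polynomial

variable {L Λ E : Type} [Field L] [Field Λ] [Field E] [Algebra L Λ] {n N p : ℕ}
  {f : MvPolynomial (Fin n) L} {D : Cy Λ n}

theorem orb_mem_Z1 [Algebra L E] [FiniteDimensional L E] {x : Fin n → E} (h0 : x ≠ 0)
    (h1 : MvPolynomial.aeval x f = 0) : orb L Λ x ∈ Z1 Λ f :=
  AddSubgroup.subset_closure ⟨E, inferInstance, inferInstance, inferInstance, x, h0, h1, rfl⟩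

theorem cyc_mem_Z0 [Algebra L E] [FiniteDimensional L E] {x : Fin n → E} (h0 : x ≠ 0)
    (h1 : MvPolynomial.aeval x f = 0) : cyc L Λ x ∈ Z0 Λ f :=
  AddSubgroup.subset_closure ⟨E, inferInstance, inferInstance, inferInstance, x, h0, h1, rfl⟩

theorem Z0_le_Z1 : Z0 Λ f ≤ Z1 Λ f := by
  refine (AddSubgroup.closure_le _).2 ?_
  rintro _ ⟨E, _, _, _, x, h0, h1, rfl⟩
  rw [cyc_eq]
  exact nsmul_mem (orb_mem_Z1 h0 h1) _

theorem orbb_nsmul_mem_RN (h : D ∈ Z0 Λ f) : N • D ∈ RN Λ f N :=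
  AddSubgroup.mem_sup_right ⟨D, h, rfl⟩

theorem mem_RN_of_sat (h1 : D ∈ Z0 Λ f) (h2 : D ∈ Sat Λ f N) : D ∈ RN Λ f N := by
  obtain ⟨m, hm, h⟩ := h2
  obtain ⟨a, b, hab⟩ := Nat.isCoprime_iff_coprime.2 hm
  have h3 : D = a • m • D + b • N • D := by
    rw [← natCast_zsmul, ← natCast_zsmul, smul_smul, smul_smul, ← add_smul, hab, one_smul]
  rw [h3]
  exact add_mem (zsmul_mem h a) (zsmul_mem (orbb_nsmul_mem_RN h1) b)

theorem sat_of_smul {m : ℕ} (hm : m.Coprime N) (h : m • D ∈ Sat Λ f N) : D ∈ Sat Λ f N := by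
  obtain ⟨m', hm', h⟩ := h
  exact ⟨m' * m, Nat.Coprime.mul_left hm' hm, by rwa [mul_smul]⟩

theorem orbb_pow [ExpChar L p] (h : D ∈ Z1 Λ f) : ∃ k : ℕ, p ^ k • D ∈ Z0 Λ f := by
  induction h using AddSubgroup.closure_induction with
  | mem D h =>
    obtain ⟨E, _, _, _, x, h0, h1, rfl⟩ := h
    obtain ⟨k, hk⟩ := finInsepDegree_eq_pow L E p
    exact ⟨k, by rw [← hk, ← cyc_eq]; exact cyc_mem_Z0 h0 h1⟩
  | zero => exact ⟨0, by rw [smul_zero]; exact zero_mem _⟩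
  | add D D' _ _ h h' =>
    obtain ⟨k, hk⟩ := h
    obtain ⟨k', hk'⟩ := h'
    refine ⟨k + k', ?_⟩
    rw [smul_add, pow_add]
    exact add_mem (by rw [mul_comm, mul_smul]; exact nsmul_mem hk _)
      (by rw [mul_smul]; exact nsmul_mem hk' _)
  | neg D _ h =>
    obtain ⟨k, hk⟩ := h
    exact ⟨k, by rw [smul_neg]; exact neg_mem hk⟩

theorem zsmul_mem_sat [ExpChar L p] (hp : p.Coprime N) (h : D ∈ Z1 Λ f) {c : ℤ}
    (hc : (N : ℤ) ∣ c) : c • D ∈ Sat Λ f N := by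
  obtain ⟨k, hk⟩ := orbb_pow (p := p) h
  obtain ⟨c, rfl⟩ := hc
  refine ⟨p ^ k, Nat.Coprime.pow_left k hp, ?_⟩
  rw [smul_comm, mul_smul, natCast_zsmul]
  exact orbb_nsmul_mem_RN (zsmul_mem hk c)

theorem jn_mem_sat [ExpChar L p] (hp : p.Coprime N) [Algebra L E] [FiniteDimensional L E]
    {x z : Fin n → E} (hx : x ≠ 0) (hz : z ≠ 0)
    (h : Jn (MvPolynomial.map (algebraMap L E) f) x z) : orb L Λ x - orb L Λ z ∈ Sat Λ f N := by
  obtain ⟨γ, h1, h2, h3⟩ := h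
  obtain ⟨k, hk⟩ := finInsepDegree_eq_pow L E p
  rw [MvPolynomial.aeval_map_algebraMap] at h1
  obtain rfl : (fun a => (γ a).eval 0) = x := funext h2
  obtain rfl : (fun a => (γ a).eval 1) = z := funext h3
  refine ⟨p ^ k, Nat.Coprime.pow_left k hp, AddSubgroup.mem_sup_left ?_⟩
  rw [smul_sub, ← hk, ← cyc_eq, ← cyc_eq]
  exact AddSubgroup.subset_closure
    ⟨E, inferInstance, inferInstance, inferInstance, γ, h1, hx, hz, rfl⟩

theorem orbb_Ef_le (h : D ∈ Ef Λ f) : D ∈ Z1 Λ f := by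
  induction h using AddSubmonoid.closure_induction with
  | mem D h => exact AddSubgroup.subset_closure h
  | zero => exact zero_mem _
  | add D D' _ _ h h' => exact add_mem h h'

theorem orbb_sub (h : D ∈ Z1 Λ f) : ∃ u ∈ Ef Λ f, ∃ w ∈ Ef Λ f, D = u - w := by
  induction h using AddSubgroup.closure_induction with
  | mem D h => exact ⟨D, AddSubmonoid.subset_closure h, 0, zero_mem _, (sub_zero D).symm⟩
  | zero => exact ⟨0, zero_mem _, 0, zero_mem _, (sub_zero 0).symm⟩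
  | add D D' _ _ h h' =>
    obtain ⟨u, hu, w, hw, rfl⟩ := h
    obtain ⟨u', hu', w', hw', rfl⟩ := h'
    exact ⟨u + u', add_mem hu hu', w + w', add_mem hw hw', by abel⟩
  | neg D _ h =>
    obtain ⟨u, hu, w, hw, rfl⟩ := h
    exact ⟨w, hw, u, hu, neg_sub u w⟩

theorem orbb_degree [IsAlgClosed Λ] (h : D ∈ Os Λ f) :
    ∃ b : ℕ, 0 < b ∧ Finsupp.degree D = b := by
  obtain ⟨E, _, _, _, x, h0, -, rfl⟩ := h
  exact ⟨Field.finSepDegree L E, Nat.pos_of_ne_zero (NeZero.ne _), degree_orb h0⟩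

/-- effective cycles of one degree in given classes -/
theorem exists_eff {ι : Type} [Fintype ι] {L Λ : ι → Type} [∀ j, Field (L j)] [∀ j, Field (Λ j)]
    [∀ j, Algebra (L j) (Λ j)] [∀ j, IsAlgClosed (Λ j)] [∀ j, ExpChar (L j) p] (hp : p.Coprime N)
    (hN : 0 < N) (f : ∀ j, MvPolynomial (Fin n) (L j)) (h0 : ∀ j, (Os (Λ j) (f j)).Nonempty)
    (z : ∀ j, Cy (Λ j) n) (hz : ∀ j, z j ∈ Z1 (Λ j) (f j)) {δ : ℤ}
    (hδ : ∀ j, Finsupp.degree (z j) = δ) :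
    ∃ D : ℕ, (N : ℤ) ∣ D - δ ∧ ∀ j, ∃ e ∈ Ef (Λ j) (f j), Finsupp.degree e = D ∧
      z j - e ∈ Sat (Λ j) (f j) N := by
  choose o ho using h0
  choose b hb hob using fun j => orbb_degree (ho j)
  choose u hu w hw hzu using fun j => orbb_sub (hz j)
  have hB : 0 < ∏ j, b j := Finset.prod_pos fun j _ => hb j
  choose c hc using fun j => Finset.dvd_prod_of_mem b (Finset.mem_univ j)
  obtain ⟨T, hT⟩ : ∃ T : ℕ, N * ∏ j, b j = T + 1 :=
    Nat.exists_eq_succ_of_ne_zero (Nat.mul_pos hN hB).ne'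
  obtain ⟨M0, hM0⟩ := Finite.exists_le fun j => (Finsupp.degree (w j)).toNat
  obtain ⟨M, hM, hMδ⟩ : ∃ M : ℕ, (∀ j, Finsupp.degree (w j) ≤ M) ∧ -δ ≤ M := by
    refine ⟨M0 + δ.natAbs, fun j => ?_, by omega⟩
    have := hM0 j
    omega
  have hT' : (N : ℤ) * ((∏ j, b j : ℕ) : ℤ) = T + 1 := by exact_mod_cast hT
  have hD : 0 ≤ δ + (T + 1) * M := by
    have : (0 : ℤ) ≤ T * M := by positivity
    linarith
  refine ⟨(δ + (T + 1) * M).toNat, ?_, fun j => ?_⟩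
  · rw [Int.toNat_of_nonneg hD, ← hT']
    exact ⟨(∏ j, b j : ℕ) * M, by ring⟩
  · obtain ⟨k, hk⟩ := Int.eq_ofNat_of_zero_le (sub_nonneg.2 (hM j))
    have hoE : o j ∈ Ef (Λ j) (f j) := AddSubmonoid.subset_closure (ho j)
    refine ⟨u j + T • w j + (N * k * c j) • o j,
      add_mem (add_mem (hu j) (nsmul_mem (hw j) _)) (nsmul_mem hoE _), ?_, ?_⟩
    · have h1 := hδ j
      have h2 : ((∏ j, b j : ℕ) : ℤ) = b j * c j := by exact_mod_cast hc j
      rw [hzu j, map_sub] at h1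
      rw [Int.toNat_of_nonneg hD, map_add, map_add, map_nsmul, map_nsmul, hob, nsmul_eq_mul,
        nsmul_eq_mul]
      push_cast
      rw [h2] at hT'
      linear_combination h1 + (k : ℤ) * hT' - (T + 1 : ℤ) * hk
    · have h1 : z j - (u j + T • w j + (N * k * c j) • o j) =
          (-(T + 1) : ℤ) • w j + (-(N * k * c j) : ℤ) • o j := by
        rw [hzu j]
        module
      rw [h1]
      refine add_mem (zsmul_mem_sat hp (orbb_Ef_le (hw j)) ?_)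
        (zsmul_mem_sat hp (orbb_Ef_le hoE) ⟨-(k * c j), by ring⟩)
      rw [← hT']
      exact (dvd_mul_right _ _).neg_right

theorem orbb_mul {N N' : ℕ} (h : D ∈ RN Λ f N) (u : ℤ) : (u * N') • D ∈ RN Λ f (N * N') := by
  obtain ⟨r, hr, _, ⟨y, hy, rfl⟩, rfl⟩ := AddSubgroup.mem_sup.1 h
  have h1 : (u * N') • (r + nsmulAddMonoidHom N y) = (u * N') • r + (N * N') • u • y := by
    rw [nsmulAddMonoidHom_apply]
    module
  rw [h1]
  exact add_mem (AddSubgroup.mem_sup_left (zsmul_mem hr _)) (orbb_nsmul_mem_RN (zsmul_mem hy u))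

/-- two coprime moduli -/
theorem mem_RN_mul {N N' : ℕ} {u u' : ℤ} {D D' : Cy Λ n} (h : D ∈ RN Λ f N) (h' : D' ∈ RN Λ f N') :
    (u * N') • D + (u' * N) • D' ∈ RN Λ f (N * N') :=
  add_mem (orbb_mul h u) (mul_comm N' N ▸ orbb_mul h' u')

end Pool.Agent.CE
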