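import Pool.Agent.Lib.MP_72c364_ag.ValB

/-! Representatives of the residue field, and constant extensions. -/

namespace Pool.Agent.CE

open scoped Classical NNReal IntermediateField

theorem teich_fin (R : Type) [Field R] {q : ℕ} (hq : 1 < q) : {z : R | z ^ q = z}.Finite :=
  (Polynomial.finite_setOfPred_isRoot (FiniteField.X_pow_card_sub_X_ne_zero R hq)).subset
    fun z hz => by simpa [sub_eq_zero] using hz

/-- a constant extension has degree dividing the degree of the extension of finite fields -/
theorem exists_const_ext (F k M Ω : Type) [Field F] [Finite F] [Field k] [Field M] [Field Ω]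
    [Algebra F k] [FiniteDimensional F k] [Algebra F M] [Algebra M Ω] [IsAlgClosed Ω] :
    ∃ E : IntermediateField M Ω, FiniteDimensional M E ∧
      Module.finrank M E ∣ Module.finrank F k ∧ ∃ j : k →+* E,
        ∀ c : F, j (algebraMap F k c) = algebraMap M E (algebraMap F M c) := by
  have : Finite k := Module.finite_of_finite F
  have := Fintype.ofFinite k
  let _ : Algebra F Ω := ((algebraMap M Ω).comp (algebraMap F M)).toAlgebra
  have : IsScalarTower F M Ω := IsScalarTower.of_algebraMap_eq fun _ => rfl
  let φ : k →ₐ[F] Ω := IsAlgClosed.lift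
  have hq : 1 < Fintype.card k := Fintype.one_lt_card
  set P : Polynomial M := Polynomial.X ^ Fintype.card k - Polynomial.X with hP
  have h0 : (Fintype.card k : M) = 0 := (algebraMap M Ω).injective <| by
    rw [map_natCast, map_zero, ← map_natCast φ, FiniteField.cast_card_eq_zero, map_zero]
  have hs : P.Separable := ⟨0, -1, by
    simp [hP, Polynomial.derivative_X_pow, h0]⟩
  have hr : Set.range φ = P.rootSet Ω := by
    refine Set.eq_of_subset_of_ncard_le ?_ ?_ (P.rootSet_finite Ω)
    · rintro _ ⟨x, rfl⟩
      rw [Polynomial.mem_rootSet]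
      refine ⟨hs.ne_zero, ?_⟩
      rw [hP, map_sub, map_pow, Polynomial.aeval_X, ← map_pow, FiniteField.pow_card, sub_self]
    · rw [Set.ncard_range_of_injective (f := φ) φ.injective, Nat.card_eq_fintype_card,
        ← FiniteField.X_pow_card_sub_X_natDegree_eq M hq]
      exact P.ncard_rootSet_le Ω
  let E := IntermediateField.adjoin M (P.rootSet Ω)
  have : P.IsSplittingField M E :=
    IntermediateField.adjoin_rootSet_isSplittingField (IsAlgClosed.splits _)
  have := Polynomial.IsSplittingField.finiteDimensional E P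
  have := IsGalois.of_separable_splitting_field (E := E) hs
  let j : k →+* E := (φ : k →+* Ω).codRestrict E fun x =>
    IntermediateField.subset_adjoin _ _ (hr ▸ ⟨x, rfl⟩)
  have hj : ∀ c : F, j (algebraMap F k c) = algebraMap M E (algebraMap F M c) := fun c =>
    Subtype.ext (φ.commutes c)
  let _ := j.toAlgebra
  have : IsScalarTower F k E := IsScalarTower.of_algebraMap_eq fun c => (hj c).symm
  refine ⟨E, inferInstance, ?_, j, hj⟩
  rw [← IsGalois.card_aut_eq_finrank, ← IsGalois.card_aut_eq_finrank]
  refine Subgroup.card_dvd_of_injective (IntermediateField.restrictRestrictAlgEquivMapHom F k M E)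
    ((injective_iff_map_eq_one _).2 fun σ hσ => AlgEquiv.coe_toAlgHom_injective
      (IntermediateField.adjoin_algHom_ext M fun x hx => ?_))
  obtain ⟨y, rfl⟩ := hr.ge hx
  have h := (MulSemiringAction.toAlgAut Gal(E/M) F E σ).restrictNormal_commutes k y
  rw [show AlgEquiv.restrictNormal _ k = 1 from hσ] at h
  exact h.symm

theorem val_le_one_of_finite {k Ω : Type} [Field k] [Finite k] [Field Ω] (val : Valuation Ω ℝ≥0)
    (j : k →+* Ω) (c : k) : val (j c) ≤ 1 := by
  have := Fintype.ofFinite k
  by_contra h
  have h1 := pow_lt_pow_right₀ (not_le.1 h) (Fintype.one_lt_card (α := k))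
  rw [← map_pow, ← map_pow, ← map_pow, ← map_pow, FiniteField.pow_card, pow_one] at h1
  exact h1.false

variable {L Λ : Type} [Field L] [Field Λ] [Algebra L Λ] [IsAlgClosed Λ] [Algebra.IsAlgebraic L Λ]
  {p : ℕ} [Fact p.Prime] [CharP L p]

theorem Lf.res_fin (D : Lf L Λ p) (M : Type) [Field M] [Algebra L M] [Algebra M Λ]
    [IsScalarTower L M Λ] [FiniteDimensional L M] : ∃ r, 0 < r ∧ ∀ z : M,
      D.val (algebraMap M Λ z) ≤ 1 → D.val (algebraMap M Λ (z ^ p ^ r - z)) < 1 := by
  obtain ⟨r, hr, h⟩ := D.res
  have hp : p.Prime := Fact.out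
  let v := D.val.comap (algebraMap M Λ)
  let k := IsLocalRing.ResidueField v.valuationSubring
  let ρ := IsLocalRing.residue v.valuationSubring
  have hρ : ∀ z, ρ z = 0 ↔ v z < 1 := fun z =>
    (IsLocalRing.residue_eq_zero_iff z).trans (Valuation.mem_maximalIdeal_iff _ v)
  have hv : ∀ c : L, v (algebraMap L M c) = D.val (algebraMap L Λ c) := fun c =>
    congrArg D.val (IsScalarTower.algebraMap_apply L M Λ c).symm
  have : Finite k := by
    refine Set.finite_univ_iff.1 ((Polynomial.bUnion_roots_finite (RingHom.id k)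
      (Module.finrank L M) (teich_fin k (one_lt_pow₀ hp.one_lt hr.ne'))).subset fun x _ => ?_)
    obtain ⟨z, rfl⟩ := IsLocalRing.residue_surjective x
    have hg := minpoly.ne_zero (Algebra.IsIntegral.isIntegral (R := L) (z : M))
    obtain ⟨a, ha, hm⟩ := Finset.exists_max_image (minpoly L (z : M)).support
      (fun i => D.val (algebraMap L Λ ((minpoly L (z : M)).coeff i)))
      (Polynomial.support_nonempty.2 hg)
    rw [Polynomial.mem_support_iff] at ha
    set g := Polynomial.C ((minpoly L (z : M)).coeff a)⁻¹ * minpoly L (z : M) with hgd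
    have h1 : ∀ i, D.val (algebraMap L Λ (g.coeff i)) ≤ 1 := fun i => by
      rw [hgd, Polynomial.coeff_C_mul, map_mul, map_mul, map_inv₀, map_inv₀]
      refine inv_mul_le_one_of_le₀ ?_ zero_le
      by_cases hi : (minpoly L (z : M)).coeff i = 0
      · simp [hi]
      · exact hm i (Polynomial.mem_support_iff.2 hi)
    obtain ⟨f, hf⟩ := (Polynomial.mem_lifts _).1 ((Polynomial.lifts_iff_coeff_lifts
      (f := algebraMap v.valuationSubring M) (g.map (algebraMap L M))).2 fun i =>
        ⟨⟨algebraMap L M (g.coeff i), (hv _).trans_le (h1 i)⟩, (Polynomial.coeff_map _ _).symm⟩)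
    have hc : ∀ i, (f.coeff i : M) = algebraMap L M (g.coeff i) := fun i => by
      rw [← Polynomial.coeff_map, ← hf, Polynomial.coeff_map]
      rfl
    simp only [Set.mem_iUnion, Finset.mem_coe, Multiset.mem_toFinset, Polynomial.map_id]
    refine ⟨f.map ρ, ⟨Polynomial.natDegree_map_le.trans ?_, fun i => ?_⟩,
      (Polynomial.mem_roots fun e => ?_).2 ?_⟩
    · rw [← Polynomial.natDegree_map_eq_of_injective
        (f := algebraMap v.valuationSubring M) Subtype.val_injective, hf, Polynomial.natDegree_map]
      exact (Polynomial.natDegree_C_mul_le _ _).trans (minpoly.natDegree_le _)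
    · rw [Set.mem_setOf_eq, Polynomial.coeff_map, ← map_pow, ← sub_eq_zero, ← map_sub, hρ]
      have := h _ (h1 i)
      rwa [← hv, map_sub, map_pow, ← hc] at this
    · have h2 : f.coeff a = 1 := Subtype.ext <| by
        rw [hc, hgd, Polynomial.coeff_C_mul, inv_mul_cancel₀ ha, map_one]
        rfl
      have := congrArg (Polynomial.coeff · a) e
      simp [h2] at this
    · have h2 : f.eval z = 0 := Subtype.val_injective <| by
        have := Polynomial.eval_map_algebraMap g (z : M)
        rw [← hf, hgd, map_mul, minpoly.aeval, mul_zero] at this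
        exact (Polynomial.eval_map_apply (f := algebraMap v.valuationSubring M) z).symm.trans this
      rw [Polynomial.IsRoot, Polynomial.eval_map_apply, h2, map_zero]
  have := Fintype.ofFinite k
  have : CharP M p := charP_of_injective_algebraMap (algebraMap L M).injective p
  have : CharP k p := (CharP.charP_iff_prime_eq_zero hp).2 <| by
    rw [← map_natCast ρ, show (p : v.valuationSubring) = 0 from Subtype.ext (by simp), map_zero]
  obtain ⟨n, -, hn⟩ := FiniteField.card k p
  refine ⟨n, n.2, fun z hz => ?_⟩
  have := (hρ (⟨z, hz⟩ ^ p ^ (n : ℕ) - ⟨z, hz⟩)).1 (by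
    rw [map_sub, map_pow, ← hn, FiniteField.pow_card, sub_self])
  exact this

theorem Lf.exists_teich (D : Lf L Λ p) (M : Type) [Field M] [Algebra L M] [Algebra M Λ]
    [IsScalarTower L M Λ] [FiniteDimensional L M] :
    ∃ (F : Subfield M) (_ : Finite F) (τ : Og D.val M →+* F),
      ∀ z : Og D.val M, D.val (algebraMap M Λ ((z : M) - τ z)) < 1 := by
  obtain ⟨r, hr, h⟩ := D.res_fin M
  have hp : p.Prime := Fact.out
  have hq : 1 < p ^ r := one_lt_pow₀ hp.one_lt hr.ne'
  have : CharP M p := charP_of_injective_algebraMap (algebraMap L M).injective p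
  let F := (iterateFrobenius M p r).eqLocusField (RingHom.id M)
  have : Finite F := (teich_fin M hq).to_subtype
  let v := D.val.comap (algebraMap M Λ)
  have hu : ∀ a b : F, v ((a : M) - b) < 1 → a = b := fun a b hab => by
    by_contra hne
    have h1 := val_le_one_of_finite D.val ((algebraMap M Λ).comp F.subtype) (a - b)⁻¹
    have h2 : v ((a : M) - b) ≠ 0 := by
      rw [Valuation.ne_zero_iff, sub_ne_zero]
      exact fun e => hne (Subtype.ext e)
    rw [map_inv₀, map_inv₀] at h1
    exact hab.not_ge ((inv_le_one₀ (zero_lt_iff.2 h2)).1 h1)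
  have hex : ∀ z : Og D.val M, ∃ a : F, v ((z : M) - a) < 1 := fun z => by
    have := D.cpl M (z ^ p ^ r - z) (h z z.2)
    obtain ⟨a, ha, hz⟩ := HenselianRing.is_henselian (I := Ideal.span {z ^ p ^ r - z})
      (Polynomial.X ^ p ^ r - Polynomial.X) (Polynomial.monic_X_pow_sub
        (Polynomial.degree_X_le.trans_lt (by exact_mod_cast hq))) z
      (by simp) (by simp [Polynomial.derivative_X_pow, hr.ne'])
    refine ⟨⟨a, ?_⟩, ?_⟩
    · have : a ^ p ^ r = a := by simpa [sub_eq_zero] using ha
      exact congrArg Subtype.val this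
    · rw [Valuation.map_sub_swap]
      exact (og_mem_span.1 hz).trans_lt (h z z.2)
  choose τ hτ using hex
  have hτ' : ∀ (z : Og D.val M) (a : F), v ((z : M) - a) < 1 → τ z = a := fun z a h => hu _ _ <| by
    rw [show (τ z : M) - a = z - a - (z - τ z) by ring]
    exact v.map_sub_lt h (hτ z)
  refine ⟨F, this, ⟨⟨⟨τ, hτ' _ _ (by simp)⟩, fun x y => hτ' _ _ ?_⟩, hτ' _ _ (by simp),
    fun x y => hτ' _ _ ?_⟩, hτ⟩
  · rw [show ((x * y : Og D.val M) : M) - (τ x * τ y : F) = (x - τ x) * y + τ x * (y - τ y) by
      push_cast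
      ring]
    refine v.map_add_lt ?_ ?_
    · rw [map_mul]
      exact mul_lt_one_of_lt_of_le (hτ x) y.2
    · rw [map_mul, mul_comm]
      exact mul_lt_one_of_lt_of_le (hτ y)
        (val_le_one_of_finite D.val ((algebraMap M Λ).comp F.subtype) (τ x))
  · rw [show ((x + y : Og D.val M) : M) - (τ x + τ y : F) = (x - τ x) + (y - τ y) by
      push_cast
      ring]
    exact v.map_add_lt (hτ x) (hτ y)

end Pool.Agent.CE
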