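import Pool.Agent.Lib.MP_72c364_ag.NewtC
import Pool.Agent.Lib.MP_72c364_ag.VcB
import Pool.Agent.Lib.MP_72c364_ag.Teich
import Pool.Agent.Lib.MP_72c364_ag.OrbB

/-! Places of good reduction. -/

namespace Pool.Agent.CE

open scoped Classical NNReal
open HZ

theorem good_val_one {k Ω : Type} [Field k] [Finite k] [Field Ω] (val : Valuation Ω ℝ≥0)
    (j : k →+* Ω) {c : k} (hc : c ≠ 0) : val (j c) = 1 := by
  have h1 := val_le_one_of_finite val j c
  have h2 := val_le_one_of_finite val j c⁻¹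
  have h3 : val (j c) * val (j c⁻¹) = 1 := by
    rw [← map_mul, ← map_mul, mul_inv_cancel₀ hc, map_one, map_one]
  refine le_antisymm h1 ?_
  calc (1 : ℝ≥0) = val (j c) * val (j c⁻¹) := h3.symm
    _ ≤ val (j c) * 1 := mul_le_mul_right h2 _
    _ = val (j c) := mul_one _

theorem good_incl {Ω : Type} [Field Ω] (val : Valuation Ω ℝ≥0) (M E : Type) [Field M] [Field E]
    [Algebra M E] [Algebra M Ω] [Algebra E Ω] [IsScalarTower M E Ω] :
    ∃ ι : Og val M →+* Og val E, ∀ z, (ι z : E) = algebraMap M E z :=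
  ⟨(algebraMap M E).restrict (Og val M) (Og val E) fun z hz => by
    rw [mem_Og, ← IsScalarTower.algebraMap_apply]
    exact hz, fun _ => rfl⟩

theorem good_fin {k Ω : Type} [Field k] [Finite k] [Field Ω] (val : Valuation Ω ℝ≥0) {E : Type}
    [Field E] [Algebra E Ω] (j : k →+* E) : ∃ j' : k →+* Og val E, ∀ c, (j' c : E) = j c :=
  ⟨j.codRestrict (Og val E) fun c => val_le_one_of_finite val ((algebraMap E Ω).comp j) c,
    fun _ => rfl⟩

theorem good_eta {Ω : Type} [Field Ω] {val : Valuation Ω ℝ≥0} {M : Type} [Field M] [Algebra M Ω]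
    (T : Finset (Og val M)) (h : ∀ z ∈ T, val (algebraMap M Ω z) < 1) :
    ∃ η : Og val M, val (algebraMap M Ω η) < 1 ∧ ∀ z ∈ T, z ∈ Ideal.span {η} := by
  obtain ⟨η, h1, h2⟩ := Finset.exists_max_image (insert 0 T) (fun z => val (algebraMap M Ω z))
    (Finset.insert_nonempty _ _)
  refine ⟨η, ?_, fun z hz => og_mem_span.2 (h2 z (Finset.mem_insert_of_mem hz))⟩
  rcases Finset.mem_insert.1 h1 with e | e
  · rw [e]
    simp
  · exact h η e

variable {L Λ : Type} [Field L] [Field Λ] [Algebra L Λ] [IsAlgClosed Λ] [Algebra.IsAlgebraic L Λ]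
  {p : ℕ} [Fact p.Prime] [CharP L p] {n d : ℕ} {f : MvPolynomial (Fin n) L}

/-- the reduction of the form -/
theorem good_red (D : Lf L Λ p) (hf : Hyp f d) (hg : GoodOn (Og D.val L) f) (M : Type) [Field M]
    [Algebra L M] [Algebra M Λ] [IsScalarTower L M Λ] [FiniteDimensional L M] :
    ∃ (F : Type) (_ : Field F) (_ : Finite F) (σ : F →+* Og D.val M) (τ : Og D.val M →+* F)
      (G : MvPolynomial (Fin n) (Og D.val M)), (∀ c, τ (σ c) = c) ∧
      (∀ z, D.val (algebraMap M Λ (z - σ (τ z) : Og D.val M)) < 1) ∧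
      (∀ z, τ z ≠ 0 → IsUnit z) ∧
      MvPolynomial.map (Og D.val M).subtype G = MvPolynomial.map (algebraMap L M) f ∧
      G.IsHomogeneous d ∧ Hyp (MvPolynomial.map τ G) d := by
  obtain ⟨F, hF, τ, hτ⟩ := D.exists_teich M
  obtain ⟨σ, hσ⟩ := good_fin D.val F.subtype
  obtain ⟨ι, hι⟩ := good_incl D.val L M
  obtain ⟨g, hg1, hg2⟩ := hg
  have h1 : ∀ c : F, c ≠ 0 → D.val (algebraMap M Λ c) = 1 := fun c hc =>
    good_val_one D.val ((algebraMap M Λ).comp F.subtype) hc
  have h2 : MvPolynomial.map (Og D.val M).subtype (MvPolynomial.map ι g) =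
      MvPolynomial.map (algebraMap L M) f := by
    rw [← hg1, MvPolynomial.map_map, MvPolynomial.map_map]
    exact congrArg (fun φ => MvPolynomial.map φ g) (RingHom.ext hι)
  have h3 : (MvPolynomial.map ι g).IsHomogeneous d := by
    refine MvPolynomial.IsHomogeneous.of_map (f := (Og D.val M).subtype) Subtype.val_injective ?_
    rw [h2]
    exact hf.hom.map _
  refine ⟨F, inferInstance, hF, σ, τ, MvPolynomial.map ι g, fun c => ?_, fun z => ?_,
    fun z hz => ?_, h2, h3, h3.map τ, (hg2.map ι).map τ, fun i hi h0 => ?_, hf.hd, hf.hn⟩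
  · by_contra hc
    have h4 := h1 (c - τ (σ c)) (sub_ne_zero.2 fun e => hc e.symm)
    have h5 := hτ (σ c)
    rw [hσ] at h5
    exact h5.ne h4
  · have h5 := hτ z
    rw [AddSubgroupClass.coe_sub, hσ]
    exact h5
  · rw [og_unit]
    have h5 := hτ z
    rw [map_sub, ← h1 _ hz] at h5
    exact (D.val.map_eq_of_sub_lt h5).trans (h1 _ hz)
  · have h5 := congrArg F.subtype h0
    rw [map_natCast, map_zero, ← map_natCast (algebraMap L M)] at h5
    exact hf.bin i hi ((map_eq_zero _).1 h5)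

theorem Lf.good_pt (D : Lf L Λ p) (hf : Hyp f d) (hg : GoodOn (Og D.val L) f) :
    ∃ x : Fin n → L, x ≠ 0 ∧ MvPolynomial.aeval x f = 0 := by
  obtain ⟨F, _, _, σ, τ, G, h1, h2, h3, h4, h5, h6⟩ := good_red D hf hg L
  have hc : CharP F p := RingHom.charP ((Og D.val L).subtype.comp σ) (RingHom.injective _) p
  have hF : Fintype F := Fintype.ofFinite F
  obtain ⟨N, -, hN⟩ := FiniteField.card F p
  have hd := hf.hd
  have hn := hf.hn
  obtain ⟨x0, hx0, hx1⟩ := exists_zero_of_alg (p := p)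
    (fun a : F => ⟨N, N.pos, by rw [← hN, FiniteField.pow_card]⟩) h6.hom (by omega) (by omega)
  have he : ∀ g : MvPolynomial (Fin n) (Og D.val L),
      τ (MvPolynomial.eval (fun a => σ (x0 a)) g) = MvPolynomial.eval x0 (MvPolynomial.map τ g) := by
    intro g
    rw [← p4_eval]
    simp only [h1]
  have hη : τ (MvPolynomial.eval (fun a => σ (x0 a)) G) = 0 := by rw [he, hx1]
  have hlt := h2 (MvPolynomial.eval (fun a => σ (x0 a)) G)
  rw [hη, map_zero, sub_zero] at hlt
  have := D.cpl L _ hlt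
  obtain ⟨i, hi⟩ := h6.ns.grad_ne hx0
  rw [MvPolynomial.pderiv_map, MvPolynomial.aeval_eq_eval, ← he] at hi
  obtain ⟨x, hx2, hx3⟩ := hensel_pt (Ideal.span {MvPolynomial.eval (fun a => σ (x0 a)) G}) G _ i
    (Ideal.mem_span_singleton_self _) (h3 _ hi)
  refine ⟨fun a => (x a : L), fun h0 => hx0 (funext fun a => ?_), ?_⟩
  · obtain ⟨u, hu⟩ := Ideal.mem_span_singleton'.1 (hx3 a)
    have h7 : x a = 0 := Subtype.ext (congrFun h0 a)
    have h8 := congrArg τ hu
    rw [map_mul, hη, mul_zero, h7, zero_sub, map_neg, h1] at h8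
    exact neg_eq_zero.1 h8.symm
  · rw [MvPolynomial.aeval_def, ← MvPolynomial.eval_map, ← h4]
    exact (p4_eval (Og D.val L).subtype G x).trans (by rw [hx2, map_zero])

theorem Lf.good_jn (D : Lf L Λ p) (hf : Hyp f d) (hg : GoodOn (Og D.val L) f) {l : ℕ}
    (hl : l.Prime) (M : Type) [Field M] [Algebra L M] [Algebra M Λ] [IsScalarTower L M Λ]
    [FiniteDimensional L M] {x z : Fin n → M} (hx0 : x ≠ 0) (hz0 : z ≠ 0)
    (hx : MvPolynomial.aeval x f = 0) (hz : MvPolynomial.aeval z f = 0) :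
    ∃ E : IntermediateField M Λ, FiniteDimensional M E ∧
      ¬ l ∣ Module.finrank M E ∧ ∃ s t : E, s ≠ 0 ∧ t ≠ 0 ∧
        Jn (MvPolynomial.map (algebraMap L E) f) (fun a => s * algebraMap M E (x a))
          fun a => t * algebraMap M E (z a) := by
  obtain ⟨F, _, _, σ, τ, G, h1, h2, h3, h4, h5, h6⟩ := good_red D hf hg M
  have prim : ∀ y : Fin n → M, y ≠ 0 → MvPolynomial.aeval y f = 0 →
      ∃ (u : M) (Y : Fin n → Og D.val M), u ≠ 0 ∧ (∀ a, (Y a : M) = u * y a) ∧
        MvPolynomial.eval Y G = 0 ∧ (fun a => τ (Y a)) ≠ 0 ∧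
        MvPolynomial.aeval (fun a => τ (Y a)) (MvPolynomial.map τ G) = 0 := by
    intro y hy0 hy
    obtain ⟨u, hu, hle, a, ha⟩ := exists_primitive (val := D.val) hy0
    have h7 : MvPolynomial.eval (fun b => (⟨u * y b, hle b⟩ : Og D.val M)) G = 0 := by
      apply Subtype.val_injective
      refine (p4_eval (Og D.val M).subtype G _).symm.trans ?_
      rw [h4]
      refine (p4_smul (hf.hom.map _) u y).trans ?_
      rw [MvPolynomial.eval_map, ← MvPolynomial.aeval_def, hy, mul_zero]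
      rfl
    refine ⟨u, fun b => ⟨u * y b, hle b⟩, hu, fun _ => rfl, h7, fun h0 => ?_, ?_⟩
    · have h8 : τ ⟨u * y a, hle a⟩ = 0 := congrFun h0 a
      have h9 : (⟨u * y a, hle a⟩ : Og D.val M) = 1 := Subtype.ext ha
      rw [h9, map_one] at h8
      exact one_ne_zero h8
    · rw [MvPolynomial.aeval_eq_eval, p4_eval, h7, map_zero]
  obtain ⟨u, X, hu, hX, hX0, hX1, hX2⟩ := prim x hx0 hx
  obtain ⟨w, Z, hw, hZ, hZ0, hZ1, hZ2⟩ := prim z hz0 hz
  obtain ⟨k, _, _, hk, hlk, e, γ, hγ⟩ := vf_finite hl h6 hX1 hZ1 hX2 hZ2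
  obtain ⟨s, t, hs, ht, hvc⟩ := vc_of_vf (le_trans one_le_two hf.hd) hγ
  let _ : Algebra F M := ((Og D.val M).subtype.comp σ).toAlgebra
  obtain ⟨E, hE, hdvd, j, hj⟩ := exists_const_ext F k M Λ
  have : Finite k := Module.finite_of_finite F
  have : FiniteDimensional L E := Module.Finite.trans M E
  obtain ⟨j', hj'⟩ := good_fin D.val j
  obtain ⟨ι, hι⟩ := good_incl D.val M E
  have hjι : ∀ c : F, j' (algebraMap F k c) = ι (σ c) := fun c =>
    Subtype.ext (by rw [hj', hι, hj]; rfl)
  obtain ⟨η, hη, hT⟩ := good_eta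
    ((insert 0 (G.support.image G.coeff ∪ Finset.univ.image X ∪ Finset.univ.image Z)).image
      fun y => y - σ (τ y)) (fun y hy => by
        obtain ⟨y', -, rfl⟩ := Finset.mem_image.1 hy
        exact h2 y')
  have hη' : D.val (algebraMap E Λ (ι η)) < 1 := by
    rw [hι, ← IsScalarTower.algebraMap_apply]
    exact hη
  have : IsScalarTower L E Λ := IsScalarTower.of_algebraMap_eq fun c => by
    rw [IsScalarTower.algebraMap_apply L M E, ← IsScalarTower.algebraMap_apply M E Λ,
      ← IsScalarTower.algebraMap_apply]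
  have := D.cpl E (ι η) hη'
  have key : ∀ y ∈ insert 0 (G.support.image G.coeff ∪ Finset.univ.image X ∪ Finset.univ.image Z),
      ∀ c : Og D.val E, c * ι y - c * j' (algebraMap F k (τ y)) ∈
        Ideal.span {j' 1 ^ 2} * Ideal.span {ι η} := by
    intro y hy c
    obtain ⟨v, hv⟩ := Ideal.mem_span_singleton'.1 (hT _ (Finset.mem_image_of_mem _ hy))
    rw [map_one, one_pow, Ideal.span_singleton_one, Ideal.top_mul, hjι, ← mul_sub, ← map_sub,
      ← hv, map_mul, ← mul_assoc]
    exact Ideal.mul_mem_left _ _ (Ideal.mem_span_singleton_self _)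
  have hev : ∀ (c : Og D.val E) (Y : Fin n → Og D.val M), MvPolynomial.eval Y G = 0 →
      MvPolynomial.eval (fun a => c * ι (Y a)) (MvPolynomial.map ι G) = 0 := by
    intro c Y hY
    rw [p4_smul (h5.map ι), p4_eval, hY, map_zero, mul_zero]
  have hjn : Jn (MvPolynomial.map ι G) (fun a => j' s * ι (X a)) fun a => j' t * ι (Z a) := by
    refine VC.lift (Ideal.span {ι η}) (h5.map ι) (hvc.map j') (fun μ => ?_) (fun a => ?_)
      (fun a => ?_) (hev _ X hX0) (hev _ Z hZ0)
    · have h7 := key (G.coeff μ) (by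
        by_cases hμ : μ ∈ G.support
        · exact Finset.mem_insert_of_mem (Finset.mem_union_left _ (Finset.mem_union_left _
            (Finset.mem_image_of_mem _ hμ)))
        · rw [MvPolynomial.notMem_support_iff.1 hμ]
          exact Finset.mem_insert_self _ _) 1
      rw [one_mul, one_mul] at h7
      simpa only [MvPolynomial.coeff_map] using h7
    · rw [map_mul]
      exact key (X a) (Finset.mem_insert_of_mem (Finset.mem_union_left _ (Finset.mem_union_right _
        (Finset.mem_image_of_mem _ (Finset.mem_univ a))))) _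
    · rw [map_mul]
      exact key (Z a) (Finset.mem_insert_of_mem (Finset.mem_union_right _
        (Finset.mem_image_of_mem _ (Finset.mem_univ a)))) _
  have hm := hjn.map (Og D.val E).subtype
  have h7 : MvPolynomial.map (Og D.val E).subtype (MvPolynomial.map ι G) =
      MvPolynomial.map (algebraMap L E) f := by
    rw [IsScalarTower.algebraMap_eq L M E, ← MvPolynomial.map_map (algebraMap L M), ← h4,
      MvPolynomial.map_map, MvPolynomial.map_map]
    exact congrArg (fun φ => MvPolynomial.map φ G) (RingHom.ext hι)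
  have h8 : ∀ (c : k) (v : M) (y : Fin n → M) (Y : Fin n → Og D.val M),
      (∀ a, (Y a : M) = v * y a) → (fun a => (Og D.val E).subtype (j' c * ι (Y a))) =
        fun a => j c * algebraMap M E v * algebraMap M E (y a) := by
    intro c v y Y hY
    funext a
    rw [Subring.subtype_apply, MulMemClass.coe_mul, hj', hι, hY, map_mul, mul_assoc]
  rw [h7, h8 s u x X hX, h8 t w z Z hZ] at hm
  exact ⟨E, hE, fun h => hlk (h.trans hdvd), _, _,
    mul_ne_zero ((map_ne_zero j).2 hs) ((map_ne_zero _).2 hu),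
    mul_ne_zero ((map_ne_zero j).2 ht) ((map_ne_zero _).2 hw), hm⟩

theorem Lf.good_sat (D : Lf L Λ p) (hf : Hyp f d) (hg : GoodOn (Og D.val L) f) {l r : ℕ}
    (hl : l.Prime) (hlp : l ≠ p) {Z : Cy Λ n} (hZ : Z ∈ Z1 Λ f)
    (h : ((l ^ r : ℕ) : ℤ) ∣ Finsupp.degree Z) : Z ∈ Sat Λ f (l ^ r) := by
  obtain ⟨x0, hx0, hx1⟩ := D.good_pt hf hg
  have : ExpChar L p := ExpChar.prime Fact.out
  have hp : p.Coprime (l ^ r) :=
    ((Nat.coprime_primes Fact.out hl).2 hlp.symm).pow_right r
  have key : ∀ Z ∈ Z1 Λ f, Z - Finsupp.degree Z • orb L Λ x0 ∈ Sat Λ f (l ^ r) := by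
    intro Z hZ
    induction hZ using AddSubgroup.closure_induction with
    | mem Z hZ =>
      obtain ⟨E, _, _, _, x, h0, h1, rfl⟩ := hZ
      let _ : Algebra E Λ := (IsAlgClosed.lift : E →ₐ[L] Λ).toRingHom.toAlgebra
      have : IsScalarTower L E Λ := IsScalarTower.of_algebraMap_eq fun c =>
        ((IsAlgClosed.lift : E →ₐ[L] Λ).commutes c).symm
      have hne : ∀ {A B : Type} [Field A] [Field B] (φ : A →+* B) {c : B} {y : Fin n → A},
          c ≠ 0 → y ≠ 0 → (fun a => c * φ (y a)) ≠ 0 := by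
        intro A B _ _ φ c y hc hy h2
        refine hy (funext fun a => ?_)
        exact (map_eq_zero φ).1 ((mul_eq_zero.1 (congrFun h2 a)).resolve_left hc)
      have h2 : (fun a => algebraMap L E (x0 a)) ≠ 0 := by
        simpa only [one_mul] using hne (algebraMap L E) one_ne_zero hx0
      have h3 : MvPolynomial.aeval (fun a => algebraMap L E (x0 a)) f = 0 := by
        exact (MvPolynomial.aeval_algebraMap_apply E x0 f).trans (by rw [hx1, map_zero])
      obtain ⟨E', hE', hl', s, t, hs, ht, hjn⟩ := D.good_jn hf hg hl E h0 h2 h1 h3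
      have : FiniteDimensional L E' := Module.Finite.trans E E'
      have h4 := jn_mem_sat (Λ := Λ) hp (hne _ hs h0) (hne _ ht h2) hjn
      rw [orb_smul hs, orb_smul ht, orb_tower, orb_tower, orb_tower, ← smul_sub] at h4
      have h5 : (Field.finSepDegree E E').Coprime (l ^ r) :=
        (((Nat.Prime.coprime_iff_not_dvd hl).2 fun h6 =>
          hl' (h6.trans (Field.finSepDegree_dvd_finrank E E'))).symm).pow_right r
      rw [degree_orb h0, natCast_zsmul]
      exact sat_of_smul h5 h4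
    | zero =>
      rw [map_zero, zero_smul, sub_zero]
      exact zero_mem _
    | add Z Z' _ _ h1 h2 =>
      rw [map_add, add_smul, add_sub_add_comm]
      exact add_mem h1 h2
    | neg Z _ h1 =>
      rw [map_neg, neg_smul, ← neg_sub']
      exact neg_mem h1
  have h2 := add_mem (key Z hZ) (zsmul_mem_sat hp (orb_mem_Z1 hx0 hx1) h)
  rwa [sub_add_cancel] at h2

end Pool.Agent.CE
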