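import Pool.Agent.Lib.MP_72c364_ag.CDefs
import Pool.Agent.Lib.MP_751085_ag.WDefs

/-! Auxiliary notions: orbits, very free curves, local fields, approximate zeros. -/

namespace Pool.Agent.CE

open scoped Classical Polynomial NNReal WithZero

noncomputable section

section Cycles

/-- the sum of the conjugates of a point -/
def orb (L Λ : Type) {E : Type} [Field L] [Field Λ] [Field E] [Algebra L Λ] [Algebra L E]
    [FiniteDimensional L E] {n : ℕ} (x : Fin n → E) : Cy Λ n :=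
  ∑ σ : E →ₐ[L] Λ, pt fun a => σ (x a)

variable {L : Type} (Λ : Type) [Field L] [Field Λ] [Algebra L Λ] {n : ℕ}

/-- the set of the orbits on the hypersurface -/
def Os (f : MvPolynomial (Fin n) L) : Set (Cy Λ n) :=
  {D | ∃ (E : Type) (_ : Field E) (_ : Algebra L E) (_ : FiniteDimensional L E)
    (x : Fin n → E), x ≠ 0 ∧ MvPolynomial.aeval x f = 0 ∧ D = orb L Λ x}

/-- invariant cycles -/
def Z1 (f : MvPolynomial (Fin n) L) : AddSubgroup (Cy Λ n) := AddSubgroup.closure (Os Λ f)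

/-- effective invariant cycles -/
def Ef (f : MvPolynomial (Fin n) L) : AddSubmonoid (Cy Λ n) := AddSubmonoid.closure (Os Λ f)

/-- relations modulo `N` -/
def RN (f : MvPolynomial (Fin n) L) (N : ℕ) : AddSubgroup (Cy Λ n) :=
  REq Λ f ⊔ (Z0 Λ f).map (nsmulAddMonoidHom N)

/-- cycles with a multiple prime to `N` among the relations modulo `N` -/
def Sat (f : MvPolynomial (Fin n) L) (N : ℕ) : AddSubgroup (Cy Λ n) where
  carrier := {D | ∃ m : ℕ, m.Coprime N ∧ m • D ∈ RN Λ f N}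
  zero_mem' := ⟨1, Nat.coprime_one_left N, by rw [smul_zero]; exact zero_mem _⟩
  add_mem' := by
    rintro a b ⟨m, h1, h2⟩ ⟨m', h3, h4⟩
    refine ⟨m * m', Nat.Coprime.mul_left h1 h3, ?_⟩
    rw [smul_add]
    exact add_mem (by rw [mul_comm, mul_smul]; exact nsmul_mem h2 _)
      (by rw [mul_smul]; exact nsmul_mem h4 _)
  neg_mem' := by
    rintro a ⟨m, h1, h2⟩
    exact ⟨m, h1, by rw [smul_neg]; exact neg_mem h2⟩

/-- a root of order `q` -/
def qr {Λ : Type} [Field Λ] (q : ℕ) (z : Λ) : Λ := Function.invFun (fun w : Λ => w ^ q) z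

/-- the point attached to the root `ρ` -/
def yv {Λ : Type} [Field Λ] [Algebra L Λ] (q : ℕ) (Y : Fin n → L[X]) (ρ : Λ) : Fin n → Λ :=
  fun a => qr q (Polynomial.aeval ρ (Y a))

/-- the cycle `D` is the sum of the primitive points attached to the integral roots of `φ` -/
structure Rep {Λ : Type} [Field Λ] [Algebra L Λ] (val : Valuation Λ ℝ≥0)
    (f : MvPolynomial (Fin n) L) (q : ℕ) (φ : L[X]) (Y : Fin n → L[X]) (D : Cy Λ n) : Prop where
  mon : φ.Monic
  sep : φ.Separable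
  int : ∀ ρ ∈ φ.aroots Λ, val ρ ≤ 1
  le : ∀ ρ ∈ φ.aroots Λ, ∀ a, val (yv q Y ρ a) ≤ 1
  pr : ∀ ρ ∈ φ.aroots Λ, ∃ a, val (yv q Y ρ a) = 1
  zero : ∀ ρ ∈ φ.aroots Λ, MvPolynomial.aeval (yv q Y ρ) f = 0
  sum : D = ((φ.aroots Λ).map fun ρ => pt (yv q Y ρ)).sum

end Cycles

section Curves

variable {B : Type} [CommRing B] {n : ℕ}

/-- the linearised equation along the curve `γ` -/
def Dg (f : MvPolynomial (Fin n) B) (γ y : Fin n → B[X]) : B[X] :=
  ∑ a, MvPolynomial.aeval γ (MvPolynomial.pderiv a f) * y a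

/-- the linearised equation is onto, up to the factor `c`, with two conditions to spare -/
def Sur (f : MvPolynomial (Fin n) B) (d E : ℕ) (γ : Fin n → B[X]) (c : B) : Prop :=
  ∀ j, j + 2 ≤ d * E → ∃ y : Fin n → B[X], (∀ a, (y a).natDegree + 2 ≤ E) ∧
    Dg f γ y = Polynomial.C c * Polynomial.X ^ j

/-- a very free curve from `P` to `Q` -/
def VC (f : MvPolynomial (Fin n) B) (d : ℕ) (P Q : Fin n → B) (c : B) : Prop :=
  ∃ (E : ℕ) (γ : Fin n → B[X]), 2 ≤ E ∧ (∀ a, (γ a).natDegree ≤ E) ∧ MvPolynomial.aeval γ f = 0 ∧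
    (∀ a, (γ a).eval 0 = P a) ∧ (∀ a, (γ a).eval 1 = Q a) ∧ Sur f d E γ c

/-- a very free curve through `P` -/
def VT (f : MvPolynomial (Fin n) B) (d : ℕ) (P : Fin n → B) : Prop := ∃ Q, VC f d P Q 1

/-- a curve from `P` to `Q` -/
def Jn (f : MvPolynomial (Fin n) B) (P Q : Fin n → B) : Prop :=
  ∃ γ : Fin n → B[X], MvPolynomial.aeval γ f = 0 ∧ (∀ a, (γ a).eval 0 = P a) ∧
    ∀ a, (γ a).eval 1 = Q a

/-- degree and leading coefficient of a form along a curve -/
theorem aeval_top {f : MvPolynomial (Fin n) B} {d E : ℕ} (hf : f.IsHomogeneous d)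
    {γ : Fin n → B[X]} (h : ∀ a, (γ a).natDegree ≤ E) :
    (MvPolynomial.aeval γ f).natDegree ≤ d * E ∧
      (MvPolynomial.aeval γ f).coeff (d * E) = MvPolynomial.eval (fun a => (γ a).coeff E) f := by
  have key : ∀ (s : Finset (Fin n)) (μ : Fin n → ℕ),
      (∏ a ∈ s, γ a ^ μ a).natDegree ≤ (∑ a ∈ s, μ a) * E ∧
      (∏ a ∈ s, γ a ^ μ a).coeff ((∑ a ∈ s, μ a) * E) = ∏ a ∈ s, (γ a).coeff E ^ μ a := by
    intro s μ
    induction s using Finset.induction_on with
    | empty => simp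
    | insert a s ha ih =>
      rw [Finset.prod_insert ha, Finset.sum_insert ha, Finset.prod_insert ha, add_mul]
      have h1 : (γ a ^ μ a).natDegree ≤ μ a * E := Polynomial.natDegree_pow_le_of_le _ (h a)
      refine ⟨Polynomial.natDegree_mul_le.trans (add_le_add h1 ih.1), ?_⟩
      rw [Polynomial.coeff_mul_add_eq_of_natDegree_le h1 ih.1, ih.2,
        Polynomial.coeff_pow_of_natDegree_le (h a)]
  have hd : ∀ μ ∈ f.support, ∑ a, μ a = d := fun μ hμ => by
    rw [← Finsupp.degree_eq_sum, Finsupp.degree_eq_weight_one]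
    exact hf (MvPolynomial.mem_support_iff.1 hμ)
  rw [MvPolynomial.aeval_def, MvPolynomial.eval₂_eq', MvPolynomial.eval_eq',
    Polynomial.finsetSum_coeff]
  refine ⟨Polynomial.natDegree_sum_le_of_forall_le _ _ fun μ hμ =>
    (Polynomial.natDegree_C_mul_le _ _).trans (hd μ hμ ▸ (key _ _).1),
    Finset.sum_congr rfl fun μ hμ => ?_⟩
  rw [Polynomial.algebraMap_apply, Polynomial.coeff_C_mul, ← hd μ hμ, (key _ _).2]
  rfl

end Curves

section Local

/-- the integers of a subfield -/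
def Og {Λ : Type} [Field Λ] (val : Valuation Λ ℝ≥0) (M : Type) [Field M] [Algebra M Λ] :
    Subring M := (val.comap (algebraMap M Λ)).integer

/-- a local field of residue characteristic `p` in its algebraic closure -/
structure Lf (L Λ : Type) [Field L] [Field Λ] [Algebra L Λ] (p : ℕ) where
  val : Valuation Λ ℝ≥0
  inv : ∀ (γ : Λ ≃ₐ[L] Λ) (z : Λ), val (γ z) = val z
  cpl : ∀ (M : Type) [Field M] [Algebra L M] [Algebra M Λ] [IsScalarTower L M Λ]
    [FiniteDimensional L M] (η : Og val M), val (algebraMap M Λ η) < 1 →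
      IsAdicComplete (Ideal.span {η}) (Og val M)
  π : L
  π0 : π ≠ 0
  π1 : val (algebraMap L Λ π) < 1
  res : ∃ r, 0 < r ∧ ∀ z : L, val (algebraMap L Λ z) ≤ 1 →
    val (algebraMap L Λ (z ^ p ^ r - z)) < 1

/-- the local field is a completion of `K` at `v` -/
structure Cm {K : Type} [Field K] (v : Valuation K ℤᵐ⁰) (L Λ : Type) [Field L] [Field Λ]
    [Algebra K L] [Algebra L Λ] [Algebra K Λ] (p : ℕ) extends Lf L Λ p where
  cmp : (val.comap (algebraMap K Λ)).IsEquiv v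
  dns : ∀ (z : L) (ε : ℝ≥0), 0 < ε → ∃ a : K, val (algebraMap L Λ z - algebraMap K Λ a) ≤ ε

/-- global data `ψ`, `Y`, `c` that approximate the points `Φ θ` over the local field `L` -/
structure Pk {K : Type} (L : Type) {Λ : Type} [Field K] [Field L] [Field Λ] [Algebra K L]
    [Algebra L Λ] [Algebra K Λ] {n : ℕ} (val : Valuation Λ ℝ≥0) (f : MvPolynomial (Fin n) K)
    (N q : ℕ) (ψ : K[X]) (Y : Fin n → K[X]) (c : K) (Φ : Λ → Fin n → Λ) : Prop where
  sep : ψ.Separable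
  eqv : ∀ (γ : Λ ≃ₐ[L] Λ), ∀ θ ∈ ψ.aroots Λ, ∀ b, Φ (γ θ) b = γ (Φ θ b)
  ne : ∀ θ ∈ ψ.aroots Λ, Φ θ ≠ 0
  zero : ∀ θ ∈ ψ.aroots Λ, MvPolynomial.aeval (Φ θ) (MvPolynomial.map (algebraMap K L) f) = 0
  nc : ∀ θ ∈ ψ.aroots Λ,
    HZ.NC val (MvPolynomial.map (algebraMap K Λ) f) (yv q Y θ) (algebraMap K Λ c)
  near : ∀ θ ∈ ψ.aroots Λ, ∀ (M : IntermediateField L Λ) [FiniteDimensional L M]
    (x z : Fin n → M) (t : Λ), (∀ b, (z b : Λ) = Φ θ b) → x ≠ 0 →
      MvPolynomial.aeval x (MvPolynomial.map (algebraMap K L) f) = 0 →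
      (∀ b, val (t * x b - yv q Y θ b) ≤ val (algebraMap K Λ c)) →
        orb L Λ x - orb L Λ z ∈ Sat Λ (MvPolynomial.map (algebraMap K L) f) N

end Local

end

end Pool.Agent.CE
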