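import Pool.Agent.Lib.MP_72c364_ag.Open
import Pool.Agent.Lib.MP_72c364_ag.Loc
import Pool.Agent.Lib.MP_72c364_ag.Rep

/-! Global approximation of an effective local cycle. -/

namespace Pool.Agent.CE

open scoped Classical NNReal WithZero Polynomial
open HZ

theorem pack_tri {Λ : Type} [Field Λ] {val : Valuation Λ ℝ≥0} {x y z : Λ} {ε : ℝ≥0}
    (h : val (x - y) ≤ ε) (h' : val (y - z) ≤ ε) : val (x - z) ≤ ε := by
  rw [← sub_add_sub_cancel x y z]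
  exact val.map_add_le h h'

theorem nc_of_near {Λ : Type} [Field Λ] {val : Valuation Λ ℝ≥0} {n : ℕ}
    {f : MvPolynomial (Fin n) Λ} (hs : NS f) {y : Fin n → Λ} (h0 : ∀ a, val (y a) ≤ 1)
    (h0' : ∃ a, val (y a) = 1) (h1 : MvPolynomial.eval y f = 0) {c : Λ} (hc : c ≠ 0)
    (hc1 : val c < 1) (hc2 : ∀ μ, val (c * f.coeff μ) ≤ 1) : ∃ ε : ℝ≥0, 0 < ε ∧
      ∀ x : Fin n → Λ, (∀ a, val (x a - y a) ≤ ε) → NC val f x c := by
  obtain ⟨b, hb⟩ := h0'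
  have hy : y ≠ 0 := by
    rintro rfl
    simp at hb
  obtain ⟨i, hi⟩ := hs.grad_ne hy
  rw [MvPolynomial.aeval_eq_eval] at hi
  have hw : 0 < val (MvPolynomial.eval y (MvPolynomial.pderiv i f)) := val.pos_iff.2 hi
  obtain ⟨δ1, p1, h2⟩ := val_eval_near (val := val) (MvPolynomial.pderiv i f) (half_pos hw)
  obtain ⟨δ2, p2, h3⟩ := val_eval_near (val := val) f
    (pow_pos (val.pos_iff.2 (mul_ne_zero hc hi)) 2)
  refine ⟨min (min δ1 δ2) (1 / 2), lt_min (lt_min p1 p2) one_half_pos, fun x hx => ?_⟩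
  have h4 : ∀ a, val (x a - y a) < 1 := fun a =>
    ((hx a).trans (min_le_right _ _)).trans_lt one_half_lt_one
  have h5 : ∀ a, val (x a) ≤ 1 := fun a => by
    rw [← sub_add_cancel (x a) (y a)]
    exact val.map_add_le (h4 a).le (h0 a)
  have h6 := val.map_eq_of_sub_lt ((h2 x y h5 h0 fun a =>
    (hx a).trans ((min_le_left _ _).trans (min_le_left _ _))).trans_lt (half_lt_self hw))
  have h7 := h3 x y h5 h0 fun a => (hx a).trans ((min_le_left _ _).trans (min_le_right _ _))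
  refine ⟨hc, hc1, hc2, h5, ⟨b, (val.map_eq_of_sub_lt (hb ▸ h4 b)).trans hb⟩, i,
    val.pos_iff.1 (h6 ▸ hw), ?_⟩
  rwa [h1, sub_zero, map_mul, ← h6, ← map_mul] at h7

variable {K L Λ : Type} [Field K] [Field L] [Field Λ] [Algebra K L] [Algebra L Λ] [Algebra K Λ]
  [IsScalarTower K L Λ] [IsAlgClosed Λ] [Algebra.IsAlgebraic L Λ] {v : Valuation K ℤᵐ⁰} {p : ℕ}
  [Fact p.Prime] [CharP K p] {n d : ℕ}

omit [IsAlgClosed Λ] [Algebra.IsAlgebraic L Λ] [Fact p.Prime] [CharP K p] in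
theorem pack_coeff (D : Cm v L Λ p) {g : L[X]} {g0 g1 : K[X]} {γ : K} {δ : ℝ≥0}
    (hγ : D.val (algebraMap K Λ γ) ≤ δ) (h1 : ∀ i, v (g1.coeff i - g0.coeff i) ≤ v γ)
    (h0 : ∀ i, D.val (algebraMap L Λ ((g0.map (algebraMap K L)).coeff i - g.coeff i)) ≤ δ) (i : ℕ) :
    D.val (algebraMap L Λ ((g1.map (algebraMap K L)).coeff i - g.coeff i)) ≤ δ := by
  have h2 := ((D.le_iff _ _).2 (h1 i)).trans hγ
  have h3 := h0 i
  rw [map_sub, Polynomial.coeff_map, ← IsScalarTower.algebraMap_apply] at h3 ⊢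
  rw [map_sub] at h2
  exact pack_tri h2 h3

theorem Cm.near (D : Cm v L Λ p) {f : MvPolynomial (Fin n) L} {a : ℕ} {φ : L[X]}
    {Y : Fin n → L[X]} {Z : Cy Λ n} (h : Rep D.val f (p ^ a) φ Y Z) {ε : ℝ≥0} (hε : 0 < ε) :
    ∃ (ψ0 : K[X]) (Y0 : Fin n → K[X]) (γ : K), γ ≠ 0 ∧ ψ0.Monic ∧ ψ0.natDegree = φ.natDegree ∧
      ∀ (ψ : K[X]) (Y' : Fin n → K[X]), ψ.Monic → ψ.natDegree = φ.natDegree →
        (∀ i, v (ψ.coeff i - ψ0.coeff i) ≤ v γ) →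
        (∀ b i, v ((Y' b).coeff i - (Y0 b).coeff i) ≤ v γ) →
        ψ.Separable ∧ ∃ r : Λ → Λ, (ψ.aroots Λ).map r = φ.aroots Λ ∧
          (∀ θ ∈ ψ.aroots Λ, ∀ b, D.val (yv (p ^ a) Y' θ b - yv (p ^ a) Y (r θ) b) ≤ ε) ∧
          ∀ (σ : Λ ≃ₐ[L] Λ), ∀ θ ∈ ψ.aroots Λ, r (σ θ) = σ (r θ) := by
  have : CharP Λ p := charP_of_injective_algebraMap (algebraMap K Λ).injective p
  have hq : 0 < p ^ a := pow_pos (Fact.out : p.Prime).pos a
  obtain ⟨δ1, p1, -, h1⟩ := exists_lb (Set.finite_univ (α := Fin n))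
    (P := fun b δ => ∀ (g' : L[X]) (z z' : Λ),
      (∀ i, D.val (algebraMap L Λ (g'.coeff i - (Y b).coeff i)) ≤ δ) →
      D.val z ≤ 1 → D.val z' ≤ 1 → D.val (z' - z) ≤ δ →
        D.val (Polynomial.aeval z' g' - Polynomial.aeval z (Y b)) ≤ ε ^ p ^ a)
    (fun b _ => val_aeval_near (Y b) (pow_pos hε _))
    fun b δ δ' hδ H g' z z' k1 k2 k3 k4 => H g' z z' (fun i => (k1 i).trans hδ) k2 k3 (k4.trans hδ)
  obtain ⟨δ2, p2, h2⟩ := exists_match D.inv h.mon h.sep h.int p1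
  obtain ⟨ψ0, m0, d0, h3⟩ := D.approx_monic h.mon p2
  choose Y0 h4 using fun b => D.approx_poly (Y b) p1
  obtain ⟨γ, hγ, h5⟩ := D.small (lt_min p1 p2)
  refine ⟨ψ0, Y0, γ, hγ, m0, d0, fun ψ Y' m1 d1 k1 k2 => ?_⟩
  obtain ⟨s1, r, r1, r2, r3⟩ := h2 (ψ.map (algebraMap K L)) (m1.map _)
    ((Polynomial.natDegree_map _).trans d1) (pack_coeff D (h5.trans (min_le_right _ _)) k1 h3)
  rw [Polynomial.aroots_map] at r1 r2 r3
  refine ⟨(Polynomial.separable_map _).1 s1, r, r1, fun θ hθ b => ?_, r3⟩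
  have h6 := h1 b trivial _ _ θ (pack_coeff D (h5.trans (min_le_left _ _)) (k2 b) (h4 b))
    (h.int _ (r1 ▸ Multiset.mem_map_of_mem r hθ)) (r2 θ hθ).1 (r2 θ hθ).2
  rw [Polynomial.aeval_map_algebraMap] at h6
  refine (pow_le_pow_iff_left₀ zero_le zero_le hq.ne').1 ?_
  rwa [← map_pow, sub_pow_char_pow, yv, yv, qr_pow hq, qr_pow hq]

theorem Cm.pack (D : Cm v L Λ p) {f : MvPolynomial (Fin n) K} (hf : Hyp f d) {N : ℕ}
    (hN : p.Coprime N) {Z : Cy Λ n} (hZ : Z ∈ Ef Λ (MvPolynomial.map (algebraMap K L) f)) {m : ℕ}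
    (hm : Finsupp.degree Z = m) : ∃ a0 : ℕ, ∀ a, a0 ≤ a → ∃ c0 : K, c0 ≠ 0 ∧ ∀ c : K, c ≠ 0 →
      v c ≤ v c0 → ∃ (ψ0 : K[X]) (Y0 : Fin n → K[X]) (γ : K), γ ≠ 0 ∧ ψ0.Monic ∧
        ψ0.natDegree = m ∧ ∀ (ψ : K[X]) (Y : Fin n → K[X]), ψ.Monic → ψ.natDegree = m →
          (∀ i, v (ψ.coeff i - ψ0.coeff i) ≤ v γ) →
          (∀ b i, v ((Y b).coeff i - (Y0 b).coeff i) ≤ v γ) →
          ∃ Φ, Pk L D.val f N (p ^ a) ψ Y c Φ ∧
            Z = ((ψ.aroots Λ).map fun θ => pt (Φ θ)).sum := by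
  have : CharP Λ p := charP_of_injective_algebraMap (algebraMap K Λ).injective p
  have : CharP L p := charP_of_injective_algebraMap (algebraMap K L).injective p
  obtain ⟨a0, h0⟩ := D.toLf.exists_rep (hf.map _).hom hZ
  refine ⟨a0, fun a ha => ?_⟩
  obtain ⟨φ, Y, h⟩ := h0 a ha
  have hfin : {ρ | ρ ∈ φ.aroots Λ}.Finite := Multiset.finite_toSet _
  obtain ⟨ε1, p1, l1, h1⟩ := exists_lb hfin
    (P := fun ρ ε => ∀ (M : IntermediateField L Λ) [FiniteDimensional L M] (x z : Fin n → M)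
      (t : Λ), (∀ b, (z b : Λ) = yv (p ^ a) Y ρ b) → x ≠ 0 →
        MvPolynomial.aeval x (MvPolynomial.map (algebraMap K L) f) = 0 →
        (∀ b, D.val (t * x b - yv (p ^ a) Y ρ b) ≤ ε) →
          orb L Λ x - orb L Λ z ∈ Sat Λ (MvPolynomial.map (algebraMap K L) f) N)
    (fun ρ hρ => D.toLf.sat_of_near (hf.map _) hN (h.le ρ hρ) (h.pr ρ hρ) (h.zero ρ hρ))
    fun ρ ε ε' hε H M _ x z t k1 k2 k3 k4 => H M x z t k1 k2 k3 fun b => (k4 b).trans hε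
  obtain ⟨ε2, p2, -, h2⟩ := exists_lb (MvPolynomial.map (algebraMap K Λ) f).support.finite_toSet
    (P := fun μ ε => ε * D.val ((MvPolynomial.map (algebraMap K Λ) f).coeff μ) ≤ 1)
    (fun μ hμ => by
      have h3 := D.val.pos_iff.2 (MvPolynomial.mem_support_iff.1 hμ)
      exact ⟨_, inv_pos.2 h3, (inv_mul_cancel₀ h3.ne').le⟩)
    fun μ ε ε' hε H => (mul_le_mul_left hε _).trans H
  obtain ⟨c0, hc0, h3⟩ := D.small (lt_min p1 p2)
  refine ⟨c0, hc0, fun c hc hcc => ?_⟩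
  have h4 := ((D.le_iff _ _).2 hcc).trans h3
  obtain ⟨ε3, p3, -, h5⟩ := exists_lb hfin
    (P := fun ρ ε => ∀ x : Fin n → Λ, (∀ b, D.val (x b - yv (p ^ a) Y ρ b) ≤ ε) →
      NC D.val (MvPolynomial.map (algebraMap K Λ) f) x (algebraMap K Λ c))
    (fun ρ hρ => nc_of_near (hf.ns.map _) (h.le ρ hρ) (h.pr ρ hρ)
      (by
        have h5 := h.zero ρ hρ
        rw [MvPolynomial.aeval_map_algebraMap] at h5
        rwa [MvPolynomial.eval_map, ← MvPolynomial.aeval_def])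
      ((map_ne_zero _).2 hc) ((h4.trans (min_le_left _ _)).trans_lt l1) fun μ => by
        by_cases hμ : μ ∈ (MvPolynomial.map (algebraMap K Λ) f).support
        · rw [map_mul]
          exact (mul_le_mul_left (h4.trans (min_le_right _ _)) _).trans (h2 μ hμ)
        · simp [MvPolynomial.notMem_support_iff.1 hμ])
    fun ρ ε ε' hε H x k => H x fun b => (k b).trans hε
  obtain ⟨ψ0, Y0, γ, hγ, m0, d0, h6⟩ := D.near h (lt_min p1 p3)
  have hd : φ.natDegree = m := by exact_mod_cast h.degree.symm.trans hm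
  refine ⟨ψ0, Y0, γ, hγ, m0, d0.trans hd, fun ψ Y' m1 d1 k1 k2 => ?_⟩
  obtain ⟨s1, r, r1, r2, r3⟩ := h6 ψ Y' m1 (d1.trans hd.symm) k1 k2
  have hr : ∀ θ ∈ ψ.aroots Λ, r θ ∈ φ.aroots Λ := fun θ hθ => r1 ▸ Multiset.mem_map_of_mem r hθ
  refine ⟨fun θ => yv (p ^ a) Y (r θ), ⟨s1, fun σ θ hθ b => ?_, fun θ hθ => h.ne (hr θ hθ),
    fun θ hθ => h.zero _ (hr θ hθ),
    fun θ hθ => h5 _ (hr θ hθ) _ fun b => (r2 θ hθ b).trans (min_le_right _ _),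
    fun θ hθ M _ x z t j1 j2 j3 j4 => h1 _ (hr θ hθ) M x z t j1 j2 j3 fun b =>
      pack_tri ((j4 b).trans (h4.trans (min_le_left _ _)))
        ((r2 θ hθ b).trans (min_le_left _ _))⟩, ?_⟩
  · rw [r3 σ θ hθ, yv_map]
  · rw [h.sum, ← r1, Multiset.map_map]
    rfl

end Pool.Agent.CE
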