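import Pool.Agent.Lib.MP_72c364_ag.Fac
import Pool.Agent.Lib.MP_72c364_ag.Pack
import Pool.Agent.Lib.MP_72c364_ag.Good
import Pool.Agent.Lib.MP_751085_ag.Wa3

/-! The local-global principle for zero-cycles modulo `N`. -/

namespace Pool.Agent.CE

open scoped Classical NNReal WithZero Polynomial
open HZ

theorem os_nonempty {L : Type} (Λ : Type) [Field L] [Field Λ] [Algebra L Λ] {n d : ℕ}
    {f : MvPolynomial (Fin n) L} (hf : Hyp f d) : (Os Λ f).Nonempty := by
  obtain ⟨l, h1, h2⟩ := Nat.exists_infinite_primes (d + 1)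
  have hd := hf.hd
  have hn := hf.hn
  obtain ⟨E, _, _, h3, -, x, h4, h5⟩ := pl_of_not_dvd (by omega) h2 (fun h => by
    have := Nat.le_of_dvd (by omega) h
    omega) hf.hom
  exact ⟨_, E, _, _, h3, x, h4, h5, rfl⟩

theorem res_sum {Λ Λ' α : Type} [Field Λ] [Field Λ'] {n : ℕ} (e : Λ →+* Λ') (s : Finset α)
    (D : α → Cy Λ n) : res e (∑ i ∈ s, D i) = ∑ i ∈ s, res e (D i) := by
  induction s using Finset.induction_on with
  | empty => simp [res_zero]
  | insert a s ha ih => rw [Finset.sum_insert ha, Finset.sum_insert ha, res_add, ih]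

theorem aroots_prod_sum {K Λ α G : Type} [Field K] [Field Λ] [Algebra K Λ] [AddCommMonoid G]
    (s : Finset α) (g : α → K[X]) (hg : ∀ i, g i ≠ 0) (u : Λ → G) :
    (((∏ i ∈ s, g i).aroots Λ).map u).sum = ∑ i ∈ s, (((g i).aroots Λ).map u).sum := by
  induction s using Finset.induction_on with
  | empty => simp
  | insert a s ha ih =>
    rw [Finset.prod_insert ha, Finset.sum_insert ha, Polynomial.aroots_mul
      (mul_ne_zero (hg a) (Finset.prod_ne_zero_iff.2 fun i _ => hg i)), Multiset.map_add,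
      Multiset.sum_add, ih]

theorem bad_main {F K : Type} [Field F] [Finite F] [Field K] [Algebra F K] (hK : FF F K) {p : ℕ}
    [Fact p.Prime] [CharP K p] {n d l r : ℕ} (hl : l.Prime) (hlp : l ≠ p)
    {f : MvPolynomial (Fin n) K} (hf : Hyp f d) (S : Finset K)
    (hS : ∀ (Λ : Type) [Field Λ] [Algebra K Λ] (V : Subring Λ), (∀ s ∈ S, algebraMap K Λ s ∈ V) →
      GoodOn V (MvPolynomial.map (algebraMap K Λ) f)) {ι : Type} [Fintype ι]
    (v : ι → Valuation K ℤᵐ⁰) (hv : ∀ j, Function.Surjective (v j))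
    (hi : Function.Injective fun j => (v j).valuationSubring)
    (hvS : ∀ V : ValuationSubring K, (∀ s ∈ S, s ∈ V) ∨ ∃ j, (v j).valuationSubring = V)
    {L Λ : ι → Type} [i1 : ∀ j, Field (L j)] [i2 : ∀ j, Field (Λ j)] [∀ j, Algebra K (L j)]
    [∀ j, Algebra (L j) (Λ j)] [∀ j, Algebra K (Λ j)] [∀ j, IsScalarTower K (L j) (Λ j)]
    [∀ j, IsAlgClosed (Λ j)] [∀ j, Algebra.IsAlgebraic (L j) (Λ j)]
    (D : ∀ j, Cm (v j) (L j) (Λ j) p) (z : ∀ j, Cy (Λ j) n)
    (hz : ∀ j, z j ∈ Z1 (Λ j) (MvPolynomial.map (algebraMap K (L j)) f)) {δ : ℤ}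
    (hδ : ∀ j, Finsupp.degree (z j) = δ) (Λ0 : Type) [Field Λ0] [Algebra K Λ0] [IsAlgClosed Λ0] :
    ∃ z0 ∈ Z0 Λ0 f, ((l ^ r : ℕ) : ℤ) ∣ Finsupp.degree z0 - δ ∧ ∀ (j : ι) (e : Λ0 →ₐ[K] Λ j),
      res (e : Λ0 →+* Λ j) z0 - z j ∈
        Sat (Λ j) (MvPolynomial.map (algebraMap K (L j)) f) (l ^ r) := by
  have hp : p.Prime := Fact.out
  have hN : p.Coprime (l ^ r) := ((Nat.coprime_primes hp hl).2 hlp.symm).pow_right r
  have cL : ∀ j, CharP (L j) p := fun j =>
    charP_of_injective_algebraMap (algebraMap K (L j)).injective p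
  have eL : ∀ j, ExpChar (L j) p := fun j => ExpChar.prime hp
  obtain ⟨m0, h1, h2⟩ := exists_eff hN (pow_pos hl.pos r) _
    (fun j => os_nonempty (Λ j) (hf.map (algebraMap K (L j)))) z hz hδ
  choose e he1 he2 he3 using h2
  choose a0 ha0 using fun j => (D j).pack hf hN (he1 j) (he2 j)
  choose c0 hc0 hc1 using fun j => ha0 j (Finset.univ.sup a0) (Finset.le_sup (Finset.mem_univ j))
  generalize Finset.univ.sup a0 = a at hc1
  obtain ⟨c, hc, hc2⟩ := exists_small v hv hi c0 hc0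
  choose ψ0 Y0 γ g0 g1 g2 g3 using fun j => hc1 j c hc (hc2 j)
  obtain ⟨ψ, p1, p2, p3⟩ := exists_monic_approx v hv hi ψ0 (fun j => ⟨g1 j, g2 j⟩) γ g0
  choose Y p4 using fun b => exists_poly_approx v hv hi (fun j => Y0 j b) γ g0
  choose Φ q1 q2 using fun j => g3 j ψ Y p1 p2 (p3 j) fun b i => p4 b j i
  obtain ⟨k, g, f1, f2⟩ := exists_fac p1
  have f3 : ∀ i, g i ∣ ψ := fun i => f2 ▸ Finset.dvd_prod_of_mem g (Finset.mem_univ i)
  choose E iE iA iF m m1 m2 θ x y y1 y2 y3 y4 y5 using fun i => wa_factor F K hK hl hlp hf S hS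
    (Set.range fun j => (v j).valuationSubring) hvS (f1 i).2 Y a hc
    (fun K' _ _ _ θ x t1 t2 V hV => by
      obtain ⟨j, hj⟩ := hV
      exact (q1 j).nc_of hK (hv j) (D j) (f3 i) K' θ x t1 t2 V hj.symm)
  have hb : ∀ i, ∃ b : ℤ, ((l ^ r : ℕ) : ℤ) ∣ b * m i - 1 := fun i => by
    obtain ⟨u, w, h⟩ := Nat.isCoprime_iff_coprime.2
      (((Nat.Prime.coprime_iff_not_dvd hl).2 (m1 i)).pow_left r)
    exact ⟨w, -u, by rw [← h]; ring⟩
  choose b hb using hb
  refine ⟨∑ i, b i • cyc K Λ0 (y i),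
    sum_mem fun i _ => zsmul_mem (cyc_mem_Z0 (y3 i) (y4 i)) _, ?_, fun j e' => ?_⟩
  · have h3 : (m0 : ℤ) = ∑ i, ((g i).natDegree : ℤ) := by
      rw [← p2, ← f2, Polynomial.natDegree_prod_of_monic _ _ fun i _ => (f1 i).1, Nat.cast_sum]
    rw [← sub_add_sub_cancel _ (m0 : ℤ), map_sum]
    refine dvd_add ?_ h1
    rw [h3, ← Finset.sum_sub_distrib]
    refine Finset.dvd_sum fun i _ => ?_
    rw [map_zsmul, degree_cyc (y3 i), m2 i]
    exact (hb i).trans ⟨(g i).natDegree, by push_cast; ring⟩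
  · rw [← sub_sub_sub_cancel_right _ _ (e j)]
    refine sub_mem ?_ (he3 j)
    rw [q2 j, ← f2, aroots_prod_sum _ _ fun i => (f1 i).1.ne_zero, res_sum,
      ← Finset.sum_sub_distrib]
    refine sum_mem fun i _ => ?_
    have h3 := (q1 j).factor (f1 i).2 (f3 i) (m2 i) (y1 i) (y2 i) (y3 i) (y4 i) fun σ => by
      obtain ⟨t, ht⟩ := y5 i (Λ j) σ (D j).val.valuationSubring ⟨j, (D j).comap.symm⟩
      exact ⟨t, fun b => ((D j).val.isEquiv_valuation_valuationSubring _ _).2 (ht b)⟩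
    have h4 := zsmul_mem_sat hN ((q1 j).mem_Z1 (f1 i).2 (f3 i)) (hb i)
    rw [res_zsmul, res_cyc]
    convert add_mem (zsmul_mem h3 (b i)) h4 using 1
    rw [smul_sub, sub_smul, one_smul, mul_smul, natCast_zsmul]
    abel

/-- the conclusion at one place -/
def Cc {K : Type} [Field K] {n : ℕ} (f : MvPolynomial (Fin n) K) (N : ℕ)
    (z : ∀ v : Valuation K ℤᵐ⁰, Cy (AlgebraicClosure v.Completion) n)
    (z0 : Cy (AlgebraicClosure K) n) : Prop :=
  ∀ v : Valuation K ℤᵐ⁰, Function.Surjective v →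
    ∀ e : AlgebraicClosure K →+* AlgebraicClosure v.Completion,
      (∀ a, e (algebraMap K _ a) = algebraMap v.Completion _ (toHat v a)) →
        res e z0 - z v ∈ RN (AlgebraicClosure v.Completion) (MvPolynomial.map (toHat v) f) N

variable {F K : Type} [Field F] [Finite F] [Field K] [Algebra F K] {p : ℕ} [Fact p.Prime]
  [CharP K p] {n d : ℕ} {f : MvPolynomial (Fin n) K}
  {z : ∀ v : Valuation K ℤᵐ⁰, Cy (AlgebraicClosure v.Completion) n} {δ : ℤ}

theorem main_pow (hK : FF F K) {l r : ℕ} (hl : l.Prime) (hlp : l ≠ p) (hf : Hyp f d)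
    (hz : ∀ v : Valuation K ℤᵐ⁰, Function.Surjective v →
      z v ∈ Z0 (AlgebraicClosure v.Completion) (MvPolynomial.map (toHat v) f) ∧
        Finsupp.degree (z v) = δ) : ∃ z0 ∈ Z0 (AlgebraicClosure K) f, Cc f (l ^ r) z z0 := by
  obtain ⟨S, hS⟩ := exists_good hf.ns
  obtain ⟨k, v, hv, hi, hvS⟩ := hK.finite_places_inj S
  let iA : ∀ v : Valuation K ℤᵐ⁰, Algebra K v.Completion := fun v => (toHat v).toAlgebra
  have D : ∀ v : Valuation K ℤᵐ⁰, Function.Surjective v →
      Cm v v.Completion (AlgebraicClosure v.Completion) p := fun v hv =>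
    (exists_cm hK hv fun _ => rfl).some
  obtain ⟨z0, h1, h2, h3⟩ := bad_main (r := r) (L := fun j => (v j).Completion)
    (Λ := fun j => AlgebraicClosure (v j).Completion) (i1 := fun _ => inferInstance)
    (i2 := fun _ => inferInstance) hK hl hlp hf S hS v hv hi hvS
    (fun j => D (v j) (hv j)) (fun j => z (v j)) (fun j => Z0_le_Z1 (hz _ (hv j)).1)
    (fun j => (hz _ (hv j)).2) (AlgebraicClosure K)
  refine ⟨z0, h1, fun w hw e he => ?_⟩
  let e' : AlgebraicClosure K →ₐ[K] AlgebraicClosure w.Completion := ⟨e, he⟩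
  have h4 : res e z0 - z w ∈ Z0 _ (MvPolynomial.map (toHat w) f) :=
    sub_mem (res_mem (L := w.Completion) e' h1) (hz w hw).1
  refine mem_RN_of_sat h4 ?_
  rcases hvS w.valuationSubring with h5 | ⟨j, h5⟩
  · have : CharP w.Completion p := charP_of_injective_algebraMap (algebraMap K _).injective p
    refine (D w hw).good_sat (hf.map _) (hS _ _ fun s hs => ?_) hl hlp (Z0_le_Z1 h4) ?_
    · rw [mem_Og, ← IsScalarTower.algebraMap_apply, ← (D w hw).val.map_one,
        ← (algebraMap K _).map_one, (D w hw).le_iff, map_one]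
      exact h5 s hs
    · rwa [map_sub, degree_res, (hz w hw).2]
  · obtain rfl := val_unique (hv j) hw h5
    exact h3 j e'

theorem main (hK : FF F K) {N : ℕ} (hN : N.Coprime p) (hf : Hyp f d)
    (hz : ∀ v : Valuation K ℤᵐ⁰, Function.Surjective v →
      z v ∈ Z0 (AlgebraicClosure v.Completion) (MvPolynomial.map (toHat v) f) ∧
        Finsupp.degree (z v) = δ) : ∃ z0 ∈ Z0 (AlgebraicClosure K) f, Cc f N z z0 := by
  have hp : p.Prime := Fact.out
  induction N using Nat.recOnPosPrimePosCoprime with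
  | zero => exact absurd ((Nat.coprime_zero_left p).1 hN) hp.ne_one
  | one =>
    refine ⟨0, zero_mem _, fun v hv e _ => AddSubgroup.mem_sup_right ⟨_, ?_, one_nsmul _⟩⟩
    rw [res_zero, zero_sub]
    exact neg_mem (hz v hv).1
  | prime_pow l r hl hr =>
    refine main_pow hK hl ?_ hf hz
    rintro rfl
    exact hl.ne_one (Nat.eq_one_of_dvd_coprimes hN (dvd_pow_self l hr.ne') dvd_rfl)
  | coprime a b _ _ hab ha hb =>
    obtain ⟨z1, h1, h2⟩ := ha (Nat.Coprime.coprime_mul_right hN)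
    obtain ⟨z2, h3, h4⟩ := hb (Nat.Coprime.coprime_mul_left hN)
    obtain ⟨u, u', h⟩ := Nat.isCoprime_iff_coprime.2 hab
    refine ⟨(u' * b) • z1 + (u * a) • z2, add_mem (zsmul_mem h1 _) (zsmul_mem h3 _),
      fun v hv e he => ?_⟩
    convert mem_RN_mul (u := u') (u' := u) (h2 v hv e he) (h4 v hv e he) using 1
    rw [res_add, res_zsmul, res_zsmul, smul_sub, smul_sub, sub_add_sub_comm, ← add_smul,
      add_comm (u' * b), h, one_smul]

end Pool.Agent.CE
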