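import Pool.Agent.Lib.MP_72c364_ag.CombC
import Pool.Agent.Lib.MP_72c364_ag.ValB
import Pool.Agent.Lib.MP_72c364_ag.OrbB

/-! Close points of a hypersurface over a local field are joined by rational curves. -/

namespace Pool.Agent.CE

open scoped Classical NNReal
open HZ

variable {L Λ : Type} [Field L] [Field Λ] [Algebra L Λ] [IsAlgClosed Λ] [Algebra.IsAlgebraic L Λ]
  {p : ℕ} [Fact p.Prime] [CharP L p] {n d : ℕ} {f : MvPolynomial (Fin n) L}

omit [IsAlgClosed Λ] [Algebra.IsAlgebraic L Λ] [Fact p.Prime] [CharP L p] in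
theorem open_pi (D : Lf L Λ p) (M : Type) [Field M] [Algebra L M] [Algebra M Λ]
    [IsScalarTower L M Λ] : ∃ π : Og D.val M, π ≠ 0 ∧ (π : M) = algebraMap L M D.π ∧
      D.val (algebraMap M Λ π) < 1 := by
  have h1 : D.val (algebraMap M Λ (algebraMap L M D.π)) < 1 := by
    rw [← IsScalarTower.algebraMap_apply]
    exact D.π1
  exact ⟨⟨_, mem_Og.2 h1.le⟩, fun h => D.π0 ((map_eq_zero _).1 (congrArg Subtype.val h)), rfl, h1⟩

omit [IsAlgClosed Λ] [Fact p.Prime] [CharP L p] in
theorem open_ind (D : Lf L Λ p) (hf : Hyp f d) {y : Fin n → Λ} {T : Finset Λ}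
    (hT : ∀ (M : Type) [Field M] [Algebra L M] [Algebra M Λ] [IsScalarTower L M Λ],
      (∀ s ∈ T, s ∈ (algebraMap M Λ).range) → ∃ P' : Fin n → M,
        (∀ a, algebraMap M Λ (P' a) = y a) ∧ VT (MvPolynomial.map (algebraMap L M) f) d P')
    (S : Finset Λ) : ∀ (M : Type) [Field M] [Algebra L M] [Algebra M Λ] [IsScalarTower L M Λ]
      [FiniteDimensional L M] (x : Fin n → M), (∀ a, algebraMap M Λ (x a) = y a) →
      (∀ s ∈ T, s ∈ S ∨ s ∈ (algebraMap M Λ).range) →
        VT (MvPolynomial.map (algebraMap L M) f) d x := by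
  induction S using Finset.induction_on with
  | empty =>
    intro M _ _ _ _ _ x hx h
    obtain ⟨P', h1, h2⟩ := hT M fun s hs => (h s hs).resolve_left (Finset.notMem_empty s)
    have e : P' = x := funext fun a => (algebraMap M Λ).injective ((h1 a).trans (hx a).symm)
    exact e ▸ h2
  | insert θ S _ ih =>
    intro M _ _ _ _ _ x hx h
    have hi : IsIntegral M θ := (Algebra.IsIntegral.isIntegral (R := L) θ).tower_top
    have := IntermediateField.adjoin.finiteDimensional hi
    have : IsScalarTower L (IntermediateField.adjoin M {θ}) Λ :=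
      IsScalarTower.of_algebraMap_eq fun _ => rfl
    have : FiniteDimensional L (IntermediateField.adjoin M {θ}) := Module.Finite.trans M _
    have h1 := ih (IntermediateField.adjoin M {θ}) (fun a => algebraMap M _ (x a)) hx
      fun s hs => by
        rcases h s hs with h2 | ⟨z, rfl⟩
        · rcases Finset.mem_insert.1 h2 with rfl | h2
          · exact Or.inr ⟨IntermediateField.AdjoinSimple.gen M s, rfl⟩
          · exact Or.inl h2
        · exact Or.inr ⟨algebraMap M _ z, rfl⟩
    obtain ⟨π, p0, -, p1⟩ := open_pi D M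
    have := D.cpl M π p1
    refine comb (M' := IntermediateField.adjoin M {θ}) (Og D.val M) p0 (og_arch p1)
      (θ := IntermediateField.AdjoinSimple.gen M θ) ?_ (hf.hom.map _) (by linarith [hf.hd]) ?_
    · apply IntermediateField.lift_injective
      rw [IntermediateField.lift_adjoin_simple, IntermediateField.lift_top]
      rfl
    · rw [MvPolynomial.map_map, ← IsScalarTower.algebraMap_eq]
      exact h1

theorem Lf.vt (D : Lf L Λ p) (hf : Hyp f d) (M : Type) [Field M] [Algebra L M] [Algebra M Λ]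
    [IsScalarTower L M Λ] [FiniteDimensional L M] {x : Fin n → M} (h0 : x ≠ 0)
    (h1 : MvPolynomial.aeval x f = 0) : VT (MvPolynomial.map (algebraMap L M) f) d x := by
  have h0' : (fun a => algebraMap M Λ (x a)) ≠ 0 := fun h =>
    h0 (funext fun a => (map_eq_zero _).1 (congrFun h a))
  have h1' : MvPolynomial.aeval (fun a => algebraMap M Λ (x a))
      (MvPolynomial.map (algebraMap L Λ) f) = 0 := by
    rw [MvPolynomial.aeval_map_algebraMap]
    have := MvPolynomial.aeval_algebraMap_apply Λ x f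
    rw [h1, map_zero] at this
    exact this
  obtain ⟨Q, hQ⟩ := vt_closed (hf.map (algebraMap L Λ)) h0' h1'
  obtain ⟨T, hT⟩ := hQ.exists_finset
  refine open_ind D hf (T := T) (fun M' _ _ _ _ h => ?_) T M x (fun _ => rfl) fun s hs => Or.inl hs
  obtain ⟨P', Q', a1, -, a2⟩ := hT M' h
  exact ⟨P', a1, Q', a2⟩

omit [IsAlgClosed Λ] [Algebra.IsAlgebraic L Λ] [Fact p.Prime] [CharP L p] in
theorem open_lift (D : Lf L Λ p) (hf : Hyp f d) {M0 : Type} [Field M0] [Algebra L M0]
    [Algebra M0 Λ] [IsScalarTower L M0 Λ] {x0 Q : Fin n → M0}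
    (h : VC (MvPolynomial.map (algebraMap L M0) f) d x0 Q 1) : ∃ δ : ℝ≥0, 0 < δ ∧
      ∀ (M : Type) [Field M] [Algebra L M] [Algebra M Λ] [IsScalarTower L M Λ]
        [FiniteDimensional L M] (ι : M0 →+* M), (∀ z, algebraMap M Λ (ι z) = algebraMap M0 Λ z) →
        ∀ x' : Fin n → M, MvPolynomial.aeval x' f = 0 →
          (∀ a, D.val (algebraMap M Λ (x' a) - algebraMap M0 Λ (x0 a)) ≤ δ) →
            Jn (MvPolynomial.map (algebraMap L M) f) x' fun a => ι (Q a) := by
  obtain ⟨π0, p0, p2, p1⟩ := open_pi D M0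
  obtain ⟨s, t, c, g, P', Q', hs, ht, hc, hg, hP, hQ, hV⟩ :=
    VC.clear (Og D.val M0) p0 (og_arch p1) (hf.hom.map _) h
  have hne : ∀ {u : Og D.val M0}, u ≠ 0 → (u : M0) ≠ 0 := fun hu h' => hu (Subtype.ext h')
  refine ⟨D.val (algebraMap M0 Λ (c ^ 2 * π0 : Og D.val M0)), ?_,
    fun M _ _ _ _ _ ι hι x' hx' hδ => ?_⟩
  · rw [pos_iff_ne_zero, Ne, map_eq_zero, map_eq_zero]
    exact hne (mul_ne_zero (pow_ne_zero _ hc) p0)
  have hL : ι.comp (algebraMap L M0) = algebraMap L M := RingHom.ext fun z =>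
    (algebraMap M Λ).injective (by
      rw [RingHom.comp_apply, hι, ← IsScalarTower.algebraMap_apply,
        ← IsScalarTower.algebraMap_apply])
  obtain ⟨φ, hφ⟩ : ∃ φ : Og D.val M0 →+* Og D.val M, ∀ u, (φ u : M) = ι u :=
    ⟨ι.restrict _ _ fun u hu => mem_Og.2 (by rw [hι]; exact mem_Og.1 hu), fun _ => rfl⟩
  have hv : ∀ u, D.val (algebraMap M Λ (φ u)) = D.val (algebraMap M0 Λ u) := fun u => by
    rw [hφ, hι]
  have := D.cpl M (φ π0) (by rw [hv]; exact p1)
  have e : MvPolynomial.map (Og D.val M).subtype (MvPolynomial.map φ g) =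
      MvPolynomial.C (ι s) * MvPolynomial.map (algebraMap L M) f := by
    have e1 : (Og D.val M).subtype.comp φ = ι.comp (Og D.val M0).subtype := RingHom.ext hφ
    rw [MvPolynomial.map_map, e1, ← MvPolynomial.map_map, hg, map_mul, MvPolynomial.map_C,
      MvPolynomial.map_map, hL]
  have hd : ∀ a, D.val (algebraMap M Λ (ι t * x' a - φ (P' a))) ≤
      D.val (algebraMap M0 Λ (c ^ 2 * π0 : Og D.val M0)) := fun a => by
    rw [hφ, hP, map_sub, map_mul, hι, hι, map_mul, ← mul_sub, map_mul]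
    exact (mul_le_of_le_one_left' (mem_Og.1 t.2)).trans (hδ a)
  have hm : ∀ a, ι t * x' a ∈ Og D.val M := fun a => by
    have h1 : ι t * x' a - φ (P' a) ∈ Og D.val M :=
      mem_Og.2 ((hd a).trans (mem_Og.1 (c ^ 2 * π0).2))
    simpa using add_mem h1 (φ (P' a)).2
  have hh : (MvPolynomial.map φ g).IsHomogeneous d :=
    MvPolynomial.IsHomogeneous.of_map (Og D.val M).subtype_injective (by
      rw [e]
      simpa using (MvPolynomial.isHomogeneous_C _ (ι s)).mul (hf.hom.map (algebraMap L M)))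
  have hJ := VC.lift (Ideal.span {φ π0}) hh (hV.map φ) (P := fun a => ⟨_, hm a⟩)
    (Q := fun a => φ (Q' a)) (fun μ => by rw [sub_self]; exact zero_mem _) (fun a => by
      rw [Ideal.span_singleton_mul_span_singleton, og_mem_span, ← map_pow, ← map_mul, hv]
      exact hd a) (fun a => by rw [sub_self]; exact zero_mem _) (by
      apply (Og D.val M).subtype_injective
      rw [← p4_eval, e, map_mul, map_zero, MvPolynomial.eval_map, ← MvPolynomial.aeval_def]
      have h1 := p2_hom hf.hom (ι t) x'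
      rw [hx', mul_zero] at h1
      exact mul_eq_zero_of_right _ h1) (hV.map φ).zero_right
  have h2 := hJ.map (Og D.val M).subtype
  rw [e] at h2
  have ht' : ι t ≠ 0 := (map_ne_zero ι).2 (hne ht)
  have h3 := (h2.of_C_mul ((map_ne_zero ι).2 (hne hs))).smul (hf.hom.map _) (ι t)⁻¹
  convert h3 using 2 with a a
  · exact (inv_mul_cancel_left₀ ht' _).symm
  · rw [Subring.coe_subtype, hφ, hQ, map_mul, inv_mul_cancel_left₀ ht']

theorem Lf.open_jn (D : Lf L Λ p) (hf : Hyp f d) {y : Fin n → Λ} (h0 : y ≠ 0)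
    (h1 : MvPolynomial.aeval y f = 0) : ∃ δ : ℝ≥0, 0 < δ ∧ ∀ (M : IntermediateField L Λ)
      [FiniteDimensional L M] (x x' : Fin n → M), (∀ a, (x a : Λ) = y a) →
        MvPolynomial.aeval x' f = 0 → (∀ a, D.val (x' a - y a) ≤ δ) → ∃ z : Fin n → M, z ≠ 0 ∧
          Jn (MvPolynomial.map (algebraMap L M) f) x z ∧
            Jn (MvPolynomial.map (algebraMap L M) f) x' z := by
  have : FiniteDimensional L (IntermediateField.adjoin L (Set.range y)) :=
    IntermediateField.finiteDimensional_adjoin fun z _ => Algebra.IsIntegral.isIntegral z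
  obtain ⟨x0, hx0⟩ : ∃ x0 : Fin n → IntermediateField.adjoin L (Set.range y),
      ∀ a, algebraMap _ Λ (x0 a) = y a :=
    ⟨fun a => ⟨y a, IntermediateField.subset_adjoin _ _ ⟨a, rfl⟩⟩, fun _ => rfl⟩
  have e : (fun a => algebraMap _ Λ (x0 a)) = y := funext hx0
  obtain ⟨Q, hQ⟩ := D.vt hf _ (x := x0) (fun h => h0 (funext fun a => by
    rw [← hx0, h]; exact map_zero _)) ((algebraMap _ Λ).injective (by
      rw [← MvPolynomial.aeval_algebraMap_apply, map_zero, ← h1]
      exact congrArg (fun w => MvPolynomial.aeval w f) e))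
  obtain ⟨δ, hδ, h⟩ := open_lift D hf hQ
  refine ⟨δ, hδ, fun M _ x x' hx hx' hd => ?_⟩
  have hle : IntermediateField.adjoin L (Set.range y) ≤ M :=
    IntermediateField.adjoin_le_iff.2 (by
      rintro _ ⟨a, rfl⟩
      exact hx a ▸ (x a).2)
  refine ⟨fun a => IntermediateField.inclusion hle (Q a), fun h' => ?_, ?_,
    h M (IntermediateField.inclusion hle).toRingHom (fun _ => rfl) x' hx' fun a => ?_⟩
  · exact hQ.ne_right (hf.hom.map _) hf.hd one_ne_zero
      (funext fun a => (map_eq_zero _).1 (congrFun h' a))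
  · have h2 := hQ.jn.map (IntermediateField.inclusion hle).toRingHom
    rw [MvPolynomial.map_map] at h2
    convert h2 using 2 with a
    · rfl
    · exact Subtype.ext ((hx a).trans (hx0 a).symm)
    · rfl
  · rw [hx0]
    exact hd a

theorem Lf.sat_of_near (D : Lf L Λ p) (hf : Hyp f d) {N : ℕ} (hN : p.Coprime N) {y : Fin n → Λ}
    (h0 : ∀ a, D.val (y a) ≤ 1) (h0' : ∃ a, D.val (y a) = 1) (h1 : MvPolynomial.aeval y f = 0) :
    ∃ ε : ℝ≥0, 0 < ε ∧ ∀ (M : IntermediateField L Λ) [FiniteDimensional L M] (x z : Fin n → M)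
      (t : Λ), (∀ a, (z a : Λ) = y a) → x ≠ 0 → MvPolynomial.aeval x f = 0 →
        (∀ a, D.val (t * x a - y a) ≤ ε) → orb L Λ x - orb L Λ z ∈ Sat Λ f N := by
  obtain ⟨b, hb⟩ := h0'
  have hyb : y b ≠ 0 := fun h => by simp [h] at hb
  obtain ⟨δ, hδ, h⟩ := D.open_jn hf (fun h => hyb (congrFun h b)) h1
  refine ⟨min δ (1 / 2), lt_min hδ (by norm_num), fun M _ x z t hz hx0 hx hd => ?_⟩
  have : ExpChar L p := ExpChar.prime Fact.out
  have hv : D.val (t * x b) = 1 := by
    rw [← hb]
    refine D.val.map_eq_of_sub_lt ?_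
    rw [hb]
    exact ((hd b).trans (min_le_right _ _)).trans_lt (by norm_num)
  have htx : t * x b ≠ 0 := fun h => by simp [h] at hv
  have hxb : x b ≠ 0 := fun h => htx (by simp [h])
  have hzb : z b ≠ 0 := fun h => hyb (by rw [← hz, h]; rfl)
  have hu : z b / x b ≠ 0 := div_ne_zero hzb hxb
  obtain ⟨w, hw, j1, j2⟩ := h M z (fun a => z b / x b * x a) hz
    (by rw [p2_hom hf.hom, hx, mul_zero]) fun a => by
      have hxb' : (x b : Λ) ≠ 0 := right_ne_zero_of_mul htx
      have ht : t ≠ 0 := left_ne_zero_of_mul htx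
      have e : ((z b / x b * x a : M) : Λ) - y a =
          (y b * (t * x a - y a) - y a * (t * x b - y b)) / (t * x b) := by
        push_cast
        rw [hz]
        field_simp
        ring
      rw [e, map_div₀, hv, div_one]
      refine D.val.map_sub_le ?_ ?_ <;> rw [map_mul]
      · exact (mul_le_of_le_one_left' (h0 b)).trans ((hd a).trans (min_le_left _ _))
      · exact (mul_le_of_le_one_left' (h0 a)).trans ((hd b).trans (min_le_left _ _))
  have s1 := jn_mem_sat (Λ := Λ) hN (fun h => hzb (congrFun h b)) hw j1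
  have s2 := jn_mem_sat (Λ := Λ) hN
    (fun h => mul_ne_zero hu hxb (congrFun h b)) hw j2
  rw [orb_smul hu] at s2
  simpa using sub_mem s2 s1

end Pool.Agent.CE
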