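import Pool.Agent.Lib.MP_72c364_ag.IDefs

/-! Basic facts on points, orbits and extension of the ground field. -/

namespace Pool.Agent.CE

open scoped Classical Polynomial

variable {L Λ Λ' E M : Type} [Field L] [Field Λ] [Field Λ'] [Field E] [Field M] {n : ℕ}

theorem pt_zero : pt (0 : Fin n → Λ) = 0 := dif_pos rfl

theorem orba_pt {x : Fin n → Λ} (hx : x ≠ 0) :
    pt x = Finsupp.single (Projectivization.mk Λ x hx) 1 := dif_neg hx

theorem orba_ne (ι : Λ →+* Λ') {x : Fin n → Λ} (hx : x ≠ 0) : (fun a => ι (x a)) ≠ 0 := by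
  intro h
  apply hx
  funext a
  exact (map_eq_zero ι).1 (congrFun h a)

theorem pt_smul {t : Λ} (ht : t ≠ 0) (x : Fin n → Λ) : pt (fun a => t * x a) = pt x := by
  by_cases hx : x = 0
  · subst hx
    congr 1
    funext a
    simp
  · have h : (fun a => t * x a) ≠ 0 := by
      intro h
      apply hx
      funext a
      exact (mul_eq_zero.1 (congrFun h a)).resolve_left ht
    rw [orba_pt h, orba_pt hx]
    congr 1
    exact (Projectivization.mk_eq_mk_iff' Λ _ _ h hx).2 ⟨t, rfl⟩

theorem degree_pt {x : Fin n → Λ} (hx : x ≠ 0) : Finsupp.degree (pt x) = 1 := by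
  rw [orba_pt hx, Finsupp.degree_single]

theorem res_zero (ι : Λ →+* Λ') : res ι (0 : Cy Λ n) = 0 := Finsupp.sum_zero_index

theorem res_add (ι : Λ →+* Λ') (D D' : Cy Λ n) : res ι (D + D') = res ι D + res ι D' :=
  Finsupp.sum_add_index' (fun _ => zero_smul _ _) fun _ _ _ => add_smul _ _ _

/-- extension of the ground field as an additive map -/
noncomputable def orba_res (ι : Λ →+* Λ') : Cy Λ n →+ Cy Λ' n where
  toFun := res ι
  map_zero' := res_zero ι
  map_add' := res_add ι

theorem res_zsmul (ι : Λ →+* Λ') (c : ℤ) (D : Cy Λ n) : res ι (c • D) = c • res ι D :=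
  map_zsmul (orba_res ι) c D

theorem res_pt (ι : Λ →+* Λ') (x : Fin n → Λ) : res ι (pt x) = pt fun a => ι (x a) := by
  by_cases hx : x = 0
  · subst hx
    rw [pt_zero, res_zero]
    have : (fun a => ι ((0 : Fin n → Λ) a)) = 0 := by
      funext a
      simp
    rw [this, pt_zero]
  · rw [orba_pt hx, res, Finsupp.sum_single_index (by exact zero_smul _ _), one_smul]
    obtain ⟨c, hc⟩ := Projectivization.exists_smul_eq_mk_rep Λ x hx
    rw [← hc, ← pt_smul ((map_ne_zero ι).2 c.ne_zero) fun a => ι (x a)]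
    congr 1
    funext a
    simp [Units.smul_def]

theorem degree_res (ι : Λ →+* Λ') (D : Cy Λ n) : Finsupp.degree (res ι D) = Finsupp.degree D := by
  rw [res, Finsupp.sum, map_sum, Finsupp.degree_apply]
  refine Finset.sum_congr rfl fun y _ => ?_
  rw [map_zsmul, degree_pt (orba_ne ι y.rep_nonzero)]
  simp

variable [Algebra L Λ] [Algebra L E] [FiniteDimensional L E]

theorem cyc_eq (x : Fin n → E) : cyc L Λ x = Field.finInsepDegree L E • orb L Λ x := rfl

theorem orb_zero : orb L Λ (0 : Fin n → E) = 0 := by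
  refine Finset.sum_eq_zero fun σ _ => ?_
  have : (fun a => σ ((0 : Fin n → E) a)) = 0 := by
    funext a
    simp
  rw [this, pt_zero]

theorem orb_smul {t : E} (ht : t ≠ 0) (x : Fin n → E) :
    orb L Λ (fun a => t * x a) = orb L Λ x := by
  refine Finset.sum_congr rfl fun σ _ => ?_
  simp only [map_mul]
  exact pt_smul ((map_ne_zero σ).2 ht) _

variable [IsAlgClosed Λ]

theorem sum_tower [Algebra L M] [Algebra E M] [IsScalarTower L E M] [FiniteDimensional L M]
    {G : Type} [AddCommMonoid G] (g : (E →ₐ[L] Λ) → G) :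
    ∑ σ : M →ₐ[L] Λ, g (σ.comp (IsScalarTower.toAlgHom L E M)) =
      Field.finSepDegree E M • ∑ τ : E →ₐ[L] Λ, g τ := by
  have : FiniteDimensional E M := Module.Finite.of_restrictScalars_finite L E M
  let : ∀ τ : E →ₐ[L] Λ, Fintype (@AlgHom E M Λ _ _ _ _ τ.toRingHom.toAlgebra) := fun τ =>
    let := τ.toRingHom.toAlgebra
    inferInstance
  rw [Fintype.sum_equiv (algHomEquivSigma (A := L) (B := E) (C := M) (D := Λ))
    (fun σ => g (σ.comp (IsScalarTower.toAlgHom L E M)))
    (fun s => g s.1) (fun _ => rfl), Fintype.sum_sigma, Finset.smul_sum]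
  refine Finset.sum_congr rfl fun τ _ => ?_
  let := τ.toRingHom.toAlgebra
  rw [Field.finSepDegree_eq_of_isAlgClosed E M Λ, Nat.card_eq_fintype_card]
  simp

theorem orb_tower [Algebra L M] [Algebra E M] [IsScalarTower L E M] [FiniteDimensional L M]
    (x : Fin n → E) :
    orb L Λ (fun a => algebraMap E M (x a)) = Field.finSepDegree E M • orb L Λ x :=
  sum_tower (L := L) (M := M) fun τ : E →ₐ[L] Λ => pt fun a => τ (x a)

theorem degree_orb {x : Fin n → E} (hx : x ≠ 0) :
    Finsupp.degree (orb L Λ x) = Field.finSepDegree L E := by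
  have h : ∀ σ : E →ₐ[L] Λ, Finsupp.degree (pt fun a => σ (x a)) = 1 := fun σ =>
    degree_pt (orba_ne (σ : E →+* Λ) hx)
  rw [orb, map_sum, Field.finSepDegree_eq_of_isAlgClosed L E Λ, Nat.card_eq_fintype_card]
  simp [h]

theorem degree_cyc {x : Fin n → E} (hx : x ≠ 0) :
    Finsupp.degree (cyc L Λ x) = Module.finrank L E := by
  rw [cyc_eq, map_nsmul, degree_orb hx, ← Field.finSepDegree_mul_finInsepDegree L E]
  simp [mul_comm]

theorem res_cyc [Algebra L Λ'] [IsAlgClosed Λ'] (ι : Λ →ₐ[L] Λ') (x : Fin n → E) :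
    res (ι : Λ →+* Λ') (cyc L Λ x) = cyc L Λ' x := by
  have hb : Function.Bijective fun σ : E →ₐ[L] Λ => ι.comp σ := by
    refine (Fintype.bijective_iff_injective_and_card _).2 ⟨fun σ σ' h => ?_, ?_⟩
    · ext z
      exact ι.injective (DFunLike.congr_fun h z)
    · rw [← Nat.card_eq_fintype_card, ← Nat.card_eq_fintype_card,
        ← Field.finSepDegree_eq_of_isAlgClosed L E Λ, Field.finSepDegree_eq_of_isAlgClosed L E Λ']
  rw [cyc_eq, cyc_eq]
  change orba_res (ι : Λ →+* Λ') _ = _
  rw [map_nsmul, orb, map_sum]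
  congr 1
  exact Fintype.sum_bijective _ hb _ _ fun σ => res_pt _ _

omit [IsAlgClosed Λ] in
theorem sum_root {g : L[X]} [Fact (Irreducible g)] [FiniteDimensional L (AdjoinRoot g)]
    (hg : g.Separable) {G : Type} [AddCommMonoid G] (u : Λ → G) :
    ∑ τ : AdjoinRoot g →ₐ[L] Λ, u (τ (AdjoinRoot.root g)) = ((g.aroots Λ).map u).sum := by
  have h0 : g ≠ 0 := (Fact.out : Irreducible g).ne_zero
  have hn : (g.aroots Λ).Nodup := Polynomial.nodup_roots hg.map
  change _ = ∑ z ∈ (⟨g.aroots Λ, hn⟩ : Finset Λ), u z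
  refine Finset.sum_bij (fun τ _ => τ (AdjoinRoot.root g)) (fun τ _ => ?_) (fun τ _ τ' _ h => ?_)
    (fun z hz => ?_) fun _ _ => rfl
  · change τ (AdjoinRoot.root g) ∈ g.aroots Λ
    rw [Polynomial.mem_aroots, Polynomial.aeval_algHom_apply, AdjoinRoot.aeval_eq,
      AdjoinRoot.mk_self, map_zero]
    exact ⟨h0, rfl⟩
  · exact AdjoinRoot.algHom_ext h
  · have hz' : Polynomial.aeval z g = 0 := (Polynomial.mem_aroots.1 hz).2
    exact ⟨AdjoinRoot.liftAlgHom g (Algebra.ofId L Λ) z hz', Finset.mem_univ _,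
      AdjoinRoot.liftAlgHom_root _ _ _ _⟩

/-- the fibres of the restriction to a simple separable subextension -/
theorem sum_fibre {g : L[X]} (hg : Irreducible g) (hs : g.Separable) {θ : E}
    (h : Polynomial.aeval θ g = 0) {m : ℕ} (hm : Module.finrank L E = m * g.natDegree) {G : Type}
    [AddCommMonoid G] (u : Λ → G) :
    Field.finInsepDegree L E • ∑ σ : E →ₐ[L] Λ, u (σ θ) = m • ((g.aroots Λ).map u).sum := by
  have : Fact (Irreducible g) := ⟨hg⟩
  have : FiniteDimensional L (AdjoinRoot g) := (AdjoinRoot.powerBasis hg.ne_zero).finite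
  let j : AdjoinRoot g →ₐ[L] E := AdjoinRoot.liftAlgHom g (Algebra.ofId L E) θ h
  let : Algebra (AdjoinRoot g) E := j.toRingHom.toAlgebra
  have : IsScalarTower L (AdjoinRoot g) E :=
    IsScalarTower.of_algebraMap_eq fun z => (j.commutes z).symm
  have hj : algebraMap (AdjoinRoot g) E (AdjoinRoot.root g) = θ :=
    AdjoinRoot.liftAlgHom_root _ _ _ _
  have hd : Module.finrank L (AdjoinRoot g) = g.natDegree :=
    (AdjoinRoot.powerBasis hg.ne_zero).finrank
  have hp : 0 < g.natDegree := hd ▸ Module.finrank_pos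
  have h1 : Field.finSepDegree L (AdjoinRoot g) = g.natDegree := by
    have h2 := sum_root (Λ := Λ) hs fun _ => (1 : ℕ)
    rw [Field.finSepDegree_eq_of_isAlgClosed L _ Λ, Nat.card_eq_fintype_card,
      ← IsAlgClosed.card_aroots_eq_natDegree (B := Λ)]
    simpa using h2
  have h3 : Field.finInsepDegree L E * Field.finSepDegree (AdjoinRoot g) E = m := by
    have : FiniteDimensional (AdjoinRoot g) E :=
      Module.Finite.of_restrictScalars_finite L (AdjoinRoot g) E
    apply Nat.eq_of_mul_eq_mul_right hp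
    rw [← hm, ← Field.finSepDegree_mul_finInsepDegree L E,
      ← Field.finSepDegree_mul_finSepDegree_of_isAlgebraic L (AdjoinRoot g) E, h1]
    ring
  have h4 := sum_tower (L := L) (M := E) fun τ : AdjoinRoot g →ₐ[L] Λ => u (τ (AdjoinRoot.root g))
  simp only [AlgHom.comp_apply, IsScalarTower.toAlgHom_apply, hj] at h4
  rw [h4, sum_root hs, smul_smul, h3]

end Pool.Agent.CE
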