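import Pool.Agent.Lib.MP_72c364_ag.OrbB

/-! Sums over the embeddings of a finite extension of a smaller field. -/

namespace Pool.Agent.CE

open scoped Classical Polynomial

variable {K L Λ E : Type} [Field K] [Field L] [Field Λ] [Field E] [Algebra K L] [Algebra L Λ]
  [Algebra K Λ] [IsScalarTower K L Λ] [IsAlgClosed Λ] [Algebra.IsAlgebraic L Λ] [Algebra K E]
  [FiniteDimensional K E] {n : ℕ}

/-- the family `a` is compatible with the automorphisms over `L` -/
def Eqv (L : Type) [Field L] [Algebra K L] [Algebra L Λ] [IsScalarTower K L Λ]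
    (a : (E →ₐ[K] Λ) → Fin n → Λ) : Prop :=
  ∀ (γ : Λ ≃ₐ[L] Λ) (σ : E →ₐ[K] Λ) (i : Fin n),
    a (((γ : Λ →ₐ[L] Λ).restrictScalars K).comp σ) i = γ (a σ i)

theorem orbc_ext (M : IntermediateField L Λ) (τ : M →ₐ[L] Λ) :
    ∃ γ : Λ ≃ₐ[L] Λ, ∀ m : M, γ m = τ m := by
  obtain ⟨φ, h⟩ := IntermediateField.exists_algHom_of_splits (F := L) (E := Λ) (K := Λ)
    (fun s => ⟨Algebra.IsIntegral.isIntegral s, IsAlgClosed.splits _⟩) τ
  exact ⟨AlgEquiv.ofBijective φ (Algebra.IsAlgebraic.algHom_bijective φ),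
    fun m => DFunLike.congr_fun h m⟩

theorem orbc_fin (σ : E →ₐ[K] Λ) :
    FiniteDimensional L (IntermediateField.adjoin L (Set.range σ)) := by
  obtain ⟨s, hs⟩ := Module.Finite.fg_top (R := K) (M := E)
  have h : IntermediateField.adjoin L (Set.range σ) = IntermediateField.adjoin L (σ '' s) := by
    refine le_antisymm (IntermediateField.adjoin_le_iff.2 ?_)
      (IntermediateField.adjoin.mono _ _ _ (Set.image_subset_range _ _))
    rintro _ ⟨e, rfl⟩
    have he : e ∈ Submodule.span K (s : Set E) := hs ▸ Submodule.mem_top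
    induction he using Submodule.span_induction with
    | mem x hx => exact IntermediateField.subset_adjoin _ _ ⟨x, hx, rfl⟩
    | zero => simp
    | add x y _ _ h1 h2 => rw [map_add]; exact add_mem h1 h2
    | smul c x _ h1 =>
      rw [map_smul, ← IsScalarTower.algebraMap_smul L]
      exact IntermediateField.smul_mem _ h1
  rw [h]
  exact IntermediateField.finiteDimensional_adjoin fun x _ => Algebra.IsIntegral.isIntegral x

theorem orbc_fin' (σ : E →ₐ[K] Λ) (u v : Fin n → Λ) : FiniteDimensional L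
    (IntermediateField.adjoin L (Set.range σ ∪ Set.range u ∪ Set.range v)) := by
  have := orbc_fin (L := L) σ
  have : FiniteDimensional L (IntermediateField.adjoin L (Set.range u)) :=
    IntermediateField.finiteDimensional_adjoin fun x _ => Algebra.IsIntegral.isIntegral x
  have : FiniteDimensional L (IntermediateField.adjoin L (Set.range v)) :=
    IntermediateField.finiteDimensional_adjoin fun x _ => Algebra.IsIntegral.isIntegral x
  rw [IntermediateField.adjoin_union, IntermediateField.adjoin_union]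
  infer_instance

theorem orbc_orbit {a b c : (E →ₐ[K] Λ) → Fin n → Λ} (ha : Eqv L a) (hb : Eqv L b) (hc : Eqv L c)
    (σ : E →ₐ[K] Λ) (M : IntermediateField L Λ) [FiniteDimensional L M]
    (hM : M = IntermediateField.adjoin L (Set.range σ ∪ Set.range (a σ) ∪ Set.range (b σ)))
    (x : Fin n → M) (hx : ∀ i, (x i : Λ) = c σ i) :
    orb L Λ x = ∑ σ' ∈ Finset.univ.filter fun σ' : E →ₐ[K] Λ => ∃ γ : Λ ≃ₐ[L] Λ,
      ((γ : Λ →ₐ[L] Λ).restrictScalars K).comp σ = σ', pt (c σ') := by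
  choose γ hγ using orbc_ext M
  refine Finset.sum_bij (fun τ _ => ((γ τ : Λ →ₐ[L] Λ).restrictScalars K).comp σ)
    (fun τ _ => Finset.mem_filter.2 ⟨Finset.mem_univ _, γ τ, rfl⟩) (fun τ _ τ' _ h => ?_)
    (fun σ' h => ?_) fun τ _ => ?_
  · refine IntermediateField.algHom_ext_of_eq_adjoin L hM fun y hy => ?_
    rw [← hγ, ← hγ]
    rcases hy with (⟨e, rfl⟩ | ⟨i, rfl⟩) | ⟨i, rfl⟩
    · exact DFunLike.congr_fun h e
    · exact (ha _ _ _).symm.trans ((congrFun (congrArg a h) i).trans (ha _ _ _))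
    · exact (hb _ _ _).symm.trans ((congrFun (congrArg b h) i).trans (hb _ _ _))
  · obtain ⟨-, g, rfl⟩ := Finset.mem_filter.1 h
    refine ⟨(g : Λ →ₐ[L] Λ).comp M.val, Finset.mem_univ _, AlgHom.ext fun e => ?_⟩
    exact hγ _ ⟨σ e, hM.ge (IntermediateField.subset_adjoin _ _ (Or.inl (Or.inl ⟨e, rfl⟩)))⟩
  · congr 1
    funext i
    rw [hc, ← hx, hγ]

theorem orbit_sum {a b : (E →ₐ[K] Λ) → Fin n → Λ} (ha : Eqv L a) (hb : Eqv L b)
    (H : AddSubgroup (Cy Λ n))
    (h : ∀ (σ : E →ₐ[K] Λ) (M : IntermediateField L Λ) [FiniteDimensional L M],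
      M = IntermediateField.adjoin L (Set.range σ ∪ Set.range (a σ) ∪ Set.range (b σ)) →
      ∀ x z : Fin n → M, (∀ i, (x i : Λ) = a σ i) → (∀ i, (z i : Λ) = b σ i) →
        orb L Λ x - orb L Λ z ∈ H) :
    ∑ σ, pt (a σ) - ∑ σ, pt (b σ) ∈ H := by
  have key : ∀ s : Finset (E →ₐ[K] Λ), (∀ σ ∈ s, ∀ γ : Λ ≃ₐ[L] Λ,
      ((γ : Λ →ₐ[L] Λ).restrictScalars K).comp σ ∈ s) →
      ∑ σ ∈ s, pt (a σ) - ∑ σ ∈ s, pt (b σ) ∈ H := by
    intro s
    induction s using Finset.strongInduction with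
    | H s ih =>
      intro hs
      rcases s.eq_empty_or_nonempty with rfl | ⟨σ, hσ⟩
      · simp
      have := orbc_fin' (L := L) σ (a σ) (b σ)
      have h1 := h σ _ rfl
        (fun i => ⟨a σ i, IntermediateField.subset_adjoin _ _ (Or.inl (Or.inr ⟨i, rfl⟩))⟩)
        (fun i => ⟨b σ i, IntermediateField.subset_adjoin _ _ (Or.inr ⟨i, rfl⟩)⟩)
        (fun _ => rfl) fun _ => rfl
      rw [orbc_orbit ha hb ha σ _ rfl _ fun _ => rfl, orbc_orbit ha hb hb σ _ rfl _ fun _ => rfl]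
        at h1
      set O := Finset.univ.filter fun σ' : E →ₐ[K] Λ => ∃ γ : Λ ≃ₐ[L] Λ,
        ((γ : Λ →ₐ[L] Λ).restrictScalars K).comp σ = σ' with hO
      have h2 : O ⊆ s := fun σ' h => by
        obtain ⟨-, g, rfl⟩ := Finset.mem_filter.1 h
        exact hs σ hσ g
      have h3 : σ ∈ O := Finset.mem_filter.2 ⟨Finset.mem_univ _, AlgEquiv.refl, rfl⟩
      have h4 := ih (s \ O) (Finset.sdiff_ssubset h2 ⟨σ, h3⟩) fun σ' h' g => by
        obtain ⟨h5, h6⟩ := Finset.mem_sdiff.1 h'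
        refine Finset.mem_sdiff.2 ⟨hs _ h5 g, fun h7 => h6 ?_⟩
        obtain ⟨-, g', h8⟩ := Finset.mem_filter.1 h7
        refine Finset.mem_filter.2 ⟨Finset.mem_univ _, g'.trans g.symm, AlgHom.ext fun e => ?_⟩
        exact g.symm_apply_eq.2 (DFunLike.congr_fun h8 e)
      rw [← Finset.sum_sdiff h2, ← Finset.sum_sdiff h2, add_sub_add_comm]
      exact add_mem h4 h1
  exact key _ fun _ _ _ => Finset.mem_univ _

theorem orbc_zero : Eqv L fun (_ : E →ₐ[K] Λ) => (0 : Fin n → Λ) := fun γ _ _ => (map_zero γ).symm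

theorem orbc_pt {f : MvPolynomial (Fin n) L} {M : IntermediateField L Λ} {x : Fin n → M}
    {y : Fin n → Λ} (hx : ∀ i, (x i : Λ) = y i) (h0 : y ≠ 0) (h1 : MvPolynomial.aeval y f = 0) :
    x ≠ 0 ∧ MvPolynomial.aeval x f = 0 := by
  obtain rfl : (fun i => M.val (x i)) = y := funext hx
  refine ⟨fun h => h0 (by rw [h]; rfl), M.val.injective ?_⟩
  rw [← MvPolynomial.comp_aeval_apply] at h1
  exact h1.trans (map_zero _).symm

theorem sum_mem_Z1 {f : MvPolynomial (Fin n) L} {a : (E →ₐ[K] Λ) → Fin n → Λ} (ha : Eqv L a)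
    (h0 : ∀ σ, a σ ≠ 0) (h1 : ∀ σ, MvPolynomial.aeval (a σ) f = 0) :
    ∑ σ, pt (a σ) ∈ Z1 Λ f := by
  have h := orbit_sum ha orbc_zero (Z1 Λ f) fun σ M _ _ x z hx hz => by
    obtain rfl : z = 0 := funext fun i => Subtype.ext (hz i)
    obtain ⟨h2, h3⟩ := orbc_pt hx (h0 σ) (h1 σ)
    rw [orb_zero, sub_zero]
    exact orb_mem_Z1 h2 h3
  simpa [pt_zero] using h

theorem orbc_le (σ : E →ₐ[K] Λ) (M : IntermediateField L Λ)
    (hM : M = IntermediateField.adjoin L (Set.range σ)) :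
    Field.finInsepDegree L M ≤ Field.finInsepDegree K E := by
  have hm : ∀ e, σ e ∈ M := fun e => hM.ge (IntermediateField.subset_adjoin _ _ ⟨e, rfl⟩)
  let v := Module.finBasis (separableClosure K E) E
  let W := Submodule.span (separableClosure L M) (Set.range fun i => (⟨σ (v i), hm _⟩ : M))
  have h1 : ∀ e, (⟨σ e, hm e⟩ : M) ∈ W := fun e => by
    have he : e ∈ Submodule.span (separableClosure K E) (Set.range v) :=
      v.span_eq ▸ Submodule.mem_top
    induction he using Submodule.span_induction with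
    | mem x hx =>
      obtain ⟨i, rfl⟩ := hx
      exact Submodule.subset_span ⟨i, rfl⟩
    | zero => exact (Subtype.ext (map_zero σ) : (⟨σ 0, hm 0⟩ : M) = 0) ▸ W.zero_mem
    | add x y _ _ h1 h2 =>
      exact (Subtype.ext (map_add σ x y) : (⟨σ (x + y), hm _⟩ : M) = ⟨σ x, hm x⟩ + ⟨σ y, hm y⟩) ▸
        W.add_mem h1 h2
    | smul c x _ h1 =>
      have h2 : IsSeparable L (σ c) := IsSeparable.tower_top L
        ((isSeparable_map_iff σ σ.injective).2 (mem_separableClosure_iff.1 c.2))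
      have h3 : (⟨σ c, hm c⟩ : M) ∈ separableClosure L M :=
        mem_separableClosure_iff.2 ((isSeparable_map_iff M.val M.val.injective).1 h2)
      have h4 : (⟨σ (c • x), hm _⟩ : M) =
          (⟨_, h3⟩ : separableClosure L M) • (⟨σ x, hm x⟩ : M) :=
        Subtype.ext (map_mul σ (c : E) x)
      rw [h4]
      exact W.smul_mem _ h1
  have h2 : ∀ y ∈ Submodule.span L (Set.range σ), ∃ w ∈ W, (w : Λ) = y := fun y hy => by
    induction hy using Submodule.span_induction with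
    | mem x hx =>
      obtain ⟨e, rfl⟩ := hx
      exact ⟨_, h1 e, rfl⟩
    | zero => exact ⟨0, W.zero_mem, rfl⟩
    | add x y _ _ h1 h2 =>
      obtain ⟨w, h3, rfl⟩ := h1
      obtain ⟨w', h4, rfl⟩ := h2
      exact ⟨w + w', W.add_mem h3 h4, rfl⟩
    | smul c x _ h1 =>
      obtain ⟨w, h3, rfl⟩ := h1
      exact ⟨c • w, W.smul_of_tower_mem c h3, rfl⟩
  have h3 : ⊤ ≤ W := fun y _ => by
    have h4 : (y : Λ) ∈ (IntermediateField.adjoin L (Set.range σ)).toSubalgebra := hM.le y.2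
    rw [IntermediateField.adjoin_toSubalgebra, ← Subalgebra.mem_toSubmodule,
      Algebra.adjoin_eq_span] at h4
    have h5 : Submonoid.closure (Set.range σ) = MonoidHom.mrange σ :=
      (MonoidHom.mrange σ).closure_eq
    rw [h5] at h4
    obtain ⟨w, h6, h7⟩ := h2 y h4
    exact Subtype.ext h7 ▸ h6
  exact (finrank_le_of_span_eq_top (top_le_iff.1 h3)).trans (Fintype.card_fin _).le

theorem insep_dvd (σ : E →ₐ[K] Λ) (M : IntermediateField L Λ)
    (hM : M = IntermediateField.adjoin L (Set.range σ)) :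
    Field.finInsepDegree L M ∣ Field.finInsepDegree K E := by
  obtain ⟨q, hq⟩ := ExpChar.exists K
  have : ExpChar L q := expChar_of_injective_algebraMap (algebraMap K L).injective q
  have : FiniteDimensional L M := hM ▸ orbc_fin σ
  have h := orbc_le σ M hM
  obtain ⟨i, hi⟩ := finInsepDegree_eq_pow L M q
  obtain ⟨j, hj⟩ := finInsepDegree_eq_pow K E q
  rw [hi, hj] at h ⊢
  rcases Nat.eq_or_lt_of_le (expChar_pos K q) with h1 | h1
  · simp [← h1]
  · exact pow_dvd_pow _ ((Nat.pow_le_pow_iff_right h1).1 h)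

theorem cyc_mem_bc {f : MvPolynomial (Fin n) K} {x : Fin n → E} (h0 : x ≠ 0)
    (h1 : MvPolynomial.aeval x f = 0) :
    cyc K Λ x ∈ Z0 Λ (MvPolynomial.map (algebraMap K L) f) := by
  have ha : Eqv L fun (σ : E →ₐ[K] Λ) i => σ (x i) := fun _ _ _ => rfl
  have h := orbit_sum ha orbc_zero ((Z0 Λ (MvPolynomial.map (algebraMap K L) f)).comap
    (nsmulAddMonoidHom (Field.finInsepDegree K E))) fun σ M _ hM y z hy hz => by
    obtain rfl : z = 0 := funext fun i => Subtype.ext (hz i)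
    have h2 : (fun i => σ (x i)) ≠ 0 := fun h => h0 (funext fun i =>
      σ.injective ((congrFun h i).trans (map_zero σ).symm))
    obtain ⟨h3, h4⟩ := orbc_pt (f := MvPolynomial.map (algebraMap K L) f) hy h2 (by
      rw [MvPolynomial.aeval_map_algebraMap, ← MvPolynomial.comp_aeval_apply, h1, map_zero])
    obtain ⟨k, hk⟩ := insep_dvd σ M (by
      rw [hM, Set.union_eq_left.2, Set.union_eq_left.2]
      · rintro _ ⟨i, rfl⟩
        exact ⟨_, rfl⟩
      · rintro _ ⟨i, rfl⟩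
        exact Or.inl ⟨0, map_zero σ⟩)
    rw [orb_zero, sub_zero, AddSubgroup.mem_comap, nsmulAddMonoidHom_apply, hk, mul_comm, mul_smul]
    exact nsmul_mem (cyc_mem_Z0 h3 h4) k
  rw [AddSubgroup.mem_comap, nsmulAddMonoidHom_apply] at h
  simpa [pt_zero, cyc] using h

theorem res_mem {Λ0 : Type} [Field Λ0] [Algebra K Λ0] [IsAlgClosed Λ0] (ι : Λ0 →ₐ[K] Λ)
    {f : MvPolynomial (Fin n) K} {D : Cy Λ0 n} (h : D ∈ Z0 Λ0 f) :
    res (ι : Λ0 →+* Λ) D ∈ Z0 Λ (MvPolynomial.map (algebraMap K L) f) := by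
  induction h using AddSubgroup.closure_induction with
  | mem D hD =>
    obtain ⟨E, _, _, _, x, h0, h1, rfl⟩ := hD
    rw [res_cyc]
    exact cyc_mem_bc h0 h1
  | zero => rw [res_zero]; exact zero_mem _
  | add D D' _ _ h1 h2 => rw [res_add]; exact add_mem h1 h2
  | neg D _ h1 => rw [← neg_one_zsmul, res_zsmul]; exact zsmul_mem h1 _

end Pool.Agent.CE
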