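import Pool.Agent.Lib.MP_72c364_ag.ValB

/-! The spectral valuation on the algebraic closure of the completion. -/

namespace Pool.Agent.CE

open scoped Classical WithZero NNReal

theorem spec_mem {M : Type} [NormedField M] {w : Valuation M ℝ≥0} (hw : ∀ x, (w x : ℝ) = ‖x‖)
    (η z : w.integer) (k : ℕ) :
    z ∈ (Ideal.span {η} ^ k • ⊤ : Submodule w.integer w.integer) ↔
      ‖(z : M)‖ ≤ ‖(η : M)‖ ^ k := by
  rw [smul_eq_mul, Ideal.mul_top, Ideal.span_singleton_pow, Ideal.mem_span_singleton,
    (Valuation.integer.integers w).dvd_iff_le, map_pow, map_pow, ← NNReal.coe_le_coe,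
    NNReal.coe_pow, hw, hw]
  rfl

theorem spec_cpl {M : Type} [NormedField M] [CompleteSpace M] {w : Valuation M ℝ≥0}
    (hw : ∀ x, (w x : ℝ) = ‖x‖) (η : w.integer) (h : w η < 1) :
    IsAdicComplete (Ideal.span {η}) w.integer := by
  have h1 : ‖(η : M)‖ < 1 := by
    rw [← hw]
    exact_mod_cast h
  have h0 : 0 ≤ ‖(η : M)‖ := norm_nonneg _
  have hlim := tendsto_pow_atTop_nhds_zero_of_lt_one h0 h1
  have hH : IsHausdorff (Ideal.span {η}) w.integer := ⟨fun z hz => by
    have h2 : ‖(z : M)‖ ≤ 0 := ge_of_tendsto' hlim fun k =>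
      (spec_mem hw η z k).1 (SModEq.zero.1 (hz k))
    exact Subtype.ext (norm_le_zero_iff.1 h2)⟩
  have hP : IsPrecomplete (Ideal.span {η}) w.integer := ⟨fun f hf => by
    have h2 : ∀ m n, m ≤ n → ‖(f m : M) - f n‖ ≤ ‖(η : M)‖ ^ m := fun m n hmn =>
      (spec_mem hw η (f m - f n) m).1 (SModEq.sub_mem.1 (hf hmn))
    have hc : CauchySeq fun n => (f n : M) :=
      cauchySeq_of_le_tendsto_0' (fun m => ‖(η : M)‖ ^ m)
        (fun m n hmn => by rw [dist_eq_norm]; exact h2 m n hmn) hlim
    obtain ⟨a, ha⟩ := cauchySeq_tendsto_of_complete hc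
    have h3 : ‖a‖ ≤ 1 := le_of_tendsto' ha.norm fun n => by
      rw [← hw]
      exact_mod_cast (f n).2
    have h4 : a ∈ w.integer := by
      rw [Valuation.mem_integer_iff, ← NNReal.coe_le_coe, hw]
      exact h3
    refine ⟨⟨a, h4⟩, fun m => SModEq.sub_mem.2 ((spec_mem hw η _ m).2 ?_)⟩
    exact le_of_tendsto (ha.const_sub (f m : M)).norm
      (Filter.eventually_atTop.2 ⟨m, fun n hn => h2 m n hn⟩)⟩
  exact { toIsHausdorff := hH, toIsPrecomplete := hP }

/-- the spectral norm as a valuation -/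
noncomputable def spec_val (L Λ : Type) [NontriviallyNormedField L] [IsUltrametricDist L]
    [CompleteSpace L] [Field Λ] [Algebra L Λ] [Algebra.IsAlgebraic L Λ] : Valuation Λ ℝ≥0 where
  toFun z := NNReal.mk (spectralNorm L Λ z) (spectralNorm_nonneg z)
  map_zero' := NNReal.eq spectralNorm_zero
  map_one' := NNReal.eq spectralNorm_one
  map_mul' x y := NNReal.eq (spectralAlgNorm_mul x y)
  map_add_le_max' x y := by
    rw [← NNReal.coe_le_coe, NNReal.coe_max]
    exact isNonarchimedean_spectralNorm x y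

theorem spec_gen (L Λ : Type) [NontriviallyNormedField L] [IsUltrametricDist L]
    [CompleteSpace L] [Field Λ] [Algebra L Λ] [Algebra.IsAlgebraic L Λ] :
    ∃ val : Valuation Λ ℝ≥0, (∀ (γ : Λ ≃ₐ[L] Λ) z, val (γ z) = val z) ∧
      (∀ x : L, (val (algebraMap L Λ x) : ℝ) = ‖x‖) ∧
      ∀ (M : Type) [Field M] [Algebra L M] [Algebra M Λ] [IsScalarTower L M Λ]
        [FiniteDimensional L M] (η : Og val M),
          val (algebraMap M Λ η) < 1 → IsAdicComplete (Ideal.span {η}) (Og val M) := by
  refine ⟨spec_val L Λ, fun γ z => NNReal.eq (spectralNorm_eq_of_equiv γ z).symm,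
    fun x => spectralNorm_extends x, fun M _ _ _ _ _ η hη => ?_⟩
  let _ := spectralNorm.normedField L M
  have : CompleteSpace M := spectralNorm.completeSpace L M
  exact spec_cpl (w := (spec_val L Λ).comap (algebraMap M Λ))
    (fun x => (spectralNorm.eq_of_tower x).symm) η hη

theorem spec_valued (L Λ : Type) [Field L] [Valued L ℤᵐ⁰] [CompleteSpace L]
    (hv : Function.Surjective (Valued.v : L → ℤᵐ⁰))
    [Field Λ] [Algebra L Λ] [Algebra.IsAlgebraic L Λ] :
    ∃ val : Valuation Λ ℝ≥0, (∀ (γ : Λ ≃ₐ[L] Λ) z, val (γ z) = val z) ∧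
      (val.comap (algebraMap L Λ)).IsEquiv (Valued.v : Valuation L ℤᵐ⁰) ∧
      ∀ (M : Type) [Field M] [Algebra L M] [Algebra M Λ] [IsScalarTower L M Λ]
        [FiniteDimensional L M] (η : Og val M),
          val (algebraMap M Λ η) < 1 → IsAdicComplete (Ideal.span {η}) (Og val M) := by
  let _ : (Valued.v : Valuation L ℤᵐ⁰).RankOne :=
    { hom' := (WithZeroMulInt.toNNReal (two_ne_zero (α := ℝ≥0))).comp
        MonoidWithZeroHom.ValueGroup₀.embedding
      strictMono' := (WithZeroMulInt.toNNReal_strictMono one_lt_two).comp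
        MonoidWithZeroHom.ValueGroup₀.embedding_strictMono
      exists_val_nontrivial := by
        obtain ⟨x, hx⟩ := hv (WithZero.exp (-1 : ℤ))
        refine ⟨x, ?_, ?_⟩
        · rw [hx]
          exact WithZero.exp_ne_zero
        · rw [hx, ← WithZero.exp_zero]
          simp }
  let _ := Valued.toNontriviallyNormedField L ℤᵐ⁰
  obtain ⟨val, h1, h2, h3⟩ := spec_gen L Λ
  refine ⟨val, h1, fun x y => ?_, h3⟩
  rw [Valuation.comap_apply, Valuation.comap_apply, ← NNReal.coe_le_coe, h2, h2]
  exact Valued.toNormedField.norm_le_iff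

theorem exists_spec {K : Type} [Field K] {v : Valuation K ℤᵐ⁰} (hv : Function.Surjective v) :
    ∃ val : Valuation (AlgebraicClosure v.Completion) ℝ≥0,
      (∀ (γ : AlgebraicClosure v.Completion ≃ₐ[v.Completion] AlgebraicClosure v.Completion) z,
        val (γ z) = val z) ∧
      (val.comap (algebraMap v.Completion _)).IsEquiv (Valued.v : Valuation v.Completion ℤᵐ⁰) ∧
      ∀ (M : Type) [Field M] [Algebra v.Completion M] [Algebra M (AlgebraicClosure v.Completion)]
        [IsScalarTower v.Completion M (AlgebraicClosure v.Completion)]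
        [FiniteDimensional v.Completion M] (η : Og val M),
          val (algebraMap M _ η) < 1 → IsAdicComplete (Ideal.span {η}) (Og val M) :=
  spec_valued v.Completion (AlgebraicClosure v.Completion)
    (Valued.valuedCompletion_surjective_iff.2 fun γ => by
      obtain ⟨x, hx⟩ := hv γ
      exact ⟨WithVal.toVal v x, hx⟩)

end Pool.Agent.CE
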