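import Pool.Agent.Lib.MP_72c364_ag.SE.Main
import Pool.Agent.Lib.MP_879916_ag.SS.K9s
import Pool.Agent.Lib.MP_879916_ag.SS.ZLef
import Pool.Agent.Lib.MP_879916_ag.SS.ZLf

namespace Pool.Agent.Lib.MP_72c364_ag.SurfacesLocalGlobal

open Pool.Agent.ZCy

attribute [local instance] Place.field Place.alg

theorem result (k : Type) [Field k] (F : Type) [Field F] [Finite F] [Algebra (RatFunc F) k]
    [FiniteDimensional (RatFunc F) k] (l : ℕ) (hl : l.Prime) (hk : (l : k) ≠ 0) (j : Invs k)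
    (A : Set (Place k)) (X : Var k) (m n : ℕ) (hm : 2 ≤ m) (hn : m < n) (hX : X.Nice n)
    (hA : 3 ≤ m ∨ {v | v ∈ A ∧ ¬X.Flat l v.K}.Finite)
    (h : ∀ Y : Gen k X.N, X.I ⊆ Y.var.I → Y.var.Nice m → Y.var.ElOn l j A) : X.ElOn l j A :=
  ZCy.F.se_main (ZCy.F.lefs_of ZCy.F.Kp.k9s ZFy.ZL.thmZs) F hl hk j hm hn hX hA h

end Pool.Agent.Lib.MP_72c364_ag.SurfacesLocalGlobal
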