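import Pool.Agent.Lib.MP_72c364_ag.ZQ.All

namespace Pool.Agent.Lib.MP_72c364_ag.ThreefoldsLocalGlobal

open Pool.Agent.ZCy

theorem result (k : Type) [Field k] (F : Type) [Field F] [Finite F] [Algebra (RatFunc F) k]
    [FiniteDimensional (RatFunc F) k] (l : ℕ) (hl : l.Prime) (hk : (l : k) ≠ 0) (j : Invs k)
    (X : Var k) (n : ℕ) (hn : 4 ≤ n) (hX : X.Nice n)
    (h : ∀ Y : Gen k X.N, X.I ⊆ Y.var.I → Y.var.Nice 3 → Y.var.El l j) : X.El l j :=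
  ZCy.F.el_main ZCy.F.q_hyp F hl hk j hn hX h

end Pool.Agent.Lib.MP_72c364_ag.ThreefoldsLocalGlobal
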